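import Mathlib

/-!
Discriminants of relative bases contained in an ideal.
-/

set_option autoImplicit false
set_option linter.unusedSectionVars false

namespace Pool.Agent.D0H75.RD

open NumberField Module Matrix Kronecker

noncomputable section

/-- independent families in an ideal have a large discriminant -/
lemma discr_ge {L : Type*} [Field L] [NumberField L] {κ : Type*} [Fintype κ] [DecidableEq κ]
    (hκ : Fintype.card κ = finrank ℚ L) (I : Ideal (𝓞 L)) (hI : I ≠ ⊥) (u : κ → 𝓞 L)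
    (hu : ∀ k, u k ∈ I) (hd : Algebra.discr ℚ (fun k => (u k : L)) ≠ 0) :
    (Ideal.absNorm I : ℚ) ^ 2 * |(discr L : ℚ)| ≤ |Algebra.discr ℚ (fun k => (u k : L))| := by
  classical
  have hcard : Fintype.card (Free.ChooseBasisIndex ℤ (𝓞 L)) = Fintype.card κ := by
    rw [hκ, ← finrank_eq_card_chooseBasisIndex, RingOfIntegers.rank]
  let e : Free.ChooseBasisIndex ℤ (𝓞 L) ≃ κ := Fintype.equivOfCardEq hcard
  let b : Basis κ ℤ (𝓞 L) := (RingOfIntegers.basis L).reindex e
  let bI : Basis κ ℤ I := I.selfBasis b hI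
  let P : Matrix κ κ ℤ := b.toMatrix u
  have h1 : (fun k => (u k : L)) = (fun k => (b k : L)) ᵥ* (P.map (Int.cast : ℤ → ℚ)).map
      (algebraMap ℚ L) := by
    funext j
    have h2 : u j = ∑ i, P i j • b i := (b.sum_toMatrix_smul_self u j).symm
    simp only [Matrix.vecMul, dotProduct, Matrix.map_apply]
    rw [h2]
    push_cast
    refine Finset.sum_congr rfl fun i _ => ?_
    simp [mul_comm]
  have h3 : Algebra.discr ℚ (fun k => (b k : L)) = discr L := by
    rw [coe_discr, ← Algebra.discr_reindex ℚ (integralBasis L) e]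
    congr 1
    funext k
    simp only [b, Basis.reindex_apply, Function.comp_apply, integralBasis_apply]
  have h4 : Algebra.discr ℚ (fun k => (u k : L)) = (P.det : ℚ) ^ 2 * discr L := by
    rw [h1, Algebra.discr_of_matrix_vecMul, h3]
    congr 2
    exact (Int.cast_det P).symm
  have h5 : P = b.toMatrix ((↑) ∘ bI) * bI.toMatrix (fun k => (⟨u k, hu k⟩ : I)) := by
    ext i j
    have h6 := bI.sum_toMatrix_smul_self (fun k => (⟨u k, hu k⟩ : I)) j
    have h7 : u j = ∑ k, bI.toMatrix (fun k => (⟨u k, hu k⟩ : I)) k j • (bI k : 𝓞 L) := by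
      have h8 := congrArg (fun x : I => (x : 𝓞 L)) h6
      simp only at h8
      rw [← h8]
      push_cast
      rfl
    have h9 : P i j = b.repr (u j) i := rfl
    rw [h9, h7, map_sum, Finsupp.finsetSum_apply, Matrix.mul_apply]
    refine Finset.sum_congr rfl fun k _ => ?_
    rw [map_smul, Finsupp.smul_apply, smul_eq_mul, mul_comm]
    rfl
  have h6 : P.det.natAbs = Ideal.absNorm I *
      (bI.toMatrix (fun k => (⟨u k, hu k⟩ : I))).det.natAbs := by
    rw [h5, det_mul, Int.natAbs_mul]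
    congr 1
    exact Ideal.natAbs_det_basis_change b I bI
  have h7 : P.det ≠ 0 := by
    intro h0
    apply hd
    rw [h4, h0]
    simp
  have h8 : Ideal.absNorm I ≤ P.det.natAbs := by
    rw [h6]
    apply Nat.le_mul_of_pos_right
    rw [Nat.pos_iff_ne_zero]
    intro h0
    rw [h0, mul_zero, Int.natAbs_eq_zero] at h6
    exact h7 h6
  rw [h4, abs_mul, abs_pow]
  refine mul_le_mul_of_nonneg_right ?_ (abs_nonneg _)
  refine pow_le_pow_left₀ (Nat.cast_nonneg _) ?_ 2
  rw [← Int.cast_abs, Int.abs_eq_natAbs]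
  exact_mod_cast h8

variable {E : Type*} [Field E] [NumberField E] {L : Type*} [Field L] [NumberField L] [Algebra E L]
variable {ι κ : Type*} [Fintype ι] [DecidableEq ι] [Fintype κ] [DecidableEq κ]

/-- the embeddings of `L` over those of `E` -/
lemma exists_emb (hι : Fintype.card ι = finrank E L) (hκ : Fintype.card κ = finrank ℚ E) :
    ∃ (e : κ ≃ (E →ₐ[ℚ] ℂ)) (e' : ι × κ ≃ (L →ₐ[ℚ] ℂ)),
      ∀ i c x, e' (i, c) (algebraMap E L x) = e c x := by
  classical
  have h1 : Fintype.card κ = Fintype.card (E →ₐ[ℚ] ℂ) := by rw [hκ, AlgHom.card]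
  let e : κ ≃ (E →ₐ[ℚ] ℂ) := Fintype.equivOfCardEq h1
  have h2 : ∀ σ : E →ₐ[ℚ] ℂ, Nonempty (ι ≃ @AlgHom E L ℂ _ _ _ _ σ.toRingHom.toAlgebra) := by
    intro σ
    let _ := σ.toRingHom.toAlgebra
    have h3 : Fintype.card ι = Fintype.card (L →ₐ[E] ℂ) := by rw [hι, AlgHom.card]
    exact ⟨Fintype.equivOfCardEq h3⟩
  let g : ∀ σ : E →ₐ[ℚ] ℂ, ι ≃ @AlgHom E L ℂ _ _ _ _ σ.toRingHom.toAlgebra :=
    fun σ => (h2 σ).some
  let e' : ι × κ ≃ (L →ₐ[ℚ] ℂ) :=
    ((Equiv.prodComm ι κ).trans ((Equiv.sigmaEquivProd κ ι).symm.trans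
      (Equiv.sigmaCongr e fun c => g (e c)))).trans
      (algHomEquivSigma (A := ℚ) (B := E) (C := L) (D := ℂ)).symm
  refine ⟨e, e', fun i c x => ?_⟩
  have h3 := (algHomEquivSigma (A := ℚ) (B := E) (C := L) (D := ℂ)).apply_symm_apply
    ⟨e c, g (e c) i⟩
  have h4 := congrArg Sigma.fst h3
  have h5 := DFunLike.congr_fun h4 x
  exact h5

/-- bound for a determinant by column bounds -/
lemma norm_det_le (B : Matrix ι ι ℂ) (W : ι → ℝ) (h : ∀ i j, ‖B i j‖ ≤ W j) :
    ‖B.det‖ ≤ (Fintype.card ι).factorial * ∏ j, W j := by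
  rw [det_apply]
  refine (norm_sum_le _ _).trans ?_
  have h1 : ∀ σ ∈ (Finset.univ : Finset (Equiv.Perm ι)),
      ‖Equiv.Perm.sign σ • ∏ i, B (σ i) i‖ ≤ ∏ j, W j := by
    intro σ _
    have h2 : ‖Equiv.Perm.sign σ • ∏ i, B (σ i) i‖ = ‖∏ i, B (σ i) i‖ := by
      rcases Int.units_eq_one_or (Equiv.Perm.sign σ) with h3 | h3 <;> simp [h3]
    rw [h2, norm_prod]
    exact Finset.prod_le_prod (fun i _ => norm_nonneg _) fun i _ => h _ _
  refine (Finset.sum_le_sum h1).trans (le_of_eq ?_)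
  rw [Finset.sum_const, Finset.card_univ, Fintype.card_perm, nsmul_eq_mul]

/-- upper bound for the discriminant of a product basis -/
lemma discr_le (hι : Fintype.card ι = finrank E L) (hκ : Fintype.card κ = finrank ℚ E)
    (u : ι → L) (ω : κ → E) (W : (L →ₐ[ℚ] ℂ) → ℝ) (hW : ∀ σ i, ‖σ (u i)‖ ≤ W σ) :
    |((Algebra.discr ℚ (fun p : ι × κ => u p.1 * algebraMap E L (ω p.2)) : ℚ) : ℝ)| ≤
      (((finrank E L).factorial : ℝ) ^ finrank ℚ E * ∏ σ, W σ) ^ 2 *
        |((Algebra.discr ℚ ω : ℚ) : ℝ)| ^ finrank E L := by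
  classical
  obtain ⟨e, e', he⟩ := exists_emb (E := E) (L := L) hι hκ
  set b : ι × κ → L := fun p => u p.1 * algebraMap E L (ω p.2) with hb
  let B : κ → Matrix ι ι ℂ := fun c => Matrix.of fun j i => e' (i, c) (u j)
  have h1 : Algebra.embeddingsMatrixReindex ℚ ℂ b e' =
      ((1 : Matrix ι ι ℂ) ⊗ₖ (Algebra.embeddingsMatrixReindex ℚ ℂ ω e)) * blockDiagonal B := by
    ext ⟨j, k⟩ ⟨i, c⟩
    rw [Matrix.mul_apply, Fintype.sum_eq_single (j, c)]
    · simp only [Algebra.embeddingsMatrixReindex, Algebra.embeddingsMatrix, reindex_apply,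
        submatrix_apply, Equiv.refl_symm, Equiv.coe_refl, id_eq, Equiv.symm_symm, of_apply,
        kroneckerMap_apply, one_apply_eq, one_mul, blockDiagonal_apply, if_true, B, hb,
        map_mul, he]
      ring
    · rintro ⟨j', c'⟩ hne
      by_cases hj : j' = j
      · subst hj
        have hc : c' ≠ c := fun h => hne (by rw [h])
        simp [blockDiagonal_apply, hc]
      · simp [kroneckerMap_apply, one_apply, Ne.symm hj]
  have h2 := Algebra.discr_eq_det_embeddingsMatrixReindex_pow_two ℚ ℂ b e'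
  have h3 := Algebra.discr_eq_det_embeddingsMatrixReindex_pow_two ℚ ℂ ω e
  have hn : ∀ q : ℚ, ‖algebraMap ℚ ℂ q‖ = |(q : ℝ)| := by
    intro q
    simp
  have h4 : ‖(blockDiagonal B).det‖ ≤ ((finrank E L).factorial : ℝ) ^ finrank ℚ E * ∏ σ, W σ := by
    rw [det_blockDiagonal, norm_prod]
    have h5 : ∀ c ∈ (Finset.univ : Finset κ), ‖(B c).det‖ ≤
        ((finrank E L).factorial : ℝ) * ∏ i, W (e' (i, c)) := by
      intro c _
      rw [← hι]
      exact norm_det_le (B c) (fun i => W (e' (i, c))) fun i j => hW _ _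
    refine (Finset.prod_le_prod (fun c _ => norm_nonneg _) h5).trans (le_of_eq ?_)
    rw [Finset.prod_mul_distrib, Finset.prod_const, Finset.card_univ, hκ]
    congr 1
    rw [← Equiv.prod_comp e' W, Fintype.prod_prod_type_right]
  rw [← hn, h2, norm_pow, h1, det_mul, norm_mul, det_kronecker, det_one, one_pow, one_mul,
    norm_pow, mul_pow, mul_comm]
  have h6 : ‖(Algebra.embeddingsMatrixReindex ℚ ℂ ω e).det‖ ^ 2 =
      |((Algebra.discr ℚ ω : ℚ) : ℝ)| := by
    rw [← hn, h3, norm_pow]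
  rw [← pow_mul, mul_comm (Fintype.card ι) 2, pow_mul, h6, hι]
  exact mul_le_mul_of_nonneg_right (pow_le_pow_left₀ (norm_nonneg _) h4 2)
    (pow_nonneg (abs_nonneg _) _)

end

end Pool.Agent.D0H75.RD
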