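import Mathlib
import Pool.Agent.W238.Leh.Count
import Pool.Agent.D0H75.RD.Alg

/-!
The ideals generated by the adapted forms, and the inequality for discriminants.
-/

set_option autoImplicit false
set_option linter.unusedSectionVars false

namespace Pool.Agent.D0H75.RD

open NumberField Module MvPolynomial
open Pool.Agent.W238.Leh

noncomputable section

variable {L : Type} [Field L] [NumberField L] {N : ℕ}

/-- products over embeddings and over infinite places -/
lemma prod_emb (G : InfinitePlace L → ℝ) :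
    ∏ σ : L →ₐ[ℚ] ℂ, G (InfinitePlace.mk σ.toRingHom) = ∏ w : InfinitePlace L, G w ^ w.mult := by
  classical
  have h0 : ∏ σ : L →ₐ[ℚ] ℂ, G (InfinitePlace.mk σ.toRingHom) =
      ∏ φ : L →+* ℂ, G (InfinitePlace.mk φ) :=
    Fintype.prod_equiv (RingHom.equivRatAlgHom (R := L) (S := ℂ)).symm _ _ fun σ => rfl
  rw [h0, ← Finset.prod_fiberwise Finset.univ (fun φ => InfinitePlace.mk φ)]
  refine Finset.prod_congr rfl fun w _ => ?_
  rw [Finset.prod_congr rfl (g := fun _ => G w) (fun φ hφ => by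
    rw [(Finset.mem_filter.mp hφ).2]), Finset.prod_const, InfinitePlace.card_filter_mk_eq]

/-- the ideal generated by the coordinates -/
def J (x : Fin (N + 1) → L) : Ideal (𝓞 L) := Ideal.span {y : 𝓞 L | ∃ i, (y : L) = x i}

lemma J_coe (y : Fin (N + 1) → 𝓞 L) : J (fun i => (y i : L)) = Ideal.span (Set.range y) := by
  unfold J
  congr 1
  ext t
  constructor
  · rintro ⟨i, hi⟩
    exact ⟨i, (RingOfIntegers.coe_injective hi).symm⟩
  · rintro ⟨i, rfl⟩
    exact ⟨i, rfl⟩

lemma absNorm_J (y : Fin (N + 1) → 𝓞 L) (hy : (fun i => (y i : L)) ≠ 0) :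
    J (fun i => (y i : L)) ≠ ⊥ ∧
    Real.log (Ideal.absNorm (J (fun i => (y i : L)))) =
      - ∑ᶠ v : FinitePlace L, Real.log (nmf v (fun i => (y i : L))) := by
  have hy0 : y ≠ 0 := by
    rintro rfl
    apply hy
    funext i
    simp
  have h1 := absNorm_mul_finprod_finitePlace_eq_one (K := L) hy0
  rw [← J_coe] at h1
  have h2 : (0 : ℝ) < ∏ᶠ v : FinitePlace L, nmf v (fun i => (y i : L)) :=
    finprod_pos' fun v => nmf_pos v hy
  have h3 : ((Ideal.absNorm (J (fun i => (y i : L))) : ℕ) : ℝ) ≠ 0 := by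
    intro h0
    rw [h0, zero_mul] at h1
    exact zero_ne_one h1
  constructor
  · intro h0
    apply h3
    rw [h0]
    simp
  · have h4 : ((Ideal.absNorm (J (fun i => (y i : L))) : ℕ) : ℝ) *
        ∏ᶠ v : FinitePlace L, nmf v (fun i => (y i : L)) = 1 := h1
    have h5 := congrArg Real.log h4
    rw [Real.log_mul h3 h2.ne', Real.log_one, Real.log_finprod fun v => nmf_pos v hy] at h5
    linarith

variable {K : Type} [Field K] [NumberField K] [Algebra K L]
variable {F : Fin (N + 1) → MvPolynomial (Fin (N + 1)) K} {d a c : ℕ} {A : ℝ}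

/-- the ideal belonging to a list of exponents -/
def IL (F : Fin (N + 1) → MvPolynomial (Fin (N + 1)) K) :
    List ℕ → (Fin (N + 1) → L) → Ideal (𝓞 L)
  | [], _ => ⊤
  | r :: l, x => J x ^ r * IL F l (act F x)

lemma aeval_int {p : MvPolynomial (Fin (N + 1)) K} (hp : ∀ s, IsIntegral ℤ (p.coeff s))
    (y : Fin (N + 1) → 𝓞 L) : ∃ t : 𝓞 L, (t : L) = aeval (fun i => (y i : L)) p := by
  have h1 : IsIntegral ℤ (aeval (fun i => (y i : L)) p) := by
    rw [aeval_def, eval₂_eq']
    refine IsIntegral.sum _ fun s _ => ?_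
    refine IsIntegral.mul ((hp s).algebraMap) (IsIntegral.prod _ fun i _ => ?_)
    exact (RingOfIntegers.isIntegral_coe (y i)).pow _
  exact ⟨⟨_, h1⟩, rfl⟩

lemma act_int (hint : ∀ i s, IsIntegral ℤ ((F i).coeff s)) (y : Fin (N + 1) → 𝓞 L) :
    ∃ y' : Fin (N + 1) → 𝓞 L, act F (fun i => (y i : L)) = fun i => (y' i : L) := by
  choose y' hy' using fun i => aeval_int (hint i) y
  exact ⟨y', funext fun i => (hy' i).symm⟩

lemma mem_IL (hint : ∀ i s, IsIntegral ℤ ((F i).coeff s)) (l : List ℕ)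
    {φ : MvPolynomial (Fin (N + 1)) K} (hφ : φ ∈ GG F l) (y : Fin (N + 1) → 𝓞 L) :
    ∃ t : 𝓞 L, t ∈ IL F l (fun i => (y i : L)) ∧ (t : L) = aeval (fun i => (y i : L)) φ := by
  induction l generalizing φ y with
  | nil =>
    rw [GG, Set.mem_singleton_iff] at hφ
    refine ⟨1, by simp [IL], ?_⟩
    rw [hφ, map_one]
    simp
  | cons r l ih =>
    obtain ⟨s, hs, g, hg, rfl⟩ := hφ
    obtain ⟨y', hy'⟩ := act_int hint y
    obtain ⟨t, ht, hte⟩ := ih hg y'
    refine ⟨(∏ i, y i ^ s i) * t, ?_, ?_⟩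
    · rw [IL]
      refine Ideal.mul_mem_mul ?_ (by rw [hy']; exact ht)
      rw [J_coe, ← hs, Finsupp.degree_eq_sum, ← Finset.prod_pow_eq_pow_sum]
      refine Ideal.prod_mem_prod fun i _ => ?_
      exact Ideal.pow_mem_pow (Ideal.subset_span (Set.mem_range_self i)) _
    · have h1 : aeval (fun i => (y i : L)) (bind₁ F g) = aeval (act F fun i => (y i : L)) g := by
        rw [aeval_bind₁]
        rfl
      rw [map_mul, h1, aeval_monomial, map_one, one_mul,
        Finsupp.prod_fintype _ _ (fun i => pow_zero _), hy', ← hte]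
      push_cast
      rfl

lemma log_IL (hint : ∀ i s, IsIntegral ℤ ((F i).coeff s)) (l : List ℕ)
    (y : Fin (N + 1) → 𝓞 L) (hy : ∀ j, (act F)^[j] (fun i => (y i : L)) ≠ 0) :
    IL F l (fun i => (y i : L)) ≠ ⊥ ∧
    Real.log (Ideal.absNorm (IL F l (fun i => (y i : L)))) =
      - ∑ᶠ v : FinitePlace L, Real.log (wt (nmf v) (act F) l (fun i => (y i : L))) := by
  induction l generalizing y with
  | nil =>
    simp [IL, wt]
  | cons r l ih =>
    obtain ⟨y', hy'⟩ := act_int hint y
    have hyy : ∀ j, (act F)^[j] (fun i => (y' i : L)) ≠ 0 := fun j => by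
      have := hy (j + 1)
      rwa [Function.iterate_succ_apply, hy'] at this
    have hy0 : (fun i => (y i : L)) ≠ 0 := hy 0
    obtain ⟨h1, h2⟩ := ih y' hyy
    obtain ⟨h3, h4⟩ := absNorm_J y hy0
    have h5 : (Ideal.absNorm (J fun i => (y i : L)) : ℝ) ≠ 0 := by
      rw [Nat.cast_ne_zero, Ne, Ideal.absNorm_eq_zero_iff]
      exact h3
    have h6 : (Ideal.absNorm (IL F l fun i => (y' i : L)) : ℝ) ≠ 0 := by
      rw [Nat.cast_ne_zero, Ne, Ideal.absNorm_eq_zero_iff]
      exact h1
    have ev : ∀ v : FinitePlace L, Real.log (wt (nmf v) (act F) (r :: l) fun i => (y i : L)) =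
        r * Real.log (nmf v fun i => (y i : L)) +
          Real.log (wt (nmf v) (act F) l fun i => (y' i : L)) := by
      intro v
      rw [wt, hy', Real.log_mul (pow_ne_zero _ (nmf_pos v hy0).ne')
        (wt_pos l fun j => nmf_pos v (hyy j)).ne', Real.log_pow]
    have hs1 := supp_log_nmf hy0
    have hs2 := (HasGS.wt (F := F) l hyy).1
    have hs3 : (Function.support fun v : FinitePlace L =>
        (r : ℝ) * Real.log (nmf v fun i => (y i : L))).Finite :=
      hs1.subset fun v hv => by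
        rw [Function.mem_support] at hv ⊢
        exact right_ne_zero_of_mul hv
    refine ⟨?_, ?_⟩
    · rw [IL, hy']
      exact mul_ne_zero (pow_ne_zero _ h3) h1
    · rw [IL, hy', map_mul, map_pow]
      push_cast
      rw [Real.log_mul (pow_ne_zero _ h5) h6, Real.log_pow, h2, h4]
      simp only [ev]
      rw [finsum_add_distrib hs3 hs2, ← mul_finsum]
      ring

end

end Pool.Agent.D0H75.RD
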