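import Mathlib
import Pool.Agent.W238.Leh.Count

/-!
Canonical heights, from the comparison of the heights of a point and of its image only.
-/

set_option autoImplicit false
set_option linter.unusedSectionVars false

namespace Pool.Agent.D0H75.RD

open NumberField Module MvPolynomial Filter Topology
open Pool.Agent.W238.Leh

noncomputable section

variable {K : Type} [Field K] [NumberField K] {N : ℕ}

/-- comparison of heights with the constant `H`, over all number fields -/
structure HB (F : Fin (N + 1) → MvPolynomial (Fin (N + 1)) K) (d : ℕ) (H : ℝ) : Prop where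
  nonneg : 0 ≤ H
  ne : ∀ (L : Type) [Field L] [NumberField L] [Algebra K L] (z : Fin (N + 1) → L), z ≠ 0 →
    act F z ≠ 0
  up : ∀ (L : Type) [Field L] [NumberField L] [Algebra K L] (z : Fin (N + 1) → L), z ≠ 0 →
    Height.logHeight (act F z) ≤ d * Height.logHeight z + finrank ℚ L * H
  lo : ∀ (L : Type) [Field L] [NumberField L] [Algebra K L] (z : Fin (N + 1) → L), z ≠ 0 →
    d * Height.logHeight z ≤ Height.logHeight (act F z) + finrank ℚ L * H

variable {L : Type} [Field L] [NumberField L] [Algebra K L]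
variable {F : Fin (N + 1) → MvPolynomial (Fin (N + 1)) K} {d : ℕ} {H : ℝ}

lemma HB.iter_ne_zero (h : HB F d H) {z : Fin (N + 1) → L} (hz : z ≠ 0) (n : ℕ) :
    (act F)^[n] z ≠ 0 := by
  induction n with
  | zero => exact hz
  | succ n ih =>
    rw [Function.iterate_succ_apply']
    exact h.ne L _ ih

lemma HB.exists_canon (h : HB F d H) (hd : 2 ≤ d) {z : Fin (N + 1) → L} (hz : z ≠ 0) :
    ∃ h' : ℝ, Tendsto (fun n : ℕ => Height.logHeight ((act F)^[n] z) /
      ((finrank ℚ L : ℝ) * (d : ℝ) ^ n)) atTop (𝓝 h') ∧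
      |Height.logHeight z / finrank ℚ L - h'| ≤ H := by
  have hD := finrank_pos' (L := L)
  have hC0 := h.nonneg
  have hd' : (2 : ℝ) ≤ d := by exact_mod_cast hd
  set f : ℕ → ℝ := fun n => Height.logHeight ((act F)^[n] z) /
      ((finrank ℚ L : ℝ) * (d : ℝ) ^ n) with hf
  have hstep : ∀ n, dist (f n) (f (n + 1)) ≤ H / 2 * (1 / 2) ^ n := by
    intro n
    have hn := h.iter_ne_zero hz n
    have h1 := h.up L _ hn
    have h2 := h.lo L _ hn
    rw [← Function.iterate_succ_apply' (act F) n z] at h1 h2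
    have hdn : (0 : ℝ) < (d : ℝ) ^ (n + 1) := by positivity
    have e1 : f n - f (n + 1) = (d * Height.logHeight ((act F)^[n] z) -
        Height.logHeight ((act F)^[n + 1] z)) / ((finrank ℚ L : ℝ) * (d : ℝ) ^ (n + 1)) := by
      simp only [hf]
      field_simp
      ring
    rw [Real.dist_eq, e1, abs_div, abs_of_pos (show (0 : ℝ) < (finrank ℚ L : ℝ) *
      (d : ℝ) ^ (n + 1) by positivity), div_le_iff₀ (by positivity)]
    have h3 : |(d : ℝ) * Height.logHeight ((act F)^[n] z) -
        Height.logHeight ((act F)^[n + 1] z)| ≤ finrank ℚ L * H := by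
      rw [abs_le]
      constructor <;> linarith
    refine h3.trans ?_
    have h4 : (1 : ℝ) ≤ (1 / 2) ^ (n + 1) * (d : ℝ) ^ (n + 1) := by
      rw [← mul_pow]
      exact one_le_pow₀ (by linarith)
    calc (finrank ℚ L : ℝ) * H = finrank ℚ L * H * 1 := by ring
      _ ≤ finrank ℚ L * H * ((1 / 2) ^ (n + 1) * (d : ℝ) ^ (n + 1)) :=
          mul_le_mul_of_nonneg_left h4 (by positivity)
      _ = _ := by ring
  have hcau : CauchySeq f := cauchySeq_of_le_geometric (1 / 2) (H / 2) (by norm_num) hstep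
  obtain ⟨h', hH⟩ := cauchySeq_tendsto_of_complete hcau
  refine ⟨h', hH, ?_⟩
  have h5 := dist_le_of_le_geometric_of_tendsto₀ (1 / 2) (H / 2) (by norm_num) hstep hH
  have e2 : f 0 = Height.logHeight z / finrank ℚ L := by
    simp [hf]
  rw [e2, Real.dist_eq] at h5
  refine h5.trans (le_of_eq ?_)
  norm_num
  ring

lemma HB.canH_tendsto (h : HB F d H) (hd : 2 ≤ d) {z : Fin (N + 1) → L} (hz : z ≠ 0) :
    Tendsto (fun n : ℕ => Height.logHeight ((act F)^[n] z) /
      ((finrank ℚ L : ℝ) * (d : ℝ) ^ n)) atTop (𝓝 (canH F d z)) := by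
  obtain ⟨H, hH, _⟩ := h.exists_canon hd hz
  exact tendsto_nhds_limUnder ⟨H, hH⟩

lemma HB.abs_canH (h : HB F d H) (hd : 2 ≤ d) {z : Fin (N + 1) → L} (hz : z ≠ 0) :
    |Height.logHeight z / finrank ℚ L - canH F d z| ≤ H := by
  obtain ⟨h', hH, h1⟩ := h.exists_canon hd hz
  rwa [tendsto_nhds_unique (h.canH_tendsto hd hz) hH]

lemma HB.canH_nonneg (h : HB F d H) (hd : 2 ≤ d) {z : Fin (N + 1) → L} (hz : z ≠ 0) :
    0 ≤ canH F d z := by
  refine ge_of_tendsto' (h.canH_tendsto hd hz) fun n => ?_
  have := Height.logHeight_nonneg ((act F)^[n] z)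
  positivity

lemma HB.canH_act (h : HB F d H) (hd : 2 ≤ d) {z : Fin (N + 1) → L} (hz : z ≠ 0) :
    canH F d (act F z) = d * canH F d z := by
  have h1 := h.canH_tendsto hd (h.ne L _ hz)
  have h2 := ((h.canH_tendsto hd hz).comp (tendsto_add_atTop_nat 1)).const_mul (d : ℝ)
  refine tendsto_nhds_unique h1 (h2.congr fun n => ?_)
  have hd' : (0 : ℝ) < d := by
    have : 0 < d := by omega
    exact_mod_cast this
  have hD := finrank_pos' (L := L)
  simp only [Function.comp_apply, Function.iterate_succ_apply]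
  field_simp
  ring

lemma HB.canH_iter (h : HB F d H) (hd : 2 ≤ d) {z : Fin (N + 1) → L} (hz : z ≠ 0) (n : ℕ) :
    canH F d ((act F)^[n] z) = d ^ n * canH F d z := by
  induction n with
  | zero => simp
  | succ n ih =>
    rw [Function.iterate_succ_apply', h.canH_act hd (h.iter_ne_zero hz n), ih, pow_succ]
    ring

lemma HB.logHeight_le (h : HB F d H) (hd : 2 ≤ d) {z : Fin (N + 1) → L} (hz : z ≠ 0) :
    Height.logHeight z ≤ finrank ℚ L * (canH F d z + H) := by
  have h1 := h.abs_canH hd hz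
  have hD := finrank_pos' (L := L)
  rw [abs_le] at h1
  have h2 : Height.logHeight z / finrank ℚ L ≤ canH F d z + H := by linarith [h1.2]
  rw [div_le_iff₀ hD] at h2
  linarith

lemma HB.HL_le (h : HB F d H) (hd : 2 ≤ d) (l : List ℕ) {z : Fin (N + 1) → L} (hz : z ≠ 0) :
    HL F l z ≤ finrank ℚ L * (ldeg d l * canH F d z + H * l.sum) := by
  induction l generalizing z with
  | nil => simp [HL, ldeg]
  | cons r l ih =>
    rw [HL, ldeg, List.sum_cons]
    have h1 := ih (h.ne L _ hz)
    rw [h.canH_act hd hz] at h1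
    have h2 := mul_le_mul_of_nonneg_left (h.logHeight_le hd hz) (Nat.cast_nonneg (α := ℝ) r)
    push_cast
    calc _ ≤ (r : ℝ) * (finrank ℚ L * (canH F d z + H)) +
          finrank ℚ L * (ldeg d l * (d * canH F d z) + H * l.sum) := by
            push_cast at h1 h2 ⊢
            linarith
      _ = _ := by push_cast; ring

end

end Pool.Agent.D0H75.RD
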