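import Mathlib
import Pool.Agent.W238.Leh.Forms

/-!
Forms without common zero: a uniform degree from which on all forms are in the ideal, and an
explicit identity given by minors.
-/

set_option autoImplicit false
set_option linter.unusedSectionVars false

namespace Pool.Agent.D0H75.RD

open MvPolynomial Module
open Pool.Agent.W238.Leh (exists_mem_span exists_bez)

noncomputable section

variable {N : ℕ}

/-- exponents of the monomials of degree `m` -/
abbrev Mn (N m : ℕ) : Type :=
  ↥((Finset.univ : Finset (Fin (N + 1))).finsuppAntidiag m)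

lemma Mn_degree {m : ℕ} (s : Mn N m) : s.1.degree = m := by
  have h := (Finset.mem_finsuppAntidiag.mp s.2).1
  rw [Finsupp.degree_eq_sum]
  exact h

/-- the exponent `s` of degree `m` as an element of `Mn N m` -/
def mkMn {m : ℕ} (s : Fin (N + 1) →₀ ℕ) (h : s.degree = m) : Mn N m :=
  ⟨s, Finset.mem_finsuppAntidiag.mpr ⟨by rw [← h, Finsupp.degree_eq_sum], Finset.subset_univ _⟩⟩

/-- the matrix of `(q_j) ↦ ∑ q_j F_j` on forms of degree `e - d` -/
def TM {R : Type*} [CommRing R] (d e : ℕ) (F : Fin (N + 1) → MvPolynomial (Fin (N + 1)) R) :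
    Matrix (Mn N e) (Fin (N + 1) × Mn N (e - d)) R :=
  fun s p => (monomial p.2.1 1 * F p.1).coeff s.1

lemma TM_map {R S : Type*} [CommRing R] [CommRing S] (φ : R →+* S) (d e : ℕ)
    (F : Fin (N + 1) → MvPolynomial (Fin (N + 1)) R) :
    TM d e (fun j => map φ (F j)) = (TM d e F).map φ := by
  ext s p
  simp only [TM, Matrix.map_apply]
  rw [← coeff_map, map_mul, map_monomial, RingHom.map_one φ]

lemma det_map {R S : Type*} [CommRing R] [CommRing S] (φ : R →+* S) (d e : ℕ)
    (F : Fin (N + 1) → MvPolynomial (Fin (N + 1)) R)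
    (τ : Mn N e → Fin (N + 1) × Mn N (e - d)) :
    ((TM d e (fun j => map φ (F j))).submatrix id τ).det =
      φ ((TM d e F).submatrix id τ).det := by
  rw [TM_map, RingHom.map_det]
  rfl

/-- some maximal minor is not zero -/
def PM {k : Type*} [Field k] (d e : ℕ) (F : Fin (N + 1) → MvPolynomial (Fin (N + 1)) k) : Prop :=
  ∃ τ : Mn N e → Fin (N + 1) × Mn N (e - d), ((TM d e F).submatrix id τ).det ≠ 0

variable {k : Type*} [Field k] {d : ℕ} {F : Fin (N + 1) → MvPolynomial (Fin (N + 1)) k}

lemma hom_mul (hF : ∀ i, (F i).IsHomogeneous d) {e : ℕ} (he : d ≤ e)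
    (p : Fin (N + 1) × Mn N (e - d)) : (monomial p.2.1 (1 : k) * F p.1).IsHomogeneous e := by
  have h1 := (isHomogeneous_monomial (R := k) (1 : k) (Mn_degree p.2)).mul (hF p.1)
  rwa [Nat.sub_add_cancel he] at h1

/-- a form of degree `e` is determined by its coefficients -/
lemma hom_ext {R : Type*} [CommRing R] {p q : MvPolynomial (Fin (N + 1)) R} {e : ℕ}
    (hp : p.IsHomogeneous e) (hq : q.IsHomogeneous e)
    (h : ∀ s : Mn N e, p.coeff s.1 = q.coeff s.1) : p = q := by
  ext s
  by_cases hs : s.degree = e
  · exact h (mkMn s hs)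
  · have h1 : ∀ r : MvPolynomial (Fin (N + 1)) R, r.IsHomogeneous e → r.coeff s = 0 := by
      intro r hr
      by_contra hcon
      apply hs
      rw [← hr hcon, Finsupp.degree_eq_weight_one]
      rfl
    rw [h1 p hp, h1 q hq]

/-- the identity given by the adjugate -/
lemma adj_id (hF : ∀ i, (F i).IsHomogeneous d) {e : ℕ} (he : d ≤ e)
    (τ : Mn N e → Fin (N + 1) × Mn N (e - d)) (s₀ : Mn N e) :
    C ((TM d e F).submatrix id τ).det * monomial s₀.1 1 =
      ∑ s : Mn N e, C (((TM d e F).submatrix id τ).adjugate s s₀) *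
        (monomial (τ s).2.1 1 * F (τ s).1) := by
  classical
  set A := (TM d e F).submatrix id τ with hA
  refine hom_ext (e := e) ?_ ?_ ?_
  · have h1 := (isHomogeneous_C (Fin (N + 1)) A.det).mul
      (isHomogeneous_monomial (R := k) (1 : k) (Mn_degree s₀))
    rwa [zero_add] at h1
  · refine IsHomogeneous.sum _ _ _ fun s _ => ?_
    have h1 := (isHomogeneous_C (Fin (N + 1)) (A.adjugate s s₀)).mul (hom_mul hF he (τ s))
    rwa [zero_add] at h1
  · intro s
    rw [coeff_sum, coeff_C_mul, coeff_monomial]
    have h1 := congrFun (congrFun (Matrix.mul_adjugate A) s) s₀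
    rw [Matrix.mul_apply, Matrix.smul_apply, Matrix.one_apply, smul_eq_mul] at h1
    have h2 : (if s₀.1 = s.1 then (1 : k) else 0) = if s = s₀ then 1 else 0 := by
      by_cases h3 : s = s₀
      · rw [if_pos h3, h3, if_pos rfl]
      · rw [if_neg h3, if_neg]
        exact fun h4 => h3 (Subtype.ext h4.symm)
    rw [h2, ← h1]
    refine Finset.sum_congr rfl fun t _ => ?_
    rw [coeff_C_mul, mul_comm]
    rfl

/-- from a minor which is not zero all forms of larger degree are in the ideal -/
lemma mem_of_PM (hF : ∀ i, (F i).IsHomogeneous d) {e : ℕ} (he : d ≤ e) (h : PM d e F) :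
    ∀ m, e ≤ m → ∀ p : MvPolynomial (Fin (N + 1)) k, p.IsHomogeneous m →
      p ∈ Ideal.span (Set.range F) := by
  classical
  obtain ⟨τ, hτ⟩ := h
  -- monomials of degree `e`
  have h1 : ∀ s₀ : Mn N e, (monomial s₀.1 1 : MvPolynomial (Fin (N + 1)) k) ∈
      Ideal.span (Set.range F) := by
    intro s₀
    have h2 := adj_id hF he τ s₀
    have h3 : (monomial s₀.1 1 : MvPolynomial (Fin (N + 1)) k) =
        C (((TM d e F).submatrix id τ).det)⁻¹ *
        ∑ s : Mn N e, C (((TM d e F).submatrix id τ).adjugate s s₀) *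
        (monomial (τ s).2.1 1 * F (τ s).1) := by
      rw [← h2, ← mul_assoc, ← C_mul, inv_mul_cancel₀ hτ, C_1, one_mul]
    rw [h3]
    refine Ideal.mul_mem_left _ _ (Ideal.sum_mem _ fun s _ => ?_)
    exact Ideal.mul_mem_left _ _ (Ideal.mul_mem_left _ _
      (Ideal.subset_span (Set.mem_range_self _)))
  intro m hm p hp
  rw [p.as_sum]
  refine Ideal.sum_mem _ fun s hs => ?_
  have hs' : s.degree = m := by
    have := hp (mem_support_iff.mp hs)
    rw [← this, Finsupp.degree_eq_weight_one]
    rfl
  -- a divisor of degree `e`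
  obtain ⟨t, ht, hts⟩ : ∃ t : Fin (N + 1) →₀ ℕ, t.degree = e ∧ t ≤ s := by
    have h4 : ∀ n, n ≤ s.degree → ∃ t : Fin (N + 1) →₀ ℕ, t.degree = n ∧ t ≤ s := by
      intro n
      induction n with
      | zero => exact fun _ => ⟨0, by simp, fun i => Nat.zero_le _⟩
      | succ n ih =>
        intro hn
        obtain ⟨t, ht, hts⟩ := ih (by omega)
        obtain ⟨i, hi⟩ : ∃ i, t i < s i := by
          by_contra hcon
          push Not at hcon
          have h5 : s.degree ≤ t.degree := by
            rw [Finsupp.degree_eq_sum, Finsupp.degree_eq_sum]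
            exact Finset.sum_le_sum fun i _ => hcon i
          omega
        refine ⟨t + Finsupp.single i 1, by rw [map_add, Finsupp.degree_single, ht], ?_⟩
        intro j
        rw [Finsupp.add_apply]
        by_cases hj : j = i
        · subst hj
          rw [Finsupp.single_eq_same]
          omega
        · rw [Finsupp.single_eq_of_ne hj, add_zero]
          exact hts j
    exact h4 e (by omega)
  have h5 : (monomial s (coeff s p) : MvPolynomial (Fin (N + 1)) k) =
      monomial (s - t) (coeff s p) * monomial t 1 := by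
    rw [monomial_mul, mul_one, tsub_add_cancel_of_le hts]
  rw [h5]
  exact Ideal.mul_mem_left _ _ (h1 (mkMn t ht))

/-- if all forms of degree `e` are in the ideal, then some minor is not zero -/
lemma PM_of_mem (hF : ∀ i, (F i).IsHomogeneous d) {e : ℕ} (he : d ≤ e)
    (h : ∀ p : MvPolynomial (Fin (N + 1)) k, p.IsHomogeneous e → p ∈ Ideal.span (Set.range F)) :
    PM d e F := by
  classical
  -- the columns span
  set col : Fin (N + 1) × Mn N (e - d) → Mn N e → k := fun p s => TM d e F s p with hcol
  have h1 : Submodule.span k (Set.range col) = ⊤ := by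
    rw [eq_top_iff]
    rintro v -
    set p : MvPolynomial (Fin (N + 1)) k := ∑ s : Mn N e, monomial s.1 (v s) with hp
    have hph : p.IsHomogeneous e :=
      IsHomogeneous.sum _ _ _ fun s _ => isHomogeneous_monomial _ (Mn_degree s)
    have hpc : ∀ s : Mn N e, p.coeff s.1 = v s := by
      intro s
      rw [hp, coeff_sum, Finset.sum_eq_single s]
      · rw [coeff_monomial, if_pos rfl]
      · intro t _ hts
        rw [coeff_monomial, if_neg fun h3 => hts (Subtype.ext h3)]
      · intro h3
        exact absurd (Finset.mem_univ s) h3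
    obtain ⟨q, hq, hpq⟩ := exists_bez hF he hph (h p hph)
    have h2 : v = ∑ j : Fin (N + 1), ∑ t : Mn N (e - d), (q j).coeff t.1 • col (j, t) := by
      funext s
      rw [← hpc s, hpq, coeff_sum, Finset.sum_apply]
      refine Finset.sum_congr rfl fun j _ => ?_
      rw [Finset.sum_apply]
      have h3 : q j = ∑ t : Mn N (e - d), monomial t.1 ((q j).coeff t.1) := by
        refine hom_ext (hq j)
          (IsHomogeneous.sum _ _ _ fun t _ => isHomogeneous_monomial _ (Mn_degree t)) fun t => ?_
        rw [coeff_sum, Finset.sum_eq_single t]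
        · rw [coeff_monomial, if_pos rfl]
        · intro t' _ hts
          rw [coeff_monomial, if_neg fun h4 => hts (Subtype.ext h4)]
        · intro h4
          exact absurd (Finset.mem_univ t) h4
      conv_lhs => rw [h3]
      rw [Finset.sum_mul, coeff_sum]
      refine Finset.sum_congr rfl fun t _ => ?_
      simp only [hcol, TM, Pi.smul_apply, smul_eq_mul]
      rw [← coeff_C_mul, ← mul_assoc, C_mul_monomial, mul_one]
    rw [h2]
    exact Submodule.sum_mem _ fun j _ => Submodule.sum_mem _ fun t _ =>
      Submodule.smul_mem _ _ (Submodule.subset_span ⟨(j, t), rfl⟩)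
  obtain ⟨b, hb, hbs, hbl⟩ := exists_linearIndependent k (Set.range col)
  rw [h1] at hbs
  let B : Basis b k (Mn N e → k) := Basis.mk hbl (by rw [Subtype.range_coe, hbs])
  let _ : Fintype b := FiniteDimensional.fintypeBasisIndex B
  have hcard : Fintype.card (Mn N e) = Fintype.card b := by
    rw [← finrank_eq_card_basis B, finrank_fintype_fun_eq_card]
  let g : Mn N e ≃ b := Fintype.equivOfCardEq hcard
  have h2 : ∀ s : Mn N e, ∃ p, col p = (g s : Mn N e → k) := fun s => hb (g s).2
  choose τ hτ using h2
  refine ⟨τ, ?_⟩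
  have h3 : LinearIndependent k ((TM d e F).submatrix id τ).col := by
    have h4 : ((TM d e F).submatrix id τ).col = (Subtype.val : b → Mn N e → k) ∘ g := by
      funext s
      exact hτ s
    rw [h4]
    exact hbl.comp g g.injective
  rw [Matrix.linearIndependent_cols_iff_isUnit, Matrix.isUnit_iff_isUnit_det] at h3
  exact h3.ne_zero

lemma PM_mono (hF : ∀ i, (F i).IsHomogeneous d) {e e' : ℕ} (he : d ≤ e) (hee : e ≤ e')
    (h : PM d e F) : PM d e' F :=
  PM_of_mem hF (he.trans hee) fun p hp => mem_of_PM hF he h e' hee p hp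

end

end Pool.Agent.D0H75.RD
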