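import Mathlib
import Pool.Agent.D0H75.RD.Uni

/-!
A degree from which on all forms are in the ideal, uniformly for all forms of degree `d` without
common zero.
-/

set_option autoImplicit false
set_option linter.unusedSectionVars false

namespace Pool.Agent.D0H75.RD

open MvPolynomial Module
open Pool.Agent.W238.Leh (exists_mem_span)

noncomputable section

variable {N : ℕ}

/-- the universal forms of degree `d` -/
def UF (N d : ℕ) (i : Fin (N + 1)) :
    MvPolynomial (Fin (N + 1)) (MvPolynomial (Fin (N + 1) × Mn N d) ℂ) :=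
  ∑ s : Mn N d, monomial s.1 (X (i, s))

/-- the coefficients of the forms -/
def cf {R : Type*} [CommRing R] (d : ℕ) (F : Fin (N + 1) → MvPolynomial (Fin (N + 1)) R) :
    Fin (N + 1) × Mn N d → R := fun p => (F p.1).coeff p.2.1

lemma sum_cf {R : Type*} [CommRing R] {d : ℕ} {p : MvPolynomial (Fin (N + 1)) R}
    (hp : p.IsHomogeneous d) : p = ∑ s : Mn N d, monomial s.1 (p.coeff s.1) := by
  classical
  refine hom_ext hp
    (IsHomogeneous.sum _ _ _ fun t _ => isHomogeneous_monomial _ (Mn_degree t)) fun t => ?_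
  rw [coeff_sum, Finset.sum_eq_single t]
  · rw [coeff_monomial, if_pos rfl]
  · intro t' _ hts
    rw [coeff_monomial, if_neg fun h4 => hts (Subtype.ext h4)]
  · intro h4
    exact absurd (Finset.mem_univ t) h4

lemma map_UF {d : ℕ} {F : Fin (N + 1) → MvPolynomial (Fin (N + 1)) ℂ}
    (hF : ∀ i, (F i).IsHomogeneous d) :
    (fun i => map (eval (cf d F)) (UF N d i)) = F := by
  funext i
  rw [UF, map_sum]
  conv_rhs => rw [sum_cf (hF i)]
  refine Finset.sum_congr rfl fun s _ => ?_
  rw [map_monomial, eval_X]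
  rfl

/-- the set of (coefficients of) forms of degree `d` for which all minors vanish -/
def BS (N d e : ℕ) : Set (Fin (N + 1) × Mn N d → ℂ) :=
  {c | ¬ PM d e fun i => map (eval c) (UF N d i)}

/-- uniform degree, complex case -/
theorem exists_uniform_C (N d : ℕ) : ∃ e₀, d ≤ e₀ ∧
    ∀ F : Fin (N + 1) → MvPolynomial (Fin (N + 1)) ℂ, (∀ i, (F i).IsHomogeneous d) →
      ∀ e, d ≤ e → PM d e F → PM d e₀ F := by
  classical
  have hUF : ∀ (c : Fin (N + 1) × Mn N d → ℂ) (i : Fin (N + 1)),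
      (map (eval c) (UF N d i)).IsHomogeneous d := by
    intro c i
    rw [UF, map_sum]
    refine IsHomogeneous.sum _ _ _ fun s _ => ?_
    rw [map_monomial]
    exact isHomogeneous_monomial _ (Mn_degree s)
  have hmono : ∀ n m : ℕ, n ≤ m → BS N d (d + m) ⊆ BS N d (d + n) := by
    intro n m hnm c hc hcon
    exact hc (PM_mono (hUF c) (by omega) (by omega) hcon)
  let J : ℕ →o Ideal (MvPolynomial (Fin (N + 1) × Mn N d) ℂ) :=
    { toFun := fun n => ⨅ c ∈ BS N d (d + n), RingHom.ker (eval c)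
      monotone' := fun n m hnm => le_iInf₂ fun c hc => iInf₂_le c (hmono n m hnm hc) }
  obtain ⟨n₀, hn₀⟩ := monotone_stabilizes_iff_noetherian.mpr
    (inferInstance : IsNoetherian (MvPolynomial (Fin (N + 1) × Mn N d) ℂ)
      (MvPolynomial (Fin (N + 1) × Mn N d) ℂ)) J
  refine ⟨d + n₀, by omega, fun F hF e he h => ?_⟩
  obtain ⟨n, rfl⟩ : ∃ n, e = d + n := ⟨e - d, by omega⟩
  rcases le_total n n₀ with hn | hn
  · exact PM_mono hF he (by omega) h
  · by_contra hcon
    obtain ⟨τ, hτ⟩ := h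
    set D := ((TM d (d + n) (UF N d)).submatrix id τ).det with hD
    have h1 : D ∈ J n := by
      change D ∈ ⨅ c ∈ BS N d (d + n), RingHom.ker (eval c)
      rw [Ideal.mem_iInf]
      intro c
      rw [Ideal.mem_iInf]
      intro hc
      rw [RingHom.mem_ker, hD, ← det_map]
      by_contra h2
      exact hc ⟨τ, h2⟩
    rw [← hn₀ n hn] at h1
    have h2 : cf d F ∈ BS N d (d + n₀) := by
      intro h3
      apply hcon
      rwa [map_UF hF] at h3
    have h3 : D ∈ RingHom.ker (eval (cf d F)) := by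
      change D ∈ ⨅ c ∈ BS N d (d + n₀), RingHom.ker (eval c) at h1
      rw [Ideal.mem_iInf] at h1
      have h4 := h1 (cf d F)
      rw [Ideal.mem_iInf] at h4
      exact h4 h2
    rw [RingHom.mem_ker, hD, ← det_map, map_UF hF] at h3
    exact hτ h3

/-- uniform degree for number fields -/
theorem exists_uniform (N d : ℕ) : ∃ e₀, d ≤ e₀ ∧ ∀ (K : Type) [Field K] [NumberField K]
    (F : Fin (N + 1) → MvPolynomial (Fin (N + 1)) K), (∀ i, (F i).IsHomogeneous d) →
    (∀ z : Fin (N + 1) → AlgebraicClosure K, (∀ i, aeval z (F i) = 0) → z = 0) →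
    PM d e₀ F := by
  classical
  obtain ⟨e₀, he₀, h⟩ := exists_uniform_C N d
  refine ⟨e₀, he₀, fun K _ _ F hF hmor => ?_⟩
  obtain ⟨e₁, he₁⟩ := exists_mem_span hmor
  have h1 : PM d (e₁ + d) F :=
    PM_of_mem hF (by omega) fun p hp => he₁ (e₁ + d) (by omega) p hp
  obtain ⟨φ⟩ : Nonempty (K →+* ℂ) := inferInstance
  obtain ⟨τ, hτ⟩ := h1
  have h2 : PM d (e₁ + d) fun i => map φ (F i) := by
    refine ⟨τ, ?_⟩
    rw [det_map]
    exact (map_ne_zero φ).mpr hτ
  obtain ⟨τ', hτ'⟩ := h _ (fun i => (hF i).map φ) (e₁ + d) (by omega) h2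
  refine ⟨τ', ?_⟩
  rw [det_map] at hτ'
  exact (map_ne_zero φ).mp hτ'

end

end Pool.Agent.D0H75.RD
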