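import Mathlib
import Pool.Agent.D0H75.RD.Noe
import Pool.Agent.D0H75.RD.HB
import Pool.Agent.W238.Leh.Canon
import Pool.Agent.Helper259.HtExt

/-!
Comparison of heights with a constant which is linear in the height of the coefficients.
-/

set_option autoImplicit false
set_option linter.unusedSectionVars false

namespace Pool.Agent.D0H75.RD

open NumberField MvPolynomial Module
open Pool.Agent.W238.Leh

noncomputable section

variable {N : ℕ}

/-- an absolute value, `κ` bounds the effect of sums -/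
structure AV {k : Type} [Field k] (f : k →*₀ ℝ) (κ : ℕ → ℝ) : Prop where
  nn : ∀ x, 0 ≤ f x
  neg : ∀ x, f (-x) = f x
  κnn : ∀ n, 0 ≤ κ n
  sum : ∀ {ι : Type} (s : Finset ι) (g : ι → k) (B : ℝ), 0 ≤ B → (∀ i ∈ s, f (g i) ≤ B) →
    f (∑ i ∈ s, g i) ≤ κ s.card * B

section abs

variable {k : Type} [Field k] {f : k →*₀ ℝ} {κ : ℕ → ℝ} {d : ℕ}
variable {F : Fin (N + 1) → MvPolynomial (Fin (N + 1)) k}

lemma coeff_le (hF : ∀ i, (F i).IsHomogeneous d) {X : ℝ} (hX : 0 ≤ X)
    (hc : ∀ p, f (cf d F p) ≤ X) (i : Fin (N + 1)) (s : Fin (N + 1) →₀ ℕ) :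
    f ((F i).coeff s) ≤ X := by
  by_cases h0 : (F i).coeff s = 0
  · rw [h0, map_zero]
    exact hX
  · have h1 : s.degree = d := by
      rw [← hF i h0, Finsupp.degree_eq_weight_one]
      rfl
    exact hc (i, mkMn s h1)

lemma TM_le (hF : ∀ i, (F i).IsHomogeneous d) {X : ℝ} (hX : 0 ≤ X)
    (hc : ∀ p, f (cf d F p) ≤ X) {e : ℕ} (s : Mn N e) (p : Fin (N + 1) × Mn N (e - d)) :
    f (TM d e F s p) ≤ X := by
  rw [TM, coeff_monomial_mul']
  split_ifs
  · rw [one_mul]
    exact coeff_le hF hX hc _ _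
  · rw [map_zero]
    exact hX

lemma AV.adj_le (h : AV f κ) (hF : ∀ i, (F i).IsHomogeneous d) {X : ℝ} (hX : 0 ≤ X)
    (hc : ∀ p, f (cf d F p) ≤ X) {e : ℕ} (τ : Mn N e → Fin (N + 1) × Mn N (e - d))
    (s s₀ : Mn N e) : f (((TM d e F).submatrix id τ).adjugate s s₀) ≤
      κ (Fintype.card (Mn N e)).factorial * X ^ (Fintype.card (Mn N e) - 1) := by
  classical
  rw [Matrix.adjugate_apply, Matrix.det_apply, ← Fintype.card_perm, ← Finset.card_univ]
  refine h.sum _ _ _ (pow_nonneg hX _) fun σ _ => ?_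
  have h1 : ∀ x : k, f (Equiv.Perm.sign σ • x) = f x := by
    intro x
    rcases Int.units_eq_one_or (Equiv.Perm.sign σ) with h2 | h2
    · rw [h2, one_smul]
    · rw [h2, Units.neg_smul, one_smul, h.neg]
  rw [h1, map_prod]
  have h2 : ∏ i, (if σ i = s₀ then (1 : ℝ) else X) = X ^ (Fintype.card (Mn N e) - 1) := by
    rw [Equiv.prod_comp σ fun i => if i = s₀ then (1 : ℝ) else X, Finset.prod_ite,
      Finset.prod_const_one, one_mul, Finset.prod_const, Finset.filter_ne',
      Finset.card_erase_of_mem (Finset.mem_univ _), Finset.card_univ]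
  rw [← h2]
  refine Finset.prod_le_prod (fun i _ => h.nn _) fun i _ => ?_
  rw [Matrix.updateRow_apply]
  split_ifs with h3
  · by_cases h4 : i = s
    · rw [h4, Pi.single_eq_same, map_one]
    · rw [Pi.single_eq_of_ne h4, map_zero]
      exact zero_le_one
  · exact TM_le hF hX hc _ _

end abs

section ext

variable {K L : Type} [Field K] [Field L] [Algebra K L] {f : L →*₀ ℝ} {κ : ℕ → ℝ} {d : ℕ}
variable {F : Fin (N + 1) → MvPolynomial (Fin (N + 1)) K}

/-- restriction of an absolute value -/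
def rs (K : Type) {L : Type} [Field K] [Field L] [Algebra K L] (f : L →*₀ ℝ) : K →*₀ ℝ :=
  { toFun := fun x => f (algebraMap K L x)
    map_zero' := by rw [map_zero, map_zero]
    map_one' := by rw [map_one, map_one]
    map_mul' := fun x y => by rw [map_mul, map_mul] }

lemma rs_apply (x : K) : rs K f x = f (algebraMap K L x) := rfl

lemma AV.rs (h : AV f κ) : AV (rs K f) κ where
  nn x := h.nn _
  neg x := by rw [rs_apply, rs_apply, map_neg, h.neg]
  κnn := h.κnn
  sum s g B hB hg := by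
    rw [rs_apply, map_sum]
    exact h.sum s _ B hB hg

lemma prod_pow_le (h : AV f κ) {Z : ℝ} {z : Fin (N + 1) → L} (hZ : ∀ i, f (z i) ≤ Z) {m : ℕ}
    (s : Mn N m) : f (aeval z (monomial s.1 (1 : K))) ≤ Z ^ m := by
  rw [aeval_monomial, map_one, one_mul, Finsupp.prod_fintype _ _ (fun i => pow_zero _), map_prod]
  have h2 : ∑ i, s.1 i = m := by
    rw [← Finsupp.degree_eq_sum, Mn_degree]
  conv_rhs => rw [← h2]
  rw [← Finset.prod_pow_eq_pow_sum]
  refine Finset.prod_le_prod (fun i _ => h.nn _) fun i _ => ?_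
  rw [map_pow]
  exact pow_le_pow_left₀ (h.nn _) (hZ i) _

lemma AV.up (h : AV f κ) (hF : ∀ i, (F i).IsHomogeneous d) {X Z : ℝ} (hX : 0 ≤ X) (hZ0 : 0 ≤ Z)
    (hc : ∀ p, f (algebraMap K L (cf d F p)) ≤ X) {z : Fin (N + 1) → L}
    (hZ : ∀ i, f (z i) ≤ Z) (i : Fin (N + 1)) :
    f (act F z i) ≤ κ (Fintype.card (Mn N d)) * (X * Z ^ d) := by
  classical
  rw [act, sum_cf (hF i), map_sum, ← Finset.card_univ]
  refine h.sum _ _ _ (by positivity) fun s _ => ?_
  have h1 : (monomial s.1 ((F i).coeff s.1) : MvPolynomial (Fin (N + 1)) K) =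
      C ((F i).coeff s.1) * monomial s.1 1 := by
    rw [C_mul_monomial, mul_one]
  rw [h1, map_mul, aeval_C, map_mul]
  exact mul_le_mul (hc (i, s)) (prod_pow_le h hZ s) (h.nn _) hX

lemma AV.lo (h : AV f κ) (hF : ∀ i, (F i).IsHomogeneous d) {X Z W : ℝ} (hX : 0 ≤ X)
    (hZ0 : 0 < Z) (hW0 : 0 ≤ W) (hc : ∀ p, f (algebraMap K L (cf d F p)) ≤ X)
    {z : Fin (N + 1) → L} (hZ : ∀ i, f (z i) ≤ Z) {i₀ : Fin (N + 1)} (hi₀ : f (z i₀) = Z)
    (hW : ∀ i, f (act F z i) ≤ W) {e : ℕ} (he : d ≤ e)
    (τ : Mn N e → Fin (N + 1) × Mn N (e - d)) :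
    f (algebraMap K L ((TM d e F).submatrix id τ).det) * Z ^ d ≤
      κ (Fintype.card (Mn N e)) * κ (Fintype.card (Mn N e)).factorial *
        (X ^ (Fintype.card (Mn N e) - 1) * W) := by
  classical
  have hs : (Finsupp.single i₀ e).degree = e := by rw [Finsupp.degree_single]
  have h1 := congrArg (aeval z) (adj_id (k := K) hF he τ (mkMn (Finsupp.single i₀ e) hs))
  rw [map_mul, aeval_C, map_sum] at h1
  have h2 := congrArg f h1
  rw [map_mul] at h2
  have h3 : f (aeval z (monomial (mkMn (Finsupp.single i₀ e) hs).1 (1 : K))) = Z ^ e := by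
    change f (aeval z (monomial (Finsupp.single i₀ e) (1 : K))) = Z ^ e
    rw [aeval_monomial, map_one, one_mul, Finsupp.prod_single_index (h := fun i k => z i ^ k) (pow_zero _),
      map_pow, hi₀]
  rw [h3] at h2
  set M := algebraMap K L ((TM d e F).submatrix id τ).det with hM
  set r := Fintype.card (Mn N e) with hr
  have hκ1 := h.κnn r
  have hκ2 := h.κnn r.factorial
  have h4 : f M * Z ^ e ≤ κ r * (κ r.factorial * X ^ (r - 1) * (Z ^ (e - d) * W)) := by
    rw [h2, hr, ← Finset.card_univ]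
    refine h.sum _ _ _ (by positivity) fun s _ => ?_
    rw [map_mul, aeval_C, map_mul, map_mul, map_mul]
    refine mul_le_mul ((h.rs (K := K)).adj_le hF hX hc τ _ _) ?_
      (mul_nonneg (h.nn _) (h.nn _)) (by positivity)
    exact mul_le_mul (prod_pow_le h hZ _) (hW _) (h.nn _) (by positivity)
  have h5 : Z ^ e = Z ^ (e - d) * Z ^ d := by
    rw [← pow_add, Nat.sub_add_cancel he]
  rw [h5] at h4
  have h6 : (0 : ℝ) < Z ^ (e - d) := by positivity
  refine le_of_mul_le_mul_left ?_ h6
  calc Z ^ (e - d) * (f M * Z ^ d) = f M * (Z ^ (e - d) * Z ^ d) := by ring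
    _ ≤ _ := h4
    _ = _ := by ring

end ext

section places

variable {L : Type} [Field L] [NumberField L]

/-- the absolute value of an infinite place -/
def avi (w : InfinitePlace L) : L →*₀ ℝ :=
  { toFun := fun x => w x
    map_zero' := map_zero w
    map_one' := map_one w
    map_mul' := map_mul w }

/-- the absolute value of a finite place -/
def avf (v : FinitePlace L) : L →*₀ ℝ :=
  { toFun := fun x => v x
    map_zero' := map_zero v
    map_one' := map_one v
    map_mul' := map_mul v }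

lemma AV_inf (w : InfinitePlace L) : AV (avi w) (fun n => n) where
  nn x := by
    change 0 ≤ w x
    positivity
  neg x := by
    change w (-x) = w x
    rw [← InfinitePlace.norm_embedding_eq, ← InfinitePlace.norm_embedding_eq, map_neg, norm_neg]
  κnn n := Nat.cast_nonneg n
  sum s g B hB hg := by
    change w (∑ i ∈ s, g i) ≤ _
    rw [← InfinitePlace.norm_embedding_eq, map_sum]
    refine (norm_sum_le _ _).trans ?_
    rw [← nsmul_eq_mul]
    refine Finset.sum_le_card_nsmul _ _ _ fun i hi => ?_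
    rw [InfinitePlace.norm_embedding_eq]
    exact hg i hi

lemma AV_fin (v : FinitePlace L) : AV (avf v) (fun _ => 1) where
  nn x := v_nonneg v x
  neg x := by
    change v (-x) = v x
    rw [← neg_one_mul, map_mul]
    have h1 : v (-1 : L) * v (-1 : L) = 1 := by
      rw [← map_mul]
      simp
    have h2 := v_nonneg v (-1 : L)
    have h3 : v (-1 : L) = 1 := by nlinarith
    rw [h3, one_mul]
  κnn _ := zero_le_one
  sum s g B hB hg := by
    rw [one_mul]
    exact v_sum_le v s g hB hg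

variable {ι : Type} [Finite ι]

lemma le_sup (f : L →*₀ ℝ) (z : ι → L) (i : ι) : f (z i) ≤ ⨆ i, f (z i) :=
  le_ciSup (f := fun i => f (z i)) (Finite.bddAbove_range _) i

lemma GSheight {z : ι → L} (hz : z ≠ 0) :
    HasGS (fun w => Real.log (⨆ i, w (z i))) (fun v => Real.log (⨆ i, v (z i)))
      (Height.logHeight z) := by
  obtain ⟨i₀, hi₀⟩ : ∃ i, z i ≠ 0 := Function.ne_iff.mp hz
  have : Nonempty ι := ⟨i₀⟩
  have hwp : ∀ w : InfinitePlace L, 0 < ⨆ i, w (z i) := fun w =>
    lt_of_lt_of_le (InfinitePlace.pos_iff.mpr hi₀) (le_sup (avi w) z i₀)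
  have hvp : ∀ v : FinitePlace L, 0 < ⨆ i, v (z i) := fun v =>
    lt_of_lt_of_le (FinitePlace.pos_iff.mpr hi₀) (le_sup (avf v) z i₀)
  refine ⟨?_, ?_⟩
  · have h0 : (Function.support fun v : FinitePlace L => Real.log (⨆ i, v (z i))) ⊆
        ⋃ i : ι, {v : FinitePlace L | z i ≠ 0 ∧ v (z i) ≠ 1} := by
      intro v hv
      rw [Function.mem_support] at hv
      by_contra hcon
      apply hv
      simp only [Set.mem_iUnion, Set.mem_ofPred_eq, not_exists, not_and, not_not] at hcon
      have h1 : ⨆ i, v (z i) = 1 := by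
        apply le_antisymm
        · refine ciSup_le fun j => ?_
          by_cases hj : z j = 0
          · rw [hj, map_zero]
            exact zero_le_one
          · exact (hcon j hj).le
        · rw [← hcon i₀ hi₀]
          exact le_sup (avf v) z i₀
      rw [h1, Real.log_one]
    refine Set.Finite.subset (Set.finite_iUnion fun i => ?_) h0
    by_cases h : z i = 0
    · simp [h]
    · exact (FinitePlace.hasFiniteMulSupport h).subset fun v hv => hv.2
  · have h1 := NumberField.mulHeight_eq hz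
    have h2 : (0 : ℝ) < ∏ᶠ v : FinitePlace L, ⨆ i, v (z i) := finprod_pos' hvp
    rw [Height.logHeight_eq_log_mulHeight, h1,
      Real.log_mul (Finset.prod_ne_zero_iff.mpr fun w _ => pow_ne_zero _ (hwp w).ne') h2.ne',
      Real.log_prod (fun w _ => pow_ne_zero _ (hwp w).ne'), Real.log_finprod hvp]
    congr 1
    refine Finset.sum_congr rfl fun w _ => ?_
    rw [Real.log_pow]

end places

end

end Pool.Agent.D0H75.RD
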