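import Mathlib
import Pool.Agent.D0H75.RD.Loc

/-!
Comparison of heights with a constant which is linear in the height of the coefficients.
-/

set_option autoImplicit false
set_option linter.unusedSectionVars false

namespace Pool.Agent.D0H75.RD

open NumberField MvPolynomial Module
open Pool.Agent.W238.Leh

noncomputable section

variable {N : ℕ}

instance {e : ℕ} : Nonempty (Mn N e) :=
  ⟨mkMn (Finsupp.single 0 e) (by rw [Finsupp.degree_single])⟩

lemma cf_ne_zero {k : Type} [Field k] {d e : ℕ}
    {F : Fin (N + 1) → MvPolynomial (Fin (N + 1)) k} (hF : ∀ i, (F i).IsHomogeneous d)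
    (h : PM d e F) : cf d F ≠ 0 := by
  intro h0
  obtain ⟨τ, hτ⟩ := h
  apply hτ
  have h1 : ∀ i, F i = 0 := by
    intro i
    rw [sum_cf (hF i)]
    refine Finset.sum_eq_zero fun s _ => ?_
    have h2 : (F i).coeff s.1 = 0 := congrFun h0 (i, s)
    rw [h2, monomial_zero]
  have h2 : (TM d e F).submatrix id τ = 0 := by
    ext s t
    simp [TM, h1]
  rw [h2, Matrix.det_zero]

variable {K : Type} [Field K] [NumberField K] {d e : ℕ}
variable {F : Fin (N + 1) → MvPolynomial (Fin (N + 1)) K}

/-- the absolute height of the vector of all coefficients -/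
def hF0 (d : ℕ) (F : Fin (N + 1) → MvPolynomial (Fin (N + 1)) K) : ℝ :=
  Height.logHeight (cf d F) / finrank ℚ K

/-- the constant -/
def HH (N d e : ℕ) (h : ℝ) : ℝ :=
  Real.log (Fintype.card (Mn N d)) +
    Real.log (Fintype.card (Mn N e) * (Fintype.card (Mn N e)).factorial) +
      Fintype.card (Mn N e) * h

lemma hF0_nonneg : 0 ≤ hF0 d F := div_nonneg (Height.logHeight_nonneg _) (Nat.cast_nonneg _)

lemma logHeight_cf (L : Type) [Field L] [NumberField L] [Algebra K L] :
    Height.logHeight (fun p => algebraMap K L (cf d F p)) = finrank ℚ L * hF0 d F := by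
  rw [Helper259.HtExt.logHeight_ext, hF0]
  have h1 : ((finrank ℚ L : ℕ) : ℝ) = finrank ℚ K * finrank K L := by
    rw [← Nat.cast_mul, finrank_mul_finrank]
  have h2 : (0 : ℝ) < finrank ℚ K := finrank_pos'
  rw [h1]
  field_simp

theorem HB_of_PM (hF : ∀ i, (F i).IsHomogeneous d) (he : d ≤ e) (h : PM d e F) :
    HB F d (HH N d e (hF0 d F)) := by
  classical
  have hcf := cf_ne_zero hF h
  obtain ⟨τ, hτ⟩ := h
  set M := ((TM d e F).submatrix id τ).det with hM
  have hr1 : 1 ≤ Fintype.card (Mn N e) := Fintype.card_pos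
  have hμ1 : 1 ≤ Fintype.card (Mn N d) := Fintype.card_pos
  have hf1 : 1 ≤ (Fintype.card (Mn N e)).factorial := Nat.factorial_pos _
  have hH0 : 0 ≤ hF0 d F := hF0_nonneg
  have hr1' : (1 : ℝ) ≤ Fintype.card (Mn N e) := by exact_mod_cast hr1
  have hμ1' : (1 : ℝ) ≤ Fintype.card (Mn N d) := by exact_mod_cast hμ1
  have hf1' : (1 : ℝ) ≤ (Fintype.card (Mn N e)).factorial := by exact_mod_cast hf1
  have hlog1 : 0 ≤ Real.log (Fintype.card (Mn N d)) := Real.log_nonneg hμ1'
  have hlog2 : 0 ≤ Real.log (Fintype.card (Mn N e) * (Fintype.card (Mn N e)).factorial) :=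
    Real.log_nonneg (by nlinarith)
  have hrH : 0 ≤ (Fintype.card (Mn N e) : ℝ) * hF0 d F := by positivity
  -- the coefficients at the places
  have hcL : ∀ (L : Type) [Field L] [NumberField L] [Algebra K L],
      (fun p => algebraMap K L (cf d F p)) ≠ 0 := by
    intro L _ _ _ h0
    apply hcf
    funext p
    exact (algebraMap K L).injective ((congrFun h0 p).trans (map_zero _).symm)
  have hXi : ∀ (L : Type) [Field L] [NumberField L] [Algebra K L] (w : InfinitePlace L),
      0 < ⨆ p, w (algebraMap K L (cf d F p)) := by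
    intro L _ _ _ w
    obtain ⟨p, hp⟩ : ∃ p, algebraMap K L (cf d F p) ≠ 0 := Function.ne_iff.mp (hcL L)
    exact lt_of_lt_of_le (InfinitePlace.pos_iff.mpr hp)
      (le_sup (avi w) (fun p => algebraMap K L (cf d F p)) p)
  have hXf : ∀ (L : Type) [Field L] [NumberField L] [Algebra K L] (v : FinitePlace L),
      0 < ⨆ p, v (algebraMap K L (cf d F p)) := by
    intro L _ _ _ v
    obtain ⟨p, hp⟩ : ∃ p, algebraMap K L (cf d F p) ≠ 0 := Function.ne_iff.mp (hcL L)
    exact lt_of_lt_of_le (FinitePlace.pos_iff.mpr hp)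
      (le_sup (avf v) (fun p => algebraMap K L (cf d F p)) p)
  -- local lower bounds
  have hloi : ∀ (L : Type) [Field L] [NumberField L] [Algebra K L] (w : InfinitePlace L)
      (z : Fin (N + 1) → L), z ≠ 0 → w (algebraMap K L M) * nmi w z ^ d ≤
        (Fintype.card (Mn N e) : ℝ) * (Fintype.card (Mn N e)).factorial *
        ((⨆ p, w (algebraMap K L (cf d F p))) ^ (Fintype.card (Mn N e) - 1) *
          nmi w (act F z)) := by
    intro L _ _ _ w z hz
    obtain ⟨i₀, hi₀⟩ := exists_eq_ciSup_of_finite (f := fun i => w (z i))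
    exact (AV_inf w).lo hF (hXi L w).le (nmi_pos w hz) (nmi_nonneg w _)
      (le_sup (avi w) (fun p => algebraMap K L (cf d F p))) (le_nmi w z) hi₀
      (le_nmi w (act F z)) he τ
  have hlof : ∀ (L : Type) [Field L] [NumberField L] [Algebra K L] (v : FinitePlace L)
      (z : Fin (N + 1) → L), z ≠ 0 → v (algebraMap K L M) * nmf v z ^ d ≤
        ((⨆ p, v (algebraMap K L (cf d F p))) ^ (Fintype.card (Mn N e) - 1) *
          nmf v (act F z)) := by
    intro L _ _ _ v z hz
    obtain ⟨i₀, hi₀⟩ := exists_eq_ciSup_of_finite (f := fun i => v (z i))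
    have h1 := (AV_fin v).lo hF (hXf L v).le (nmf_pos v hz) (nmf_nonneg v _)
      (le_sup (avf v) (fun p => algebraMap K L (cf d F p))) (le_nmf v z) hi₀
      (le_nmf v (act F z)) he τ
    rw [one_mul, one_mul] at h1
    exact h1
  have hupi : ∀ (L : Type) [Field L] [NumberField L] [Algebra K L] (w : InfinitePlace L)
      (z : Fin (N + 1) → L), nmi w (act F z) ≤ (Fintype.card (Mn N d) : ℝ) *
        ((⨆ p, w (algebraMap K L (cf d F p))) * nmi w z ^ d) := by
    intro L _ _ _ w z
    exact nmi_le fun i => (AV_inf w).up hF (hXi L w).le (nmi_nonneg w z)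
      (le_sup (avi w) (fun p => algebraMap K L (cf d F p))) (le_nmi w z) i
  have hupf : ∀ (L : Type) [Field L] [NumberField L] [Algebra K L] (v : FinitePlace L)
      (z : Fin (N + 1) → L), nmf v (act F z) ≤
        ((⨆ p, v (algebraMap K L (cf d F p))) * nmf v z ^ d) := by
    intro L _ _ _ v z
    refine nmf_le fun i => ?_
    have h1 := (AV_fin v).up hF (hXf L v).le (nmf_nonneg v z)
      (le_sup (avf v) (fun p => algebraMap K L (cf d F p))) (le_nmf v z) i
    rw [one_mul] at h1
    exact h1
  have hML : ∀ (L : Type) [Field L] [NumberField L] [Algebra K L], algebraMap K L M ≠ 0 :=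
    fun L _ _ _ => (map_ne_zero _).mpr hτ
  have hne : ∀ (L : Type) [Field L] [NumberField L] [Algebra K L] (z : Fin (N + 1) → L),
      z ≠ 0 → act F z ≠ 0 := by
    intro L _ _ _ z hz h0
    obtain ⟨w⟩ : Nonempty (InfinitePlace L) := inferInstance
    have h1 := hloi L w z hz
    rw [h0] at h1
    have h2 : nmi w (0 : Fin (N + 1) → L) = 0 := by
      apply le_antisymm
      · exact nmi_le fun i => by simp
      · exact nmi_nonneg _ _
    rw [h2, mul_zero, mul_zero] at h1
    have h3 := nmi_pos w hz
    have h4 : 0 < w (algebraMap K L M) := InfinitePlace.pos_iff.mpr (hML L)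
    have h5 : 0 < w (algebraMap K L M) * nmi w z ^ d := by positivity
    linarith
  refine ⟨?_, fun L _ _ _ z hz => hne L z hz, ?_, ?_⟩
  · unfold HH
    linarith
  · intro L _ _ _ z hz
    have hz' := hne L z hz
    have h1 := (HasGS.height hz').le
      ((GSheight (hcL L)).add ((HasGS.height hz).const_mul d))
      (c := Real.log (Fintype.card (Mn N d))) ?_ ?_
    · rw [logHeight_cf] at h1
      refine h1.trans ?_
      have hn := finrank_pos' (L := L)
      unfold HH
      have h2 : hF0 d F ≤ Fintype.card (Mn N e) * hF0 d F := by nlinarith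
      have h3 := mul_le_mul_of_nonneg_left h2 hn.le
      have h4 : 0 ≤ (finrank ℚ L : ℝ) *
        Real.log (Fintype.card (Mn N e) * (Fintype.card (Mn N e)).factorial) := by positivity
      linarith
    · intro w
      have h3 := Real.log_le_log (nmi_pos w hz') (hupi L w z)
      have h4 := nmi_pos w hz
      have h5 := hXi L w
      rw [Real.log_mul (by linarith) (by positivity), Real.log_mul h5.ne' (by positivity),
        Real.log_pow] at h3
      linarith
    · intro v
      have h3 := Real.log_le_log (nmf_pos v hz') (hupf L v z)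
      have h4 := nmf_pos v hz
      have h5 := hXf L v
      rw [Real.log_mul h5.ne' (by positivity), Real.log_pow] at h3
      linarith
  · intro L _ _ _ z hz
    have hz' := hne L z hz
    have h1 := ((HasGS.height hz).const_mul d).le
      (((HasGS.prod (hML L)).const_mul (-1)).add
        (((GSheight (hcL L)).const_mul ((Fintype.card (Mn N e) - 1 : ℕ) : ℝ)).add
          (HasGS.height hz')))
      (c := Real.log (Fintype.card (Mn N e) * (Fintype.card (Mn N e)).factorial)) ?_ ?_
    · rw [logHeight_cf] at h1
      refine h1.trans ?_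
      have hn := finrank_pos' (L := L)
      unfold HH
      have h2 : (((Fintype.card (Mn N e) - 1 : ℕ) : ℝ)) ≤ Fintype.card (Mn N e) := by
        exact_mod_cast Nat.sub_le _ _
      have h3 : (((Fintype.card (Mn N e) - 1 : ℕ) : ℝ)) * (finrank ℚ L * hF0 d F) ≤
          Fintype.card (Mn N e) * (finrank ℚ L * hF0 d F) :=
        mul_le_mul_of_nonneg_right h2 (by positivity)
      have h4 : 0 ≤ (finrank ℚ L : ℝ) * Real.log (Fintype.card (Mn N d)) := by positivity
      linarith
    · intro w
      have h4 := nmi_pos w hz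
      have h5 := hXi L w
      have h6 := nmi_pos w hz'
      have h7 : 0 < w (algebraMap K L M) := InfinitePlace.pos_iff.mpr (hML L)
      have h3 := Real.log_le_log (by positivity) (hloi L w z hz)
      rw [Real.log_mul h7.ne' (by positivity), Real.log_pow,
        Real.log_mul (by positivity) (by positivity), Real.log_mul (by positivity) h6.ne',
        Real.log_pow] at h3
      linarith
    · intro v
      have h4 := nmf_pos v hz
      have h5 := hXf L v
      have h6 := nmf_pos v hz'
      have h7 : 0 < v (algebraMap K L M) := FinitePlace.pos_iff.mpr (hML L)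
      have h3 := Real.log_le_log (by positivity) (hlof L v z hz)
      rw [Real.log_mul h7.ne' (by positivity), Real.log_pow,
        Real.log_mul (by positivity) h6.ne', Real.log_pow] at h3
      linarith

end

end Pool.Agent.D0H75.RD
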