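import Mathlib
import Pool.Agent.D0H75.RD.Ana

/-!
The inequality between canonical heights and relative discriminants.
-/

set_option autoImplicit false
set_option linter.unusedSectionVars false

namespace Pool.Agent.D0H75.RD

open NumberField Module MvPolynomial
open Pool.Agent.W238.Leh

noncomputable section

variable {K : Type} [Field K] [NumberField K] {N : ℕ}
variable {E : Type} [Field E] [NumberField E] [Algebra K E]
variable {L : Type} [Field L] [NumberField L] [Algebra K L] [Algebra E L] [IsScalarTower K E L]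
variable {F : Fin (N + 1) → MvPolynomial (Fin (N + 1)) K} {d a c : ℕ} {A : ℝ}

/-- the values of the adapted forms span -/
lemma span_GG (hF : ∀ i, (F i).IsHomogeneous d)
    (hc : ∀ m, c + d ≤ m → ∀ p : MvPolynomial (Fin (N + 1)) K, p.IsHomogeneous m →
      p ∈ Ideal.span (Set.range F)) (l : List ℕ) (hl : LOK c l) (z : Fin (N + 1) → L)
    (hspan : ∀ y : L, ∃ p : MvPolynomial (Fin (N + 1)) E, p.IsHomogeneous (ldeg d l) ∧
      aeval z p = y) :
    Submodule.span E {x : L | ∃ φ ∈ GG F l, x = aeval z φ} = ⊤ := by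
  rw [eq_top_iff]
  rintro y -
  obtain ⟨p, hp, rfl⟩ := hspan y
  rw [p.as_sum, map_sum]
  refine Submodule.sum_mem _ fun s hs => ?_
  have h1 : s.degree = ldeg d l := by
    have := hp (mem_support_iff.mp hs)
    rw [← this, Finsupp.degree_eq_weight_one]
    rfl
  have h2 : aeval z (monomial s (coeff s p) : MvPolynomial (Fin (N + 1)) E) =
      coeff s p • aeval z (monomial s 1 : MvPolynomial (Fin (N + 1)) K) := by
    rw [aeval_monomial, aeval_monomial, map_one, one_mul, Algebra.smul_def]
  rw [h2]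
  refine Submodule.smul_mem _ _ ?_
  have h3 : (monomial s 1 : MvPolynomial (Fin (N + 1)) K).IsHomogeneous (ldeg d l) :=
    isHomogeneous_monomial _ h1
  have h4 := homSub_le_span hF hc l hl h3
  refine Submodule.span_induction (p := fun q _ => aeval z q ∈
    Submodule.span E {x : L | ∃ φ ∈ GG F l, x = aeval z φ}) ?_ ?_ ?_ ?_ h4
  · intro φ hφ
    exact Submodule.subset_span ⟨φ, hφ, rfl⟩
  · rw [map_zero]
    exact Submodule.zero_mem _
  · intro x y _ _ hx hy
    rw [map_add]
    exact Submodule.add_mem _ hx hy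
  · intro r x _ hx
    rw [map_smul, ← algebraMap_smul E r]
    exact Submodule.smul_mem _ _ hx

lemma log_factorial_le (D : ℕ) : Real.log (D.factorial : ℝ) ≤ D * Real.log D := by
  rcases Nat.eq_zero_or_pos D with rfl | hD
  · simp
  · rw [← Real.log_pow]
    refine Real.log_le_log (by exact_mod_cast Nat.factorial_pos D) ?_
    exact_mod_cast Nat.factorial_le_pow D

/-- the key inequality, for a vector with integral coordinates -/
lemma key_int (h : Bds F d A a) (hint : ∀ i s, IsIntegral ℤ ((F i).coeff s))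
    (l : List ℕ) (y : Fin (N + 1) → 𝓞 L) (hy : (fun i => (y i : L)) ≠ 0)
    (hspan : Submodule.span E {x : L | ∃ φ ∈ GG F l, x = aeval (fun i => (y i : L)) φ} = ⊤) :
    Real.log (Ideal.absNorm (differentIdeal (𝓞 E) (𝓞 L))) ≤
      2 * (finrank ℚ L * Real.log (finrank E L)) + 2 * HL F l (fun i => (y i : L)) := by
  classical
  set z : Fin (N + 1) → L := fun i => (y i : L) with hz
  obtain ⟨S, hS, hSspan, hSli⟩ := exists_linearIndependent E
    {x : L | ∃ φ ∈ GG F l, x = aeval z φ}
  rw [hspan] at hSspan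
  let u : Basis S E L := Basis.mk hSli (by rw [Subtype.range_coe, hSspan])
  let _ : Fintype S := FiniteDimensional.fintypeBasisIndex u
  have hι : Fintype.card S = finrank E L := (finrank_eq_card_basis u).symm
  have hu : ∀ j : S, u j = (j : L) := fun j => by
    rw [Basis.mk_apply]
  let ω := integralBasis E
  have hκ : Fintype.card (Free.ChooseBasisIndex ℤ (𝓞 E)) = finrank ℚ E := by
    rw [← finrank_eq_card_chooseBasisIndex, RingOfIntegers.rank]
  -- elements of the ideal
  have hex : ∀ j : S, ∃ t : 𝓞 L, t ∈ IL F l z ∧ (t : L) = (j : L) := by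
    intro j
    obtain ⟨φ, hφ, he⟩ := hS j.2
    obtain ⟨t, ht, hte⟩ := mem_IL (L := L) hint l hφ y
    exact ⟨t, ht, by rw [hte, he]⟩
  choose t ht hte using hex
  let bb : Basis (S × Free.ChooseBasisIndex ℤ (𝓞 E)) ℚ L :=
    (ω.smulTower u).reindex (Equiv.prodComm _ _)
  let U : S × Free.ChooseBasisIndex ℤ (𝓞 E) → 𝓞 L :=
    fun p => t p.1 * algebraMap (𝓞 E) (𝓞 L) (RingOfIntegers.basis E p.2)
  have hU : ∀ p, (U p : L) = u p.1 * algebraMap E L (ω p.2) := by
    intro p
    have h0 : (U p : L) = (t p.1 : L) *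
        ((algebraMap (𝓞 E) (𝓞 L) (RingOfIntegers.basis E p.2) : 𝓞 L) : L) := by
      simp only [U]
      push_cast
      rfl
    rw [h0, hte, hu]
    congr 1
    simp only [ω]
    rw [integralBasis_apply]
    rfl
  have hbb : (fun p => (U p : L)) = bb := by
    funext p
    rw [hU, Basis.reindex_apply, Equiv.prodComm_symm, Equiv.prodComm_apply,
      Basis.smulTower_apply, Algebra.smul_def, mul_comm]
    rfl
  have hne : Algebra.discr ℚ (fun p => (U p : L)) ≠ 0 := by
    rw [hbb]
    exact Algebra.discr_not_zero_of_basis ℚ bb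
  have hit : ∀ j, (act F)^[j] z ≠ 0 := h.iter_ne_zero hy
  obtain ⟨hI, hlog⟩ := log_IL hint l y hit
  have hcard : Fintype.card (S × Free.ChooseBasisIndex ℤ (𝓞 E)) = finrank ℚ L := by
    rw [Fintype.card_prod, hι, hκ, mul_comm, finrank_mul_finrank]
  have h1 := discr_ge hcard (IL F l z) hI U (fun p => Ideal.mul_mem_right _ _ (ht p.1)) hne
  -- the upper bound
  have hit' : ∀ (w : InfinitePlace L) (j : ℕ), 0 < nmi w ((act F)^[j] z) :=
    fun w j => nmi_pos w (hit j)
  have h2 := discr_le (E := E) (L := L) hι hκ (fun j => u j) ω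
    (fun σ => wt (nmi (InfinitePlace.mk σ.toRingHom)) (act F) l z) (by
      intro σ j
      obtain ⟨φ, hφ, he⟩ := hS j.2
      have h3 : ‖σ (u j)‖ = (InfinitePlace.mk σ.toRingHom) (aeval z φ) := by
        rw [hu, he, InfinitePlace.apply]
        rfl
      rw [h3]
      exact abs_le_wt ((InfinitePlace.mk σ.toRingHom).1.toMonoidWithZeroHom)
        (fun x => (InfinitePlace.mk σ.toRingHom).1.nonneg x)
        (fun x i => le_nmi (InfinitePlace.mk σ.toRingHom) x i)
        (fun x => nmi_nonneg (InfinitePlace.mk σ.toRingHom) x) l hφ z)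
  rw [prod_emb fun w => wt (nmi w) (act F) l z] at h2
  have h3 : (fun p : S × Free.ChooseBasisIndex ℤ (𝓞 E) => u p.1 * algebraMap E L (ω p.2)) =
      fun p => (U p : L) := funext fun p => (hU p).symm
  rw [h3] at h2
  have h4 : (Ideal.absNorm (IL F l z) : ℝ) ^ 2 * |(discr L : ℝ)| ≤
      |((Algebra.discr ℚ (fun p => (U p : L)) : ℚ) : ℝ)| := by
    exact_mod_cast h1
  have h5 : ((Algebra.discr ℚ ω : ℚ) : ℝ) = (discr E : ℝ) := by
    simp only [ω]
    rw [← coe_discr]
    simp
  rw [h5] at h2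
  have h6 := natAbs_discr_eq_absNorm_differentIdeal_mul_natAbs_discr_pow E (𝓞 E) L (𝓞 L)
  have h7 : |(discr L : ℝ)| = (Ideal.absNorm (differentIdeal (𝓞 E) (𝓞 L)) : ℝ) *
      |(discr E : ℝ)| ^ finrank E L := by
    have h8 := congrArg (fun q : ℕ => (q : ℝ)) h6
    simp only [Nat.cast_mul, Nat.cast_pow, Nat.cast_natAbs, Int.cast_abs] at h8
    exact h8
  have hE : 0 < |(discr E : ℝ)| ^ finrank E L := by
    have : (discr E : ℝ) ≠ 0 := by exact_mod_cast discr_ne_zero E
    positivity
  have hL : (discr L : ℝ) ≠ 0 := by exact_mod_cast discr_ne_zero L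
  have hD : (Ideal.absNorm (differentIdeal (𝓞 E) (𝓞 L)) : ℝ) ≠ 0 := by
    intro h0
    rw [h0, zero_mul, abs_eq_zero] at h7
    exact hL h7
  have hwt : ∀ w : InfinitePlace L, 0 < wt (nmi w) (act F) l z :=
    fun w => wt_pos l (hit' w)
  have hI' : (Ideal.absNorm (IL F l z) : ℝ) ≠ 0 := by
    rw [Nat.cast_ne_zero, Ne, Ideal.absNorm_eq_zero_iff]
    exact hI
  have h8 : (Ideal.absNorm (IL F l z) : ℝ) ^ 2 *
      (Ideal.absNorm (differentIdeal (𝓞 E) (𝓞 L)) : ℝ) ≤
      (((finrank E L).factorial : ℝ) ^ finrank ℚ E *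
        ∏ w : InfinitePlace L, wt (nmi w) (act F) l z ^ w.mult) ^ 2 := by
    refine le_of_mul_le_mul_right ?_ hE
    rw [mul_assoc, ← h7]
    exact h4.trans h2
  have hfac : (0 : ℝ) < ((finrank E L).factorial : ℝ) := by
    exact_mod_cast Nat.factorial_pos _
  have hprod : 0 < ∏ w : InfinitePlace L, wt (nmi w) (act F) l z ^ w.mult :=
    Finset.prod_pos fun w _ => pow_pos (hwt w) _
  have h9 := Real.log_le_log (by positivity) h8
  rw [Real.log_mul (by positivity) hD, Real.log_pow, Real.log_pow,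
    Real.log_mul (by positivity) hprod.ne', Real.log_pow,
    Real.log_prod (fun w _ => (pow_pos (hwt w) _).ne'), hlog] at h9
  have h10 := (HasGS.wt (F := F) l hit).2
  have h11 : ∑ w : InfinitePlace L, Real.log (wt (nmi w) (act F) l z ^ w.mult) =
      ∑ w : InfinitePlace L, (w.mult : ℝ) * Real.log (wt (nmi w) (act F) l z) :=
    Finset.sum_congr rfl fun w _ => by rw [Real.log_pow]
  rw [h11] at h9
  have h12 : (finrank ℚ E : ℝ) * Real.log ((finrank E L).factorial : ℝ) ≤
      finrank ℚ L * Real.log (finrank E L) := by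
    have h13 := mul_le_mul_of_nonneg_left (log_factorial_le (finrank E L))
      (Nat.cast_nonneg (α := ℝ) (finrank ℚ E))
    refine h13.trans (le_of_eq ?_)
    rw [← mul_assoc, ← Nat.cast_mul, finrank_mul_finrank]
  push_cast at h9
  linarith

lemma sum_list_le {l : List ℕ} {b k : ℕ} (h : ∀ r ∈ l, r ≤ b) (hk : l.length ≤ k) :
    l.sum ≤ b * k := by
  have h1 : l.sum ≤ l.length • b := List.sum_le_card_nsmul l b h
  rw [smul_eq_mul, mul_comm] at h1
  exact h1.trans (Nat.mul_le_mul_left _ hk)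

/-- the key inequality -/
theorem key (h : Bds F d A a) (hd : 2 ≤ d) (hF : ∀ i, (F i).IsHomogeneous d)
    (hint : ∀ i s, IsIntegral ℤ ((F i).coeff s))
    (hc : ∀ m, c + d ≤ m → ∀ p : MvPolynomial (Fin (N + 1)) K, p.IsHomogeneous m →
      p ∈ Ideal.span (Set.range F)) (m : ℕ) (z : Fin (N + 1) → L) (hz : z ≠ 0)
    (hspan : ∀ y : L, ∃ p : MvPolynomial (Fin (N + 1)) E, p.IsHomogeneous m ∧ aeval z p = y) :
    Real.log (Ideal.absNorm (differentIdeal (𝓞 E) (𝓞 L))) ≤
      2 * finrank ℚ L * (Real.log (finrank E L) + (m * canH F d z +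
        hC A a * ((c + d : ℕ) * (1 + Nat.log 2 m : ℕ)))) := by
  classical
  obtain ⟨l, hl1, hl2, hl3, hl4⟩ := exists_list (c := c) hd m
  obtain ⟨b, hb, hbz⟩ := exists_denom (K := L) (Finset.univ.image z)
  have hbL : (b : L) ≠ 0 := by
    have : b ≠ 0 := by omega
    exact_mod_cast this
  have hy : ∀ i, IsIntegral ℤ ((b : L) * z i) := fun i =>
    hbz _ (Finset.mem_image_of_mem _ (Finset.mem_univ i))
  let y : Fin (N + 1) → 𝓞 L := fun i => ⟨(b : L) * z i, hy i⟩
  have hyz : (fun i => (y i : L)) = (b : L) • z := rfl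
  have hbz0 : (b : L) • z ≠ 0 := smul_ne_zero hbL hz
  have hsp := span_GG (E := E) hF hc l hl2 ((b : L) • z) (by
    intro x
    rw [hl1]
    obtain ⟨p, hp, hpx⟩ := hspan (((b : L) ^ m)⁻¹ * x)
    refine ⟨p, hp, ?_⟩
    rw [aeval_smul_hom hp, hpx, mul_inv_cancel_left₀ (pow_ne_zero _ hbL)])
  have h1 := key_int (E := E) h hint l y (by rw [hyz]; exact hbz0) (by rw [hyz]; exact hsp)
  rw [hyz] at h1
  have h2 := h.HL_le hd l hbz0
  rw [canH_smul hF hbL, hl1] at h2
  have h3 : (l.sum : ℝ) ≤ ((c + d : ℕ) : ℝ) * ((1 + Nat.log 2 m : ℕ) : ℝ) := by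
    exact_mod_cast sum_list_le hl3 hl4
  have h4 := mul_le_mul_of_nonneg_left h3 h.hC_nonneg
  have h5 := mul_le_mul_of_nonneg_left h4 (Nat.cast_nonneg (α := ℝ) (finrank ℚ L))
  nlinarith

/-- every element of the field generated by a point is a value of a form of small degree -/
theorem exists_form (z : Fin (N + 1) → L)
    (hgen : IntermediateField.adjoin E {x : L | ∃ i j, x = z i / z j} = ⊤) (hz : z ≠ 0)
    (m : ℕ) (hm : finrank E L ≤ m + 1) (y : L) :
    ∃ p : MvPolynomial (Fin (N + 1)) E, p.IsHomogeneous m ∧ aeval z p = y := by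
  classical
  obtain ⟨i₀, hi₀⟩ : ∃ i, z i ≠ 0 := Function.ne_iff.mp hz
  -- values of forms of degree `k`, normalised
  set z' : Fin (N + 1) → L := (z i₀)⁻¹ • z with hz'
  let T : ℕ → Submodule E L := fun k =>
    ((homogeneousSubmodule (Fin (N + 1)) E k).map
      ((aeval z' : MvPolynomial (Fin (N + 1)) E →ₐ[E] L).toLinearMap))
  have hz1 : z' i₀ = 1 := by
    simp only [hz', Pi.smul_apply, smul_eq_mul]
    exact inv_mul_cancel₀ hi₀
  have hmemT : ∀ k x, x ∈ T k ↔ ∃ p : MvPolynomial (Fin (N + 1)) E, p.IsHomogeneous k ∧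
      aeval z' p = x := by
    intro k x
    simp only [T, Submodule.mem_map, mem_homogeneousSubmodule, AlgHom.toLinearMap_apply]
  have hmul : ∀ k i x, x ∈ T k → z' i * x ∈ T (k + 1) := by
    intro k i x hx
    rw [hmemT] at hx ⊢
    obtain ⟨p, hp, rfl⟩ := hx
    refine ⟨p * X i, hp.mul (isHomogeneous_X _ i), by rw [map_mul, aeval_X, mul_comm]⟩
  have hmono : ∀ k, T k ≤ T (k + 1) := by
    intro k x hx
    have := hmul k i₀ x hx
    rwa [hz1, one_mul] at this
  have hone : ∀ k, (1 : L) ∈ T k := by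
    intro k
    rw [hmemT]
    exact ⟨X i₀ ^ k, by simpa using (isHomogeneous_X_pow (R := E) i₀ k), by
      rw [map_pow, aeval_X, hz1, one_pow]⟩
  -- the filtration is stationary only at the top
  have hstat : ∀ k, T k = T (k + 1) → T k = ⊤ := by
    intro k hk
    have h1 : ∀ i x, x ∈ T k → z' i * x ∈ T k := fun i x hx => by
      rw [hk]; exact hmul k i x hx
    have h2 : ∀ w ∈ Algebra.adjoin E (Set.range z'), ∀ x ∈ T k, w * x ∈ T k := by
      intro w hw
      refine Algebra.adjoin_induction (p := fun w _ => ∀ x ∈ T k, w * x ∈ T k) ?_ ?_ ?_ ?_ hw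
      · rintro _ ⟨i, rfl⟩ x hx
        exact h1 i x hx
      · intro r x hx
        rw [← Algebra.smul_def]
        exact Submodule.smul_mem _ _ hx
      · intro w₁ w₂ _ _ ih₁ ih₂ x hx
        rw [add_mul]
        exact Submodule.add_mem _ (ih₁ x hx) (ih₂ x hx)
      · intro w₁ w₂ _ _ ih₁ ih₂ x hx
        rw [mul_assoc]
        exact ih₁ _ (ih₂ x hx)
    have h3 : Algebra.adjoin E (Set.range z') = ⊤ := by
      have h4 : IntermediateField.adjoin E (Set.range z') = ⊤ := by
        rw [eq_top_iff, ← hgen]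
        refine IntermediateField.adjoin_le_iff.mpr ?_
        rintro x ⟨i, j, rfl⟩
        have h5 : z i / z j = z' i / z' j := by
          simp only [hz', Pi.smul_apply, smul_eq_mul]
          rw [mul_div_mul_left _ _ (inv_ne_zero hi₀)]
        rw [h5]
        exact div_mem (IntermediateField.subset_adjoin E _ (Set.mem_range_self i))
          (IntermediateField.subset_adjoin E _ (Set.mem_range_self j))
      have h5 := IntermediateField.adjoin_toSubalgebra_of_isAlgebraic (F := E)
        (S := Set.range z') (fun x _ => Algebra.IsAlgebraic.isAlgebraic x)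
      rw [h4] at h5
      rw [← h5]
      rfl
    rw [eq_top_iff]
    rintro w -
    have h4 := h2 w (by rw [h3]; trivial) 1 (hone k)
    rwa [mul_one] at h4
  have hdim : ∀ k, T k = ⊤ ∨ k + 1 ≤ finrank E (T k) := by
    intro k
    induction k with
    | zero =>
      right
      have h1 : T 0 ≠ ⊥ := by
        intro h0
        have := hone 0
        rw [h0, Submodule.mem_bot] at this
        exact one_ne_zero this
      rw [zero_add]
      exact Nat.one_le_iff_ne_zero.mpr fun h2 => h1 (Submodule.finrank_eq_zero.mp h2)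
    | succ k ih =>
      rcases ih with h1 | h1
      · left
        rw [eq_top_iff, ← h1]
        exact hmono k
      · by_cases h2 : T k = T (k + 1)
        · left
          rw [← h2]
          exact hstat k h2
        · right
          have h3 : T k < T (k + 1) := lt_of_le_of_ne (hmono k) h2
          have h4 := Submodule.finrank_lt_finrank_of_lt h3
          omega
  have htop : T m = ⊤ := by
    rcases hdim m with h1 | h1
    · exact h1
    · refine Submodule.eq_top_of_finrank_eq (le_antisymm (Submodule.finrank_le _) ?_)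
      omega
  have h1 : (z i₀)⁻¹ ^ m * y ∈ T m := by rw [htop]; trivial
  rw [hmemT] at h1
  obtain ⟨p, hp, hpy⟩ := h1
  refine ⟨p, hp, ?_⟩
  rw [hz', aeval_smul_hom hp] at hpy
  exact mul_left_cancel₀ (pow_ne_zero _ (inv_ne_zero hi₀)) hpy

/-- preperiodic points have canonical height zero -/
theorem canH_preper (h : Bds F d A a) (hd : 2 ≤ d) (hF : ∀ i, (F i).IsHomogeneous d)
    (z : Fin (N + 1) → L) (hz : z ≠ 0) (hpre : ∃ m n : ℕ, m ≠ n ∧ ∃ c : L, c ≠ 0 ∧
      (act F)^[n] z = c • (act F)^[m] z) : canH F d z = 0 := by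
  obtain ⟨m, n, hmn, c, hc, he⟩ := hpre
  have h1 := h.canH_iter hd hz n
  rw [he, canH_smul hF hc, h.canH_iter hd hz m] at h1
  by_contra h0
  have h2 := mul_right_cancel₀ h0 h1
  have h3 : (d ^ m : ℕ) = d ^ n := by exact_mod_cast h2
  exact hmn (Nat.pow_right_injective hd h3)

end

end Pool.Agent.D0H75.RD
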