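import Mathlib
import Pool.Agent.D0H75.RD.Main
import Pool.Agent.D0H82.DL.Fld

/-!
Fields generated by several points.
-/

set_option autoImplicit false
set_option linter.unusedSectionVars false

namespace Pool.Agent.D0H75.RD

open NumberField Module MvPolynomial
open Pool.Agent.W238.Leh

noncomputable section

variable {K : Type} [Field K] [NumberField K] {N : ℕ}
variable {E : Type} [Field E] [NumberField E] [Algebra K E]
variable {L : Type} [Field L] [NumberField L] [Algebra K L] [Algebra E L] [IsScalarTower K E L]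
variable {F : Fin (N + 1) → MvPolynomial (Fin (N + 1)) K} {d a c : ℕ} {A : ℝ}

/-- logarithm of the root discriminant -/
def rd (X : Type) [Field X] [NumberField X] : ℝ := Real.log |(discr X : ℝ)| / finrank ℚ X

lemma rd_congr {X Y : Type} [Field X] [NumberField X] [Field Y] [NumberField Y] (e : X ≃+* Y) :
    rd X = rd Y := by
  unfold rd
  rw [discr_eq_discr_of_ringEquiv X e]
  congr 2
  exact (AlgEquiv.ofRingEquiv (f := e) (fun r => by simp) : X ≃ₐ[ℚ] Y).toLinearEquiv.finrank_eq

lemma rd_tower (E L : Type) [Field E] [NumberField E] [Field L] [NumberField L] [Algebra E L] :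
    Real.log (Ideal.absNorm (differentIdeal (𝓞 E) (𝓞 L))) = finrank ℚ L * (rd L - rd E) := by
  have h6 := natAbs_discr_eq_absNorm_differentIdeal_mul_natAbs_discr_pow E (𝓞 E) L (𝓞 L)
  have h7 : |(discr L : ℝ)| = (Ideal.absNorm (differentIdeal (𝓞 E) (𝓞 L)) : ℝ) *
      |(discr E : ℝ)| ^ finrank E L := by
    have h8 := congrArg (fun q : ℕ => (q : ℝ)) h6
    simp only [Nat.cast_mul, Nat.cast_pow, Nat.cast_natAbs, Int.cast_abs] at h8
    exact h8
  have hE : (|(discr E : ℝ)| : ℝ) ≠ 0 := by
    have : (discr E : ℝ) ≠ 0 := by exact_mod_cast discr_ne_zero E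
    positivity
  have hL : (discr L : ℝ) ≠ 0 := by exact_mod_cast discr_ne_zero L
  have hD : (Ideal.absNorm (differentIdeal (𝓞 E) (𝓞 L)) : ℝ) ≠ 0 := by
    intro h0
    rw [h0, zero_mul, abs_eq_zero] at h7
    exact hL h7
  have h8 := congrArg Real.log h7
  rw [Real.log_mul hD (pow_ne_zero _ hE), Real.log_pow] at h8
  have h9 : (finrank ℚ L : ℝ) = finrank ℚ E * finrank E L := by
    exact_mod_cast (finrank_mul_finrank ℚ E L).symm
  have h10 : (0 : ℝ) < finrank ℚ E := by exact_mod_cast (finrank_pos : 0 < finrank ℚ E)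
  have h11 : (0 : ℝ) < finrank E L := by exact_mod_cast (finrank_pos : 0 < finrank E L)
  unfold rd
  rw [mul_sub, mul_div_cancel₀ _ (by rw [h9]; positivity), h9]
  have h12 : (finrank ℚ E : ℝ) * finrank E L * (Real.log |(discr E : ℝ)| / finrank ℚ E) =
      finrank E L * Real.log |(discr E : ℝ)| := by
    field_simp
  rw [h12]
  linarith

/-- the constant -/
def cst (A : ℝ) (a c d : ℕ) : ℝ := 1 + 3 * (hC A a * (c + d : ℕ))

lemma one_add_log_le {D : ℕ} (hD : 2 ≤ D) :
    ((1 + Nat.log 2 (D - 1) : ℕ) : ℝ) ≤ 3 * Real.log D := by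
  have h1 : ((Nat.log 2 (D - 1) : ℕ) : ℝ) ≤ Real.log D / Real.log 2 := by
    have h2 : ((Nat.log 2 (D - 1) : ℕ) : ℝ) ≤ Real.logb 2 (D - 1 : ℕ) := Real.natLog_le_logb _ _
    refine h2.trans ?_
    rw [Real.logb]
    refine div_le_div_of_nonneg_right ?_ (Real.log_pos (by norm_num)).le
    refine Real.log_le_log ?_ ?_
    · have : 0 < D - 1 := by omega
      exact_mod_cast this
    · exact_mod_cast Nat.sub_le D 1
  have h3 := Real.log_two_gt_d9
  have h4 : Real.log 2 ≤ Real.log D := Real.log_le_log (by norm_num) (by exact_mod_cast hD)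
  have h5 : Real.log D / Real.log 2 * Real.log 2 = Real.log D :=
    div_mul_cancel₀ _ (by positivity)
  have h6 : 1 ≤ Real.log D / Real.log 2 := by
    rw [le_div_iff₀ (by positivity)]
    linarith
  push_cast
  nlinarith

/-- the inequality for one point, over a smaller field -/
lemma key_gen (h : Bds F d A a) (hd : 2 ≤ d) (hF : ∀ i, (F i).IsHomogeneous d)
    (hint : ∀ i s, IsIntegral ℤ ((F i).coeff s))
    (hc : ∀ m, c + d ≤ m → ∀ p : MvPolynomial (Fin (N + 1)) K, p.IsHomogeneous m →
      p ∈ Ideal.span (Set.range F)) (z : Fin (N + 1) → L) (hz : z ≠ 0)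
    (hgen : IntermediateField.adjoin E {x : L | ∃ i j, x = z i / z j} = ⊤)
    (hD : 2 ≤ finrank E L) :
    rd L ≤ rd E + 2 * (finrank E L * canH F d z + cst A a c d * Real.log (finrank E L)) := by
  set D := finrank E L with hDd
  have h1 := key (E := E) h hd hF hint hc (D - 1) z hz
    (fun y => exists_form z hgen hz (D - 1) (by omega) y)
  rw [rd_tower] at h1
  have hn := finrank_pos' (L := L)
  have h2 : rd L - rd E ≤ 2 * (Real.log D + ((D - 1 : ℕ) * canH F d z +
      hC A a * ((c + d : ℕ) * (1 + Nat.log 2 (D - 1) : ℕ)))) := by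
    refine le_of_mul_le_mul_left (h1.trans (le_of_eq ?_)) hn
    ring
  have h3 := h.canH_nonneg hd hz
  have h4 : ((D - 1 : ℕ) : ℝ) * canH F d z ≤ D * canH F d z :=
    mul_le_mul_of_nonneg_right (by exact_mod_cast Nat.sub_le D 1) h3
  have h5 := mul_le_mul_of_nonneg_left (one_add_log_le hD)
    (mul_nonneg h.hC_nonneg (Nat.cast_nonneg (α := ℝ) (c + d)))
  unfold cst
  nlinarith

/-- the field generated by the coordinates of a point -/
def ptf (E : Type) [Field E] {L : Type} [Field L] [Algebra E L] {n : ℕ} (z : Fin n → L) :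
    IntermediateField E L := IntermediateField.adjoin E {x : L | ∃ i j, x = z i / z j}

/-- adjoining one point -/
lemma step (h : Bds F d A a) (hd : 2 ≤ d) (hF : ∀ i, (F i).IsHomogeneous d)
    (hint : ∀ i s, IsIntegral ℤ ((F i).coeff s))
    (hc : ∀ m, c + d ≤ m → ∀ p : MvPolynomial (Fin (N + 1)) K, p.IsHomogeneous m →
      p ∈ Ideal.span (Set.range F)) (M : IntermediateField E L) (z : Fin (N + 1) → L) (hz : z ≠ 0)
    (hM : M ⊔ ptf E z ≠ M) :
    2 ≤ (finrank E (M ⊔ ptf E z : IntermediateField E L) : ℝ) / finrank E M ∧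
    rd (M ⊔ ptf E z : IntermediateField E L) ≤ rd M +
      2 * ((finrank E (M ⊔ ptf E z : IntermediateField E L) : ℝ) / finrank E M * canH F d z +
        cst A a c d * Real.log
          ((finrank E (M ⊔ ptf E z : IntermediateField E L) : ℝ) / finrank E M)) := by
  set S : Set L := {x : L | ∃ i j, x = z i / z j} with hS
  let M' : IntermediateField M L := IntermediateField.adjoin M S
  have hres : M'.restrictScalars E = M ⊔ ptf E z :=
    IntermediateField.restrictScalars_adjoin_eq_sup E M S
  have : IsScalarTower K M L := IsScalarTower.of_algebraMap_eq fun x => rfl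
  have : IsScalarTower K M M' := IsScalarTower.of_algebraMap_eq fun x => rfl
  have hfin : (finrank E (M ⊔ ptf E z : IntermediateField E L) : ℝ) =
      finrank E M * finrank M M' := by
    rw [← hres]
    exact_mod_cast (finrank_mul_finrank E M M').symm
  have hrd : rd (M ⊔ ptf E z : IntermediateField E L) = rd M' := by
    rw [← hres]
    exact rd_congr (RingEquiv.refl M')
  have hpos : (0 : ℝ) < finrank E M := by exact_mod_cast (finrank_pos : 0 < finrank E M)
  have hquo : (finrank E (M ⊔ ptf E z : IntermediateField E L) : ℝ) / finrank E M =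
      finrank M M' := by
    rw [hfin, mul_div_cancel_left₀ _ hpos.ne']
  have hD : 2 ≤ finrank M M' := by
    by_contra hcon
    have h1 : 0 < finrank M M' := finrank_pos
    have h2 : finrank M M' = 1 := by omega
    rw [IntermediateField.finrank_eq_one_iff] at h2
    apply hM
    rw [← hres, h2]
    ext x
    simp
  obtain ⟨i₀, hi₀⟩ : ∃ i, z i ≠ 0 := Function.ne_iff.mp hz
  let z' : Fin (N + 1) → M' := fun i =>
    ⟨z i / z i₀, IntermediateField.subset_adjoin M S ⟨i, i₀, rfl⟩⟩
  have hz' : z' ≠ 0 := by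
    intro h0
    have h1 := congrArg (fun t : M' => (t : L)) (congrFun h0 i₀)
    simp only [z', div_self hi₀, Pi.zero_apply, ZeroMemClass.coe_zero] at h1
    exact one_ne_zero h1
  have hcoe : ∀ i j, ((z' i / z' j : M') : L) = z i / z j := by
    intro i j
    change (z i / z i₀) / (z j / z i₀) = z i / z j
    rw [div_div_div_cancel_right₀ hi₀]
  have hgen : IntermediateField.adjoin M {x : M' | ∃ i j, x = z' i / z' j} = ⊤ := by
    apply IntermediateField.lift_injective M'
    rw [IntermediateField.lift_adjoin, IntermediateField.lift_top]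
    change IntermediateField.adjoin M _ = IntermediateField.adjoin M S
    congr 1
    ext x
    constructor
    · rintro ⟨_, ⟨i, j, rfl⟩, rfl⟩
      exact ⟨i, j, hcoe i j⟩
    · rintro ⟨i, j, rfl⟩
      exact ⟨z' i / z' j, ⟨i, j, rfl⟩, hcoe i j⟩
  have hcan : canH F d z' = canH F d z := by
    have h1 := D0H82.DL.canH_map (F := F) (d := d)
      ((M'.val).restrictScalars K : M' →ₐ[K] L) z'
    rw [← h1, ← canH_smul hF (inv_ne_zero hi₀) z]
    congr 1
    funext i
    change z i / z i₀ = (z i₀)⁻¹ * z i
    rw [div_eq_mul_inv, mul_comm]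
  have h1 := key_gen (E := M) h hd hF hint hc z' hz' hgen hD
  rw [hquo, hrd, ← hcan]
  exact ⟨by exact_mod_cast hD, h1⟩

/-- fields generated by the points of a sequence -/
def gen (E : Type) [Field E] {L : Type} [Field L] [Algebra E L] {n : ℕ} (z : ℕ → Fin n → L)
    (t : ℕ) : IntermediateField E L :=
  IntermediateField.adjoin E {x : L | ∃ s < t, ∃ i j, x = z s i / z s j}

lemma gen_succ (z : ℕ → Fin (N + 1) → L) (t : ℕ) : gen E z (t + 1) = gen E z t ⊔ ptf E (z t) := by
  unfold gen ptf
  rw [← IntermediateField.adjoin_union]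
  congr 1
  ext x
  constructor
  · rintro ⟨s, hs, i, j, rfl⟩
    rcases Nat.lt_succ_iff_lt_or_eq.mp hs with h1 | rfl
    · exact Or.inl ⟨s, h1, i, j, rfl⟩
    · exact Or.inr ⟨i, j, rfl⟩
  · rintro (⟨s, hs, i, j, rfl⟩ | ⟨i, j, rfl⟩)
    · exact ⟨s, by omega, i, j, rfl⟩
    · exact ⟨t, by omega, i, j, rfl⟩

lemma gen_zero (z : ℕ → Fin (N + 1) → L) : gen E z 0 = ⊥ := by
  unfold gen
  rw [eq_bot_iff, IntermediateField.adjoin_le_iff]
  rintro x ⟨s, hs, _⟩
  omega

open Classical in
/-- the cost of a step -/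
def cost (F : Fin (N + 1) → MvPolynomial (Fin (N + 1)) K) (d : ℕ) (E : Type) [Field E]
    [Algebra E L] (z : ℕ → Fin (N + 1) → L) (t : ℕ) : ℝ :=
  if gen E z (t + 1) = gen E z t then 0
  else (finrank E (gen E z (t + 1)) : ℝ) / finrank E (gen E z t) * canH F d (z t)

lemma tower (h : Bds F d A a) (hd : 2 ≤ d) (hF : ∀ i, (F i).IsHomogeneous d)
    (hint : ∀ i s, IsIntegral ℤ ((F i).coeff s))
    (hc : ∀ m, c + d ≤ m → ∀ p : MvPolynomial (Fin (N + 1)) K, p.IsHomogeneous m →
      p ∈ Ideal.span (Set.range F)) (z : ℕ → Fin (N + 1) → L) (k : ℕ)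
    (hz : ∀ s < k, z s ≠ 0) :
    rd (gen E z k) ≤ rd E + 2 * (∑ s ∈ Finset.range k, cost F d E z s +
      cst A a c d * Real.log (finrank E (gen E z k))) := by
  induction k with
  | zero =>
    have h1 : rd (gen E z 0) = rd E := by
      rw [gen_zero]
      exact rd_congr (IntermediateField.botEquiv E L).toRingEquiv
    rw [h1, gen_zero]
    simp
  | succ k ih =>
    have ih' := ih fun s hs => hz s (by omega)
    rw [Finset.sum_range_succ]
    by_cases hk : gen E z (k + 1) = gen E z k
    · have h2 : cost F d E z k = 0 := by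
        unfold cost
        rw [if_pos hk]
      rw [h2, hk, add_zero]
      exact ih'
    · have h2 : cost F d E z k = (finrank E (gen E z (k + 1)) : ℝ) / finrank E (gen E z k) *
          canH F d (z k) := by
        unfold cost
        rw [if_neg hk]
      have h3 := step (E := E) h hd hF hint hc (gen E z k) (z k) (hz k (by omega))
        (by rw [← gen_succ]; exact hk)
      rw [← gen_succ] at h3
      rw [h2]
      have h4 : (0 : ℝ) < finrank E (gen E z (k + 1)) := by
        exact_mod_cast (finrank_pos : 0 < finrank E (gen E z (k + 1)))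
      have h5 : (0 : ℝ) < finrank E (gen E z k) := by
        exact_mod_cast (finrank_pos : 0 < finrank E (gen E z k))
      have h6 := h3.2
      rw [Real.log_div h4.ne' h5.ne'] at h6
      linarith

/-- the cost of a step with a point of small height -/
lemma cost_le (h : Bds F d A a) (hd : 2 ≤ d) (z : ℕ → Fin (N + 1) → L) (t : ℕ) (hz : z t ≠ 0)
    {B : ℝ} (hB : 0 ≤ B) (hzB : (finrank E (ptf E (z t)) : ℝ) * canH F d (z t) ≤ B) :
    cost F d E z t ≤ 2 * B * (Real.log (finrank E (gen E z (t + 1))) -
      Real.log (finrank E (gen E z t))) := by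
  unfold cost
  split_ifs with ht
  · rw [ht]
    simp
  · have h4 : (0 : ℝ) < finrank E (gen E z (t + 1)) := by
      exact_mod_cast (finrank_pos : 0 < finrank E (gen E z (t + 1)))
    have h5 : (0 : ℝ) < finrank E (gen E z t) := by
      exact_mod_cast (finrank_pos : 0 < finrank E (gen E z t))
    have h6 : finrank E (gen E z (t + 1)) ≤ finrank E (gen E z t) * finrank E (ptf E (z t)) := by
      rw [gen_succ]
      exact IntermediateField.finrank_sup_le _ _
    have h7 : (finrank E (gen E z (t + 1)) : ℝ) / finrank E (gen E z t) ≤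
        finrank E (ptf E (z t)) := by
      rw [div_le_iff₀' h5]
      exact_mod_cast h6
    have h8 : 2 ≤ (finrank E (gen E z (t + 1)) : ℝ) / finrank E (gen E z t) := by
      have h9 : gen E z t ≤ gen E z (t + 1) := by
        rw [gen_succ]
        exact le_sup_left
      have h10 := IntermediateField.finrank_dvd_of_le_right h9
      obtain ⟨q, hq⟩ := h10
      have hq2 : 2 ≤ q := by
        by_contra hcon
        have h11 : 0 < finrank E (gen E z (t + 1)) := finrank_pos
        have h12 : q = 1 := by
          rcases Nat.eq_zero_or_pos q with h0 | h0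
          · rw [h0, mul_zero] at hq
            omega
          · omega
        rw [h12, mul_one] at hq
        exact ht (IntermediateField.eq_of_le_of_finrank_eq h9 hq.symm).symm
      rw [hq]
      push_cast
      rw [mul_div_cancel_left₀ _ h5.ne']
      exact_mod_cast hq2
    have h9 := h.canH_nonneg hd hz
    have h10 : (finrank E (gen E z (t + 1)) : ℝ) / finrank E (gen E z t) * canH F d (z t) ≤ B :=
      (mul_le_mul_of_nonneg_right h7 h9).trans hzB
    refine h10.trans ?_
    rw [← Real.log_div h4.ne' h5.ne']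
    have h11 : Real.log 2 ≤ Real.log ((finrank E (gen E z (t + 1)) : ℝ) / finrank E (gen E z t)) :=
      Real.log_le_log (by norm_num) h8
    have h12 := Real.log_two_gt_d9
    nlinarith

lemma sum_cost_le (h : Bds F d A a) (hd : 2 ≤ d) (z : ℕ → Fin (N + 1) → L) (k : ℕ)
    (hz : ∀ s < k, z s ≠ 0) {B : ℝ} (hB : 0 ≤ B)
    (hzB : ∀ s < k, (finrank E (ptf E (z s)) : ℝ) * canH F d (z s) ≤ B) :
    ∑ s ∈ Finset.range k, cost F d E z s ≤ 2 * B * Real.log (finrank E (gen E z k)) := by
  induction k with
  | zero =>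
    rw [gen_zero]
    simp
  | succ k ih =>
    rw [Finset.sum_range_succ]
    have h1 := ih (fun s hs => hz s (by omega)) fun s hs => hzB s (by omega)
    have h2 := cost_le (E := E) h hd z k (hz k (by omega)) hB (hzB k (by omega))
    linarith

/-- fields generated by points of small height -/
theorem small (h : Bds F d A a) (hd : 2 ≤ d) (hF : ∀ i, (F i).IsHomogeneous d)
    (hint : ∀ i s, IsIntegral ℤ ((F i).coeff s))
    (hc : ∀ m, c + d ≤ m → ∀ p : MvPolynomial (Fin (N + 1)) K, p.IsHomogeneous m →
      p ∈ Ideal.span (Set.range F)) (z : ℕ → Fin (N + 1) → L) (k : ℕ)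
    (hz : ∀ s < k, z s ≠ 0) (hgen : gen E z k = ⊤) :
    Real.log (Ideal.absNorm (differentIdeal (𝓞 E) (𝓞 L))) ≤
      2 * finrank ℚ L * (∑ s ∈ Finset.range k, cost F d E z s +
        cst A a c d * Real.log (finrank E L)) := by
  have h1 := tower (E := E) h hd hF hint hc z k hz
  have h2 : rd (gen E z k) = rd L := by
    rw [hgen]
    exact rd_congr (IntermediateField.topEquiv (F := E) (E := L)).toRingEquiv
  have h3 : finrank E (gen E z k) = finrank E L := by
    rw [hgen]
    exact IntermediateField.finrank_top'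
  rw [h2, h3] at h1
  rw [rd_tower]
  have hn := finrank_pos' (L := L)
  have h4 : rd L - rd E ≤ 2 * (∑ s ∈ Finset.range k, cost F d E z s +
      cst A a c d * Real.log (finrank E L)) := by linarith
  refine (mul_le_mul_of_nonneg_left h4 hn.le).trans (le_of_eq ?_)
  ring

end

end Pool.Agent.D0H75.RD
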