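import Mathlib
import Pool.Agent.D0H75.RD.Main
import Pool.Agent.D0H75.RD.HB
import Pool.Agent.D0H75.RD.Tow

/-!
The inequality between canonical heights and relative discriminants, with the constant of the
comparison of heights.
-/

set_option autoImplicit false
set_option linter.unusedSectionVars false

namespace Pool.Agent.D0H75.RD

open NumberField Module MvPolynomial
open Pool.Agent.W238.Leh

noncomputable section

variable {K : Type} [Field K] [NumberField K] {N : ℕ}
variable {E : Type} [Field E] [NumberField E] [Algebra K E]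
variable {L : Type} [Field L] [NumberField L] [Algebra K L] [Algebra E L] [IsScalarTower K E L]
variable {F : Fin (N + 1) → MvPolynomial (Fin (N + 1)) K} {d c : ℕ} {H : ℝ}

/-- the key inequality, for a vector with integral coordinates -/
lemma keyU_int (h : HB F d H) (hint : ∀ i s, IsIntegral ℤ ((F i).coeff s))
    (l : List ℕ) (y : Fin (N + 1) → 𝓞 L) (hy : (fun i => (y i : L)) ≠ 0)
    (hspan : Submodule.span E {x : L | ∃ φ ∈ GG F l, x = aeval (fun i => (y i : L)) φ} = ⊤) :
    Real.log (Ideal.absNorm (differentIdeal (𝓞 E) (𝓞 L))) ≤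
      2 * (finrank ℚ L * Real.log (finrank E L)) + 2 * HL F l (fun i => (y i : L)) := by
  classical
  set z : Fin (N + 1) → L := fun i => (y i : L) with hz
  obtain ⟨S, hS, hSspan, hSli⟩ := exists_linearIndependent E
    {x : L | ∃ φ ∈ GG F l, x = aeval z φ}
  rw [hspan] at hSspan
  let u : Basis S E L := Basis.mk hSli (by rw [Subtype.range_coe, hSspan])
  let _ : Fintype S := FiniteDimensional.fintypeBasisIndex u
  have hι : Fintype.card S = finrank E L := (finrank_eq_card_basis u).symm
  have hu : ∀ j : S, u j = (j : L) := fun j => by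
    rw [Basis.mk_apply]
  let ω := integralBasis E
  have hκ : Fintype.card (Free.ChooseBasisIndex ℤ (𝓞 E)) = finrank ℚ E := by
    rw [← finrank_eq_card_chooseBasisIndex, RingOfIntegers.rank]
  -- elements of the ideal
  have hex : ∀ j : S, ∃ t : 𝓞 L, t ∈ IL F l z ∧ (t : L) = (j : L) := by
    intro j
    obtain ⟨φ, hφ, he⟩ := hS j.2
    obtain ⟨t, ht, hte⟩ := mem_IL (L := L) hint l hφ y
    exact ⟨t, ht, by rw [hte, he]⟩
  choose t ht hte using hex
  let bb : Basis (S × Free.ChooseBasisIndex ℤ (𝓞 E)) ℚ L :=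
    (ω.smulTower u).reindex (Equiv.prodComm _ _)
  let U : S × Free.ChooseBasisIndex ℤ (𝓞 E) → 𝓞 L :=
    fun p => t p.1 * algebraMap (𝓞 E) (𝓞 L) (RingOfIntegers.basis E p.2)
  have hU : ∀ p, (U p : L) = u p.1 * algebraMap E L (ω p.2) := by
    intro p
    have h0 : (U p : L) = (t p.1 : L) *
        ((algebraMap (𝓞 E) (𝓞 L) (RingOfIntegers.basis E p.2) : 𝓞 L) : L) := by
      simp only [U]
      push_cast
      rfl
    rw [h0, hte, hu]
    congr 1
    simp only [ω]
    rw [integralBasis_apply]
    rfl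
  have hbb : (fun p => (U p : L)) = bb := by
    funext p
    rw [hU, Basis.reindex_apply, Equiv.prodComm_symm, Equiv.prodComm_apply,
      Basis.smulTower_apply, Algebra.smul_def, mul_comm]
    rfl
  have hne : Algebra.discr ℚ (fun p => (U p : L)) ≠ 0 := by
    rw [hbb]
    exact Algebra.discr_not_zero_of_basis ℚ bb
  have hit : ∀ j, (act F)^[j] z ≠ 0 := h.iter_ne_zero hy
  obtain ⟨hI, hlog⟩ := log_IL hint l y hit
  have hcard : Fintype.card (S × Free.ChooseBasisIndex ℤ (𝓞 E)) = finrank ℚ L := by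
    rw [Fintype.card_prod, hι, hκ, mul_comm, finrank_mul_finrank]
  have h1 := discr_ge hcard (IL F l z) hI U (fun p => Ideal.mul_mem_right _ _ (ht p.1)) hne
  -- the upper bound
  have hit' : ∀ (w : InfinitePlace L) (j : ℕ), 0 < nmi w ((act F)^[j] z) :=
    fun w j => nmi_pos w (hit j)
  have h2 := discr_le (E := E) (L := L) hι hκ (fun j => u j) ω
    (fun σ => wt (nmi (InfinitePlace.mk σ.toRingHom)) (act F) l z) (by
      intro σ j
      obtain ⟨φ, hφ, he⟩ := hS j.2
      have h3 : ‖σ (u j)‖ = (InfinitePlace.mk σ.toRingHom) (aeval z φ) := by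
        rw [hu, he, InfinitePlace.apply]
        rfl
      rw [h3]
      exact abs_le_wt ((InfinitePlace.mk σ.toRingHom).1.toMonoidWithZeroHom)
        (fun x => (InfinitePlace.mk σ.toRingHom).1.nonneg x)
        (fun x i => le_nmi (InfinitePlace.mk σ.toRingHom) x i)
        (fun x => nmi_nonneg (InfinitePlace.mk σ.toRingHom) x) l hφ z)
  rw [prod_emb fun w => wt (nmi w) (act F) l z] at h2
  have h3 : (fun p : S × Free.ChooseBasisIndex ℤ (𝓞 E) => u p.1 * algebraMap E L (ω p.2)) =
      fun p => (U p : L) := funext fun p => (hU p).symm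
  rw [h3] at h2
  have h4 : (Ideal.absNorm (IL F l z) : ℝ) ^ 2 * |(discr L : ℝ)| ≤
      |((Algebra.discr ℚ (fun p => (U p : L)) : ℚ) : ℝ)| := by
    exact_mod_cast h1
  have h5 : ((Algebra.discr ℚ ω : ℚ) : ℝ) = (discr E : ℝ) := by
    simp only [ω]
    rw [← coe_discr]
    simp
  rw [h5] at h2
  have h6 := natAbs_discr_eq_absNorm_differentIdeal_mul_natAbs_discr_pow E (𝓞 E) L (𝓞 L)
  have h7 : |(discr L : ℝ)| = (Ideal.absNorm (differentIdeal (𝓞 E) (𝓞 L)) : ℝ) *
      |(discr E : ℝ)| ^ finrank E L := by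
    have h8 := congrArg (fun q : ℕ => (q : ℝ)) h6
    simp only [Nat.cast_mul, Nat.cast_pow, Nat.cast_natAbs, Int.cast_abs] at h8
    exact h8
  have hE : 0 < |(discr E : ℝ)| ^ finrank E L := by
    have : (discr E : ℝ) ≠ 0 := by exact_mod_cast discr_ne_zero E
    positivity
  have hL : (discr L : ℝ) ≠ 0 := by exact_mod_cast discr_ne_zero L
  have hD : (Ideal.absNorm (differentIdeal (𝓞 E) (𝓞 L)) : ℝ) ≠ 0 := by
    intro h0
    rw [h0, zero_mul, abs_eq_zero] at h7
    exact hL h7
  have hwt : ∀ w : InfinitePlace L, 0 < wt (nmi w) (act F) l z :=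
    fun w => wt_pos l (hit' w)
  have hI' : (Ideal.absNorm (IL F l z) : ℝ) ≠ 0 := by
    rw [Nat.cast_ne_zero, Ne, Ideal.absNorm_eq_zero_iff]
    exact hI
  have h8 : (Ideal.absNorm (IL F l z) : ℝ) ^ 2 *
      (Ideal.absNorm (differentIdeal (𝓞 E) (𝓞 L)) : ℝ) ≤
      (((finrank E L).factorial : ℝ) ^ finrank ℚ E *
        ∏ w : InfinitePlace L, wt (nmi w) (act F) l z ^ w.mult) ^ 2 := by
    refine le_of_mul_le_mul_right ?_ hE
    rw [mul_assoc, ← h7]
    exact h4.trans h2
  have hfac : (0 : ℝ) < ((finrank E L).factorial : ℝ) := by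
    exact_mod_cast Nat.factorial_pos _
  have hprod : 0 < ∏ w : InfinitePlace L, wt (nmi w) (act F) l z ^ w.mult :=
    Finset.prod_pos fun w _ => pow_pos (hwt w) _
  have h9 := Real.log_le_log (by positivity) h8
  rw [Real.log_mul (by positivity) hD, Real.log_pow, Real.log_pow,
    Real.log_mul (by positivity) hprod.ne', Real.log_pow,
    Real.log_prod (fun w _ => (pow_pos (hwt w) _).ne'), hlog] at h9
  have h10 := (HasGS.wt (F := F) l hit).2
  have h11 : ∑ w : InfinitePlace L, Real.log (wt (nmi w) (act F) l z ^ w.mult) =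
      ∑ w : InfinitePlace L, (w.mult : ℝ) * Real.log (wt (nmi w) (act F) l z) :=
    Finset.sum_congr rfl fun w _ => by rw [Real.log_pow]
  rw [h11] at h9
  have h12 : (finrank ℚ E : ℝ) * Real.log ((finrank E L).factorial : ℝ) ≤
      finrank ℚ L * Real.log (finrank E L) := by
    have h13 := mul_le_mul_of_nonneg_left (log_factorial_le (finrank E L))
      (Nat.cast_nonneg (α := ℝ) (finrank ℚ E))
    refine h13.trans (le_of_eq ?_)
    rw [← mul_assoc, ← Nat.cast_mul, finrank_mul_finrank]
  push_cast at h9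
  linarith

/-- the key inequality -/
theorem keyU (h : HB F d H) (hd : 2 ≤ d) (hF : ∀ i, (F i).IsHomogeneous d)
    (hint : ∀ i s, IsIntegral ℤ ((F i).coeff s))
    (hc : ∀ m, c + d ≤ m → ∀ p : MvPolynomial (Fin (N + 1)) K, p.IsHomogeneous m →
      p ∈ Ideal.span (Set.range F)) (m : ℕ) (z : Fin (N + 1) → L) (hz : z ≠ 0)
    (hspan : ∀ y : L, ∃ p : MvPolynomial (Fin (N + 1)) E, p.IsHomogeneous m ∧ aeval z p = y) :
    Real.log (Ideal.absNorm (differentIdeal (𝓞 E) (𝓞 L))) ≤
      2 * finrank ℚ L * (Real.log (finrank E L) + (m * canH F d z +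
        H * ((c + d : ℕ) * (1 + Nat.log 2 m : ℕ)))) := by
  classical
  obtain ⟨l, hl1, hl2, hl3, hl4⟩ := exists_list (c := c) hd m
  obtain ⟨b, hb, hbz⟩ := exists_denom (K := L) (Finset.univ.image z)
  have hbL : (b : L) ≠ 0 := by
    have : b ≠ 0 := by omega
    exact_mod_cast this
  have hy : ∀ i, IsIntegral ℤ ((b : L) * z i) := fun i =>
    hbz _ (Finset.mem_image_of_mem _ (Finset.mem_univ i))
  let y : Fin (N + 1) → 𝓞 L := fun i => ⟨(b : L) * z i, hy i⟩
  have hyz : (fun i => (y i : L)) = (b : L) • z := rfl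
  have hbz0 : (b : L) • z ≠ 0 := smul_ne_zero hbL hz
  have hsp := span_GG (E := E) hF hc l hl2 ((b : L) • z) (by
    intro x
    rw [hl1]
    obtain ⟨p, hp, hpx⟩ := hspan (((b : L) ^ m)⁻¹ * x)
    refine ⟨p, hp, ?_⟩
    rw [aeval_smul_hom hp, hpx, mul_inv_cancel_left₀ (pow_ne_zero _ hbL)])
  have h1 := keyU_int (E := E) h hint l y (by rw [hyz]; exact hbz0) (by rw [hyz]; exact hsp)
  rw [hyz] at h1
  have h2 := h.HL_le hd l hbz0
  rw [canH_smul hF hbL, hl1] at h2
  have h3 : (l.sum : ℝ) ≤ ((c + d : ℕ) : ℝ) * ((1 + Nat.log 2 m : ℕ) : ℝ) := by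
    exact_mod_cast sum_list_le hl3 hl4
  have h4 := mul_le_mul_of_nonneg_left h3 h.nonneg
  have h5 := mul_le_mul_of_nonneg_left h4 (Nat.cast_nonneg (α := ℝ) (finrank ℚ L))
  nlinarith

/-- the constant -/
def cstU (H : ℝ) (c d : ℕ) : ℝ := 1 + 3 * (H * (c + d : ℕ))

/-- the inequality for one point, over a smaller field -/
lemma keyU_gen (h : HB F d H) (hd : 2 ≤ d) (hF : ∀ i, (F i).IsHomogeneous d)
    (hint : ∀ i s, IsIntegral ℤ ((F i).coeff s))
    (hc : ∀ m, c + d ≤ m → ∀ p : MvPolynomial (Fin (N + 1)) K, p.IsHomogeneous m →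
      p ∈ Ideal.span (Set.range F)) (z : Fin (N + 1) → L) (hz : z ≠ 0)
    (hgen : IntermediateField.adjoin E {x : L | ∃ i j, x = z i / z j} = ⊤)
    (hD : 2 ≤ finrank E L) :
    rd L ≤ rd E + 2 * (finrank E L * canH F d z + cstU H c d * Real.log (finrank E L)) := by
  set D := finrank E L with hDd
  have h1 := keyU (E := E) h hd hF hint hc (D - 1) z hz
    (fun y => exists_form z hgen hz (D - 1) (by omega) y)
  rw [rd_tower] at h1
  have hn := finrank_pos' (L := L)
  have h2 : rd L - rd E ≤ 2 * (Real.log D + ((D - 1 : ℕ) * canH F d z +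
      H * ((c + d : ℕ) * (1 + Nat.log 2 (D - 1) : ℕ)))) := by
    refine le_of_mul_le_mul_left (h1.trans (le_of_eq ?_)) hn
    ring
  have h3 := h.canH_nonneg hd hz
  have h4 : ((D - 1 : ℕ) : ℝ) * canH F d z ≤ D * canH F d z :=
    mul_le_mul_of_nonneg_right (by exact_mod_cast Nat.sub_le D 1) h3
  have h5 := mul_le_mul_of_nonneg_left (one_add_log_le hD)
    (mul_nonneg h.nonneg (Nat.cast_nonneg (α := ℝ) (c + d)))
  unfold cstU
  nlinarith

/-- adjoining one point -/
lemma stepU (h : HB F d H) (hd : 2 ≤ d) (hF : ∀ i, (F i).IsHomogeneous d)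
    (hint : ∀ i s, IsIntegral ℤ ((F i).coeff s))
    (hc : ∀ m, c + d ≤ m → ∀ p : MvPolynomial (Fin (N + 1)) K, p.IsHomogeneous m →
      p ∈ Ideal.span (Set.range F)) (M : IntermediateField E L) (z : Fin (N + 1) → L) (hz : z ≠ 0)
    (hM : M ⊔ ptf E z ≠ M) :
    2 ≤ (finrank E (M ⊔ ptf E z : IntermediateField E L) : ℝ) / finrank E M ∧
    rd (M ⊔ ptf E z : IntermediateField E L) ≤ rd M +
      2 * ((finrank E (M ⊔ ptf E z : IntermediateField E L) : ℝ) / finrank E M * canH F d z +
        cstU H c d * Real.log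
          ((finrank E (M ⊔ ptf E z : IntermediateField E L) : ℝ) / finrank E M)) := by
  set S : Set L := {x : L | ∃ i j, x = z i / z j} with hS
  let M' : IntermediateField M L := IntermediateField.adjoin M S
  have hres : M'.restrictScalars E = M ⊔ ptf E z :=
    IntermediateField.restrictScalars_adjoin_eq_sup E M S
  have : IsScalarTower K M L := IsScalarTower.of_algebraMap_eq fun x => rfl
  have : IsScalarTower K M M' := IsScalarTower.of_algebraMap_eq fun x => rfl
  have hfin : (finrank E (M ⊔ ptf E z : IntermediateField E L) : ℝ) =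
      finrank E M * finrank M M' := by
    rw [← hres]
    exact_mod_cast (finrank_mul_finrank E M M').symm
  have hrd : rd (M ⊔ ptf E z : IntermediateField E L) = rd M' := by
    rw [← hres]
    exact rd_congr (RingEquiv.refl M')
  have hpos : (0 : ℝ) < finrank E M := by exact_mod_cast (finrank_pos : 0 < finrank E M)
  have hquo : (finrank E (M ⊔ ptf E z : IntermediateField E L) : ℝ) / finrank E M =
      finrank M M' := by
    rw [hfin, mul_div_cancel_left₀ _ hpos.ne']
  have hD : 2 ≤ finrank M M' := by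
    by_contra hcon
    have h1 : 0 < finrank M M' := finrank_pos
    have h2 : finrank M M' = 1 := by omega
    rw [IntermediateField.finrank_eq_one_iff] at h2
    apply hM
    rw [← hres, h2]
    ext x
    simp
  obtain ⟨i₀, hi₀⟩ : ∃ i, z i ≠ 0 := Function.ne_iff.mp hz
  let z' : Fin (N + 1) → M' := fun i =>
    ⟨z i / z i₀, IntermediateField.subset_adjoin M S ⟨i, i₀, rfl⟩⟩
  have hz' : z' ≠ 0 := by
    intro h0
    have h1 := congrArg (fun t : M' => (t : L)) (congrFun h0 i₀)
    simp only [z', div_self hi₀, Pi.zero_apply, ZeroMemClass.coe_zero] at h1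
    exact one_ne_zero h1
  have hcoe : ∀ i j, ((z' i / z' j : M') : L) = z i / z j := by
    intro i j
    change (z i / z i₀) / (z j / z i₀) = z i / z j
    rw [div_div_div_cancel_right₀ hi₀]
  have hgen : IntermediateField.adjoin M {x : M' | ∃ i j, x = z' i / z' j} = ⊤ := by
    apply IntermediateField.lift_injective M'
    rw [IntermediateField.lift_adjoin, IntermediateField.lift_top]
    change IntermediateField.adjoin M _ = IntermediateField.adjoin M S
    congr 1
    ext x
    constructor
    · rintro ⟨_, ⟨i, j, rfl⟩, rfl⟩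
      exact ⟨i, j, hcoe i j⟩
    · rintro ⟨i, j, rfl⟩
      exact ⟨z' i / z' j, ⟨i, j, rfl⟩, hcoe i j⟩
  have hcan : canH F d z' = canH F d z := by
    have h1 := D0H82.DL.canH_map (F := F) (d := d)
      ((M'.val).restrictScalars K : M' →ₐ[K] L) z'
    rw [← h1, ← canH_smul hF (inv_ne_zero hi₀) z]
    congr 1
    funext i
    change z i / z i₀ = (z i₀)⁻¹ * z i
    rw [div_eq_mul_inv, mul_comm]
  have h1 := keyU_gen (E := M) h hd hF hint hc z' hz' hgen hD
  rw [hquo, hrd, ← hcan]
  exact ⟨by exact_mod_cast hD, h1⟩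

lemma towerU (h : HB F d H) (hd : 2 ≤ d) (hF : ∀ i, (F i).IsHomogeneous d)
    (hint : ∀ i s, IsIntegral ℤ ((F i).coeff s))
    (hc : ∀ m, c + d ≤ m → ∀ p : MvPolynomial (Fin (N + 1)) K, p.IsHomogeneous m →
      p ∈ Ideal.span (Set.range F)) (z : ℕ → Fin (N + 1) → L) (k : ℕ)
    (hz : ∀ s < k, z s ≠ 0) :
    rd (gen E z k) ≤ rd E + 2 * (∑ s ∈ Finset.range k, cost F d E z s +
      cstU H c d * Real.log (finrank E (gen E z k))) := by
  induction k with
  | zero =>
    have h1 : rd (gen E z 0) = rd E := by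
      rw [gen_zero]
      exact rd_congr (IntermediateField.botEquiv E L).toRingEquiv
    rw [h1, gen_zero]
    simp
  | succ k ih =>
    have ih' := ih fun s hs => hz s (by omega)
    rw [Finset.sum_range_succ]
    by_cases hk : gen E z (k + 1) = gen E z k
    · have h2 : cost F d E z k = 0 := by
        unfold cost
        rw [if_pos hk]
      rw [h2, hk, add_zero]
      exact ih'
    · have h2 : cost F d E z k = (finrank E (gen E z (k + 1)) : ℝ) / finrank E (gen E z k) *
          canH F d (z k) := by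
        unfold cost
        rw [if_neg hk]
      have h3 := stepU (E := E) h hd hF hint hc (gen E z k) (z k) (hz k (by omega))
        (by rw [← gen_succ]; exact hk)
      rw [← gen_succ] at h3
      rw [h2]
      have h4 : (0 : ℝ) < finrank E (gen E z (k + 1)) := by
        exact_mod_cast (finrank_pos : 0 < finrank E (gen E z (k + 1)))
      have h5 : (0 : ℝ) < finrank E (gen E z k) := by
        exact_mod_cast (finrank_pos : 0 < finrank E (gen E z k))
      have h6 := h3.2
      rw [Real.log_div h4.ne' h5.ne'] at h6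
      linarith

/-- the cost of a step with a point of small height -/
lemma cost_leU (h : HB F d H) (hd : 2 ≤ d) (z : ℕ → Fin (N + 1) → L) (t : ℕ) (hz : z t ≠ 0)
    {B : ℝ} (hB : 0 ≤ B) (hzB : (finrank E (ptf E (z t)) : ℝ) * canH F d (z t) ≤ B) :
    cost F d E z t ≤ 2 * B * (Real.log (finrank E (gen E z (t + 1))) -
      Real.log (finrank E (gen E z t))) := by
  unfold cost
  split_ifs with ht
  · rw [ht]
    simp
  · have h4 : (0 : ℝ) < finrank E (gen E z (t + 1)) := by
      exact_mod_cast (finrank_pos : 0 < finrank E (gen E z (t + 1)))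
    have h5 : (0 : ℝ) < finrank E (gen E z t) := by
      exact_mod_cast (finrank_pos : 0 < finrank E (gen E z t))
    have h6 : finrank E (gen E z (t + 1)) ≤ finrank E (gen E z t) * finrank E (ptf E (z t)) := by
      rw [gen_succ]
      exact IntermediateField.finrank_sup_le _ _
    have h7 : (finrank E (gen E z (t + 1)) : ℝ) / finrank E (gen E z t) ≤
        finrank E (ptf E (z t)) := by
      rw [div_le_iff₀' h5]
      exact_mod_cast h6
    have h8 : 2 ≤ (finrank E (gen E z (t + 1)) : ℝ) / finrank E (gen E z t) := by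
      have h9 : gen E z t ≤ gen E z (t + 1) := by
        rw [gen_succ]
        exact le_sup_left
      have h10 := IntermediateField.finrank_dvd_of_le_right h9
      obtain ⟨q, hq⟩ := h10
      have hq2 : 2 ≤ q := by
        by_contra hcon
        have h11 : 0 < finrank E (gen E z (t + 1)) := finrank_pos
        have h12 : q = 1 := by
          rcases Nat.eq_zero_or_pos q with h0 | h0
          · rw [h0, mul_zero] at hq
            omega
          · omega
        rw [h12, mul_one] at hq
        exact ht (IntermediateField.eq_of_le_of_finrank_eq h9 hq.symm).symm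
      rw [hq]
      push_cast
      rw [mul_div_cancel_left₀ _ h5.ne']
      exact_mod_cast hq2
    have h9 := h.canH_nonneg hd hz
    have h10 : (finrank E (gen E z (t + 1)) : ℝ) / finrank E (gen E z t) * canH F d (z t) ≤ B :=
      (mul_le_mul_of_nonneg_right h7 h9).trans hzB
    refine h10.trans ?_
    rw [← Real.log_div h4.ne' h5.ne']
    have h11 : Real.log 2 ≤ Real.log ((finrank E (gen E z (t + 1)) : ℝ) / finrank E (gen E z t)) :=
      Real.log_le_log (by norm_num) h8
    have h12 := Real.log_two_gt_d9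
    nlinarith

lemma sum_cost_leU (h : HB F d H) (hd : 2 ≤ d) (z : ℕ → Fin (N + 1) → L) (k : ℕ)
    (hz : ∀ s < k, z s ≠ 0) {B : ℝ} (hB : 0 ≤ B)
    (hzB : ∀ s < k, (finrank E (ptf E (z s)) : ℝ) * canH F d (z s) ≤ B) :
    ∑ s ∈ Finset.range k, cost F d E z s ≤ 2 * B * Real.log (finrank E (gen E z k)) := by
  induction k with
  | zero =>
    rw [gen_zero]
    simp
  | succ k ih =>
    rw [Finset.sum_range_succ]
    have h1 := ih (fun s hs => hz s (by omega)) fun s hs => hzB s (by omega)
    have h2 := cost_leU (E := E) h hd z k (hz k (by omega)) hB (hzB k (by omega))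
    linarith

/-- fields generated by points of small height -/
theorem smallU (h : HB F d H) (hd : 2 ≤ d) (hF : ∀ i, (F i).IsHomogeneous d)
    (hint : ∀ i s, IsIntegral ℤ ((F i).coeff s))
    (hc : ∀ m, c + d ≤ m → ∀ p : MvPolynomial (Fin (N + 1)) K, p.IsHomogeneous m →
      p ∈ Ideal.span (Set.range F)) (z : ℕ → Fin (N + 1) → L) (k : ℕ)
    (hz : ∀ s < k, z s ≠ 0) (hgen : gen E z k = ⊤) :
    Real.log (Ideal.absNorm (differentIdeal (𝓞 E) (𝓞 L))) ≤
      2 * finrank ℚ L * (∑ s ∈ Finset.range k, cost F d E z s +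
        cstU H c d * Real.log (finrank E L)) := by
  have h1 := towerU (E := E) h hd hF hint hc z k hz
  have h2 : rd (gen E z k) = rd L := by
    rw [hgen]
    exact rd_congr (IntermediateField.topEquiv (F := E) (E := L)).toRingEquiv
  have h3 : finrank E (gen E z k) = finrank E L := by
    rw [hgen]
    exact IntermediateField.finrank_top'
  rw [h2, h3] at h1
  rw [rd_tower]
  have hn := finrank_pos' (L := L)
  have h4 : rd L - rd E ≤ 2 * (∑ s ∈ Finset.range k, cost F d E z s +
      cstU H c d * Real.log (finrank E L)) := by linarith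
  refine (mul_le_mul_of_nonneg_left h4 hn.le).trans (le_of_eq ?_)
  ring

end

end Pool.Agent.D0H75.RD
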