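import Mathlib
import Pool.Agent.D0H75.RD.Alg

/-!
Hadamard's inequality for complex matrices with bounded columns, and the bound for the discriminant
of a product basis.
-/

set_option autoImplicit false
set_option linter.unusedSectionVars false

namespace Pool.Agent.D0H75.RD

open NumberField Module Matrix Kronecker
open scoped ComplexOrder

noncomputable section

lemma had1 {ι : Type*} [Fintype ι] [DecidableEq ι] (A : Matrix ι ι ℂ)
    (h : ∀ i j, ‖A i j‖ ≤ 1) :
    ‖A.det‖ ^ 2 ≤ (Fintype.card ι : ℝ) ^ Fintype.card ι := by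
  set M := Aᴴ * A with hM
  have hpsd : M.PosSemidef := Matrix.posSemidef_conjTranspose_mul_self A
  have hher := hpsd.isHermitian
  have hdet := hher.det_eq_prod_eigenvalues
  have htr := hher.trace_eq_sum_eigenvalues
  have hdet2 : M.det = ((‖A.det‖ ^ 2 : ℝ) : ℂ) := by
    rw [hM, det_mul, det_conjTranspose]
    have h1 := Complex.conj_mul' A.det
    rw [starRingEnd_apply] at h1
    rw [h1]
    push_cast
    rfl
  have h1 : ‖A.det‖ ^ 2 = ∏ i, hher.eigenvalues i := by
    have h2 : (((‖A.det‖ ^ 2 : ℝ) : ℂ)) = ((∏ i, hher.eigenvalues i : ℝ) : ℂ) := by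
      rw [← hdet2, hdet]
      push_cast
      rfl
    exact_mod_cast h2
  have hnn : ∀ i, 0 ≤ hher.eigenvalues i := hpsd.eigenvalues_nonneg
  have h3 : ∑ i, hher.eigenvalues i ≤ (Fintype.card ι : ℝ) * Fintype.card ι := by
    have h4 : ((∑ i, hher.eigenvalues i : ℝ) : ℂ) = ((∑ i, ∑ j, ‖A j i‖ ^ 2 : ℝ) : ℂ) := by
      have h5 : M.trace = ((∑ i, ∑ j, ‖A j i‖ ^ 2 : ℝ) : ℂ) := by
        rw [hM, Matrix.trace]
        push_cast
        refine Finset.sum_congr rfl fun i _ => ?_
        rw [Matrix.diag_apply, Matrix.mul_apply]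
        refine Finset.sum_congr rfl fun j _ => ?_
        rw [Matrix.conjTranspose_apply]
        have h6 := Complex.conj_mul' (A j i)
        rw [starRingEnd_apply] at h6
        exact h6
      rw [← h5, htr]
      push_cast
      rfl
    have h7 : ∑ i, hher.eigenvalues i = ∑ i, ∑ j, ‖A j i‖ ^ 2 := by exact_mod_cast h4
    rw [h7]
    calc ∑ i, ∑ j, ‖A j i‖ ^ 2 ≤ ∑ _i : ι, ∑ _j : ι, (1 : ℝ) := by
          refine Finset.sum_le_sum fun i _ => Finset.sum_le_sum fun j _ => ?_
          exact pow_le_one₀ (norm_nonneg _) (h j i)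
      _ = _ := by simp
  rw [h1]
  rcases Nat.eq_zero_or_pos (Fintype.card ι) with h0 | h0
  · have : IsEmpty ι := Fintype.card_eq_zero_iff.mp h0
    simp
  · have hn : (0 : ℝ) < Fintype.card ι := by exact_mod_cast h0
    have h4 := Real.geom_mean_le_arith_mean_weighted Finset.univ
      (fun _ : ι => ((Fintype.card ι : ℝ))⁻¹) (fun i => hher.eigenvalues i)
      (fun _ _ => by positivity) (by
        rw [Finset.sum_const, Finset.card_univ, nsmul_eq_mul]
        exact mul_inv_cancel₀ hn.ne') (fun i _ => hnn i)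
    have h5 : ∑ i : ι, ((Fintype.card ι : ℝ))⁻¹ * hher.eigenvalues i ≤ Fintype.card ι := by
      rw [← Finset.mul_sum, inv_mul_le_iff₀ hn]
      exact h3
    have h6 : (∏ i : ι, hher.eigenvalues i ^ ((Fintype.card ι : ℝ))⁻¹) ^ Fintype.card ι =
        ∏ i, hher.eigenvalues i := by
      rw [← Finset.prod_pow]
      refine Finset.prod_congr rfl fun i _ => ?_
      rw [← Real.rpow_natCast, ← Real.rpow_mul (hnn i), inv_mul_cancel₀ hn.ne', Real.rpow_one]
    rw [← h6]
    exact pow_le_pow_left₀ (Finset.prod_nonneg fun i _ => Real.rpow_nonneg (hnn i) _)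
      (h4.trans h5) _

lemma had2 {ι : Type*} [Fintype ι] [DecidableEq ι] (B : Matrix ι ι ℂ) (W : ι → ℝ)
    (hW : ∀ j, 0 < W j) (h : ∀ i j, ‖B i j‖ ≤ W j) :
    ‖B.det‖ ^ 2 ≤ (Fintype.card ι : ℝ) ^ Fintype.card ι * (∏ j, W j) ^ 2 := by
  have h1 := had1 (Matrix.of fun i j => ((W j : ℂ))⁻¹ * B i j) (by
    intro i j
    rw [Matrix.of_apply, norm_mul, norm_inv, Complex.norm_real, Real.norm_of_nonneg (hW j).le,
      inv_mul_le_iff₀ (hW j), mul_one]
    exact h i j)
  rw [Matrix.det_mul_row, norm_mul, mul_pow] at h1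
  have h2 : ‖∏ j, ((W j : ℂ))⁻¹‖ = (∏ j, W j)⁻¹ := by
    rw [norm_prod, ← Finset.prod_inv_distrib]
    refine Finset.prod_congr rfl fun j _ => ?_
    rw [norm_inv, Complex.norm_real, Real.norm_of_nonneg (hW j).le]
  rw [h2, inv_pow] at h1
  have h3 : 0 < ∏ j, W j := Finset.prod_pos fun j _ => hW j
  rw [inv_mul_le_iff₀ (by positivity)] at h1
  rwa [mul_comm] at h1

variable {E : Type*} [Field E] [NumberField E] {L : Type*} [Field L] [NumberField L] [Algebra E L]
variable {ι κ : Type*} [Fintype ι] [DecidableEq ι] [Fintype κ] [DecidableEq κ]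

/-- upper bound for the discriminant of a product basis -/
lemma discr_le' (hι : Fintype.card ι = finrank E L) (hκ : Fintype.card κ = finrank ℚ E)
    (u : ι → L) (ω : κ → E) (W : (L →ₐ[ℚ] ℂ) → ℝ) (hW0 : ∀ σ, 0 < W σ)
    (hW : ∀ σ i, ‖σ (u i)‖ ≤ W σ) :
    |((Algebra.discr ℚ (fun p : ι × κ => u p.1 * algebraMap E L (ω p.2)) : ℚ) : ℝ)| ≤
      (((finrank E L : ℝ) ^ finrank E L) ^ finrank ℚ E * (∏ σ, W σ) ^ 2) *
        |((Algebra.discr ℚ ω : ℚ) : ℝ)| ^ finrank E L := by
  classical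
  obtain ⟨e, e', he⟩ := exists_emb (E := E) (L := L) hι hκ
  set b : ι × κ → L := fun p => u p.1 * algebraMap E L (ω p.2) with hb
  let B : κ → Matrix ι ι ℂ := fun c => Matrix.of fun j i => e' (i, c) (u j)
  have h1 : Algebra.embeddingsMatrixReindex ℚ ℂ b e' =
      ((1 : Matrix ι ι ℂ) ⊗ₖ (Algebra.embeddingsMatrixReindex ℚ ℂ ω e)) * blockDiagonal B := by
    ext ⟨j, k⟩ ⟨i, c⟩
    rw [Matrix.mul_apply, Fintype.sum_eq_single (j, c)]
    · simp only [Algebra.embeddingsMatrixReindex, Algebra.embeddingsMatrix, reindex_apply,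
        submatrix_apply, Equiv.refl_symm, Equiv.coe_refl, id_eq, Equiv.symm_symm, of_apply,
        kroneckerMap_apply, one_apply_eq, one_mul, blockDiagonal_apply, if_true, B, hb,
        map_mul, he]
      ring
    · rintro ⟨j', c'⟩ hne
      by_cases hj : j' = j
      · subst hj
        have hc : c' ≠ c := fun h => hne (by rw [h])
        simp [blockDiagonal_apply, hc]
      · simp [kroneckerMap_apply, one_apply, Ne.symm hj]
  have h2 := Algebra.discr_eq_det_embeddingsMatrixReindex_pow_two ℚ ℂ b e'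
  have h3 := Algebra.discr_eq_det_embeddingsMatrixReindex_pow_two ℚ ℂ ω e
  have hn : ∀ q : ℚ, ‖algebraMap ℚ ℂ q‖ = |(q : ℝ)| := by
    intro q
    simp
  have h4 : ‖(blockDiagonal B).det‖ ^ 2 ≤
      ((finrank E L : ℝ) ^ finrank E L) ^ finrank ℚ E * (∏ σ, W σ) ^ 2 := by
    rw [det_blockDiagonal, norm_prod, ← Finset.prod_pow]
    have h5 : ∀ c ∈ (Finset.univ : Finset κ), ‖(B c).det‖ ^ 2 ≤
        ((finrank E L : ℝ) ^ finrank E L) * (∏ i, W (e' (i, c))) ^ 2 := by
      intro c _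
      rw [← hι]
      exact had2 (B c) (fun i => W (e' (i, c))) (fun i => hW0 _) fun i j => hW _ _
    refine (Finset.prod_le_prod (fun c _ => by positivity) h5).trans (le_of_eq ?_)
    rw [Finset.prod_mul_distrib, Finset.prod_const, Finset.card_univ, hκ, Finset.prod_pow]
    congr 2
    rw [← Equiv.prod_comp e' W, Fintype.prod_prod_type_right]
  rw [← hn, h2, norm_pow, h1, det_mul, norm_mul, det_kronecker, det_one, one_pow, one_mul,
    norm_pow, mul_pow, mul_comm]
  have h6 : ‖(Algebra.embeddingsMatrixReindex ℚ ℂ ω e).det‖ ^ 2 =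
      |((Algebra.discr ℚ ω : ℚ) : ℝ)| := by
    rw [← hn, h3, norm_pow]
  rw [← pow_mul, mul_comm (Fintype.card ι) 2, pow_mul, h6, hι]
  exact mul_le_mul_of_nonneg_right h4 (pow_nonneg (abs_nonneg _) _)

end

end Pool.Agent.D0H75.RD
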