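import Mathlib
import Pool.Agent.D0H75.RD.MainU
import Pool.Agent.D0H75.RD.Had

/-!
Values of products of forms at several points (of several maps).
-/

set_option autoImplicit false
set_option linter.unusedSectionVars false

namespace Pool.Agent.D0H75.RD

open NumberField Module MvPolynomial
open Pool.Agent.W238.Leh
open scoped Pointwise

noncomputable section

variable {K : Type} [Field K] [NumberField K] {N : ℕ}
variable {E : Type} [Field E] [NumberField E] [Algebra K E]
variable {L : Type} [Field L] [NumberField L] [Algebra K L] [Algebra E L] [IsScalarTower K E L]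
variable {F : Fin (N + 1) → MvPolynomial (Fin (N + 1)) K} {d c : ℕ} {H : ℝ}

/-- the inequality for a spanning set with values in an ideal and bounded at the infinite places -/
lemma abs_key {V : Set L} (hV : Submodule.span E V = ⊤) {I : Ideal (𝓞 L)} (hI : I ≠ ⊥)
    (hVI : ∀ x ∈ V, ∃ t : 𝓞 L, t ∈ I ∧ (t : L) = x) {W : InfinitePlace L → ℝ}
    (hW0 : ∀ w, 0 < W w) (hVW : ∀ x ∈ V, ∀ w : InfinitePlace L, w x ≤ W w) :
    Real.log (Ideal.absNorm (differentIdeal (𝓞 E) (𝓞 L))) ≤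
      finrank ℚ L * Real.log (finrank E L) +
      2 * (∑ w : InfinitePlace L, (w.mult : ℝ) * Real.log (W w) -
        Real.log (Ideal.absNorm I)) := by
  classical
  obtain ⟨S, hS, hSspan, hSli⟩ := exists_linearIndependent E V
  rw [hV] at hSspan
  let u : Basis S E L := Basis.mk hSli (by rw [Subtype.range_coe, hSspan])
  let _ : Fintype S := FiniteDimensional.fintypeBasisIndex u
  have hι : Fintype.card S = finrank E L := (finrank_eq_card_basis u).symm
  have hu : ∀ j : S, u j = (j : L) := fun j => by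
    rw [Basis.mk_apply]
  let ω := integralBasis E
  have hκ : Fintype.card (Free.ChooseBasisIndex ℤ (𝓞 E)) = finrank ℚ E := by
    rw [← finrank_eq_card_chooseBasisIndex, RingOfIntegers.rank]
  -- elements of the ideal
  have hex : ∀ j : S, ∃ t : 𝓞 L, t ∈ I ∧ (t : L) = (j : L) := fun j => hVI _ (hS j.2)
  choose t ht hte using hex
  let bb : Basis (S × Free.ChooseBasisIndex ℤ (𝓞 E)) ℚ L :=
    (ω.smulTower u).reindex (Equiv.prodComm _ _)
  let U : S × Free.ChooseBasisIndex ℤ (𝓞 E) → 𝓞 L :=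
    fun p => t p.1 * algebraMap (𝓞 E) (𝓞 L) (RingOfIntegers.basis E p.2)
  have hU : ∀ p, (U p : L) = u p.1 * algebraMap E L (ω p.2) := by
    intro p
    have h0 : (U p : L) = (t p.1 : L) *
        ((algebraMap (𝓞 E) (𝓞 L) (RingOfIntegers.basis E p.2) : 𝓞 L) : L) := by
      simp only [U]
      push_cast
      rfl
    rw [h0, hte, hu]
    congr 1
    simp only [ω]
    rw [integralBasis_apply]
    rfl
  have hbb : (fun p => (U p : L)) = bb := by
    funext p
    rw [hU, Basis.reindex_apply, Equiv.prodComm_symm, Equiv.prodComm_apply,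
      Basis.smulTower_apply, Algebra.smul_def, mul_comm]
    rfl
  have hne : Algebra.discr ℚ (fun p => (U p : L)) ≠ 0 := by
    rw [hbb]
    exact Algebra.discr_not_zero_of_basis ℚ bb
  have hcard : Fintype.card (S × Free.ChooseBasisIndex ℤ (𝓞 E)) = finrank ℚ L := by
    rw [Fintype.card_prod, hι, hκ, mul_comm, finrank_mul_finrank]
  have h1 := discr_ge hcard I hI U (fun p => Ideal.mul_mem_right _ _ (ht p.1)) hne
  -- the upper bound
  have h2 := discr_le' (E := E) (L := L) hι hκ (fun j => u j) ω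
    (fun σ => W (InfinitePlace.mk σ.toRingHom)) (fun σ => hW0 _) (by
      intro σ j
      have h3 : ‖σ (u j)‖ = (InfinitePlace.mk σ.toRingHom) (j : L) := by
        rw [hu, InfinitePlace.apply]
        rfl
      rw [h3]
      exact hVW _ (hS j.2) _)
  rw [prod_emb W] at h2
  have h3 : (fun p : S × Free.ChooseBasisIndex ℤ (𝓞 E) => u p.1 * algebraMap E L (ω p.2)) =
      fun p => (U p : L) := funext fun p => (hU p).symm
  rw [h3] at h2
  have h4 : (Ideal.absNorm I : ℝ) ^ 2 * |(discr L : ℝ)| ≤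
      |((Algebra.discr ℚ (fun p => (U p : L)) : ℚ) : ℝ)| := by
    exact_mod_cast h1
  have h5 : ((Algebra.discr ℚ ω : ℚ) : ℝ) = (discr E : ℝ) := by
    simp only [ω]
    rw [← coe_discr]
    simp
  rw [h5] at h2
  have h6 := natAbs_discr_eq_absNorm_differentIdeal_mul_natAbs_discr_pow E (𝓞 E) L (𝓞 L)
  have h7 : |(discr L : ℝ)| = (Ideal.absNorm (differentIdeal (𝓞 E) (𝓞 L)) : ℝ) *
      |(discr E : ℝ)| ^ finrank E L := by
    have h8 := congrArg (fun q : ℕ => (q : ℝ)) h6
    simp only [Nat.cast_mul, Nat.cast_pow, Nat.cast_natAbs, Int.cast_abs] at h8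
    exact h8
  have hE : 0 < |(discr E : ℝ)| ^ finrank E L := by
    have : (discr E : ℝ) ≠ 0 := by exact_mod_cast discr_ne_zero E
    positivity
  have hL : (discr L : ℝ) ≠ 0 := by exact_mod_cast discr_ne_zero L
  have hD : (Ideal.absNorm (differentIdeal (𝓞 E) (𝓞 L)) : ℝ) ≠ 0 := by
    intro h0
    rw [h0, zero_mul, abs_eq_zero] at h7
    exact hL h7
  have hI' : (Ideal.absNorm I : ℝ) ≠ 0 := by
    rw [Nat.cast_ne_zero, Ne, Ideal.absNorm_eq_zero_iff]
    exact hI
  have h8 : (Ideal.absNorm I : ℝ) ^ 2 *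
      (Ideal.absNorm (differentIdeal (𝓞 E) (𝓞 L)) : ℝ) ≤
      (((finrank E L : ℝ) ^ finrank E L) ^ finrank ℚ E *
        (∏ w : InfinitePlace L, W w ^ w.mult) ^ 2) := by
    refine le_of_mul_le_mul_right ?_ hE
    rw [mul_assoc, ← h7]
    exact h4.trans h2
  have hfac : (0 : ℝ) < (finrank E L : ℝ) := by
    exact_mod_cast (finrank_pos : 0 < finrank E L)
  have hprod : 0 < ∏ w : InfinitePlace L, W w ^ w.mult :=
    Finset.prod_pos fun w _ => pow_pos (hW0 w) _
  have h9 := Real.log_le_log (by positivity) h8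
  rw [Real.log_mul (by positivity) hD, Real.log_pow,
    Real.log_mul (by positivity) (by positivity), Real.log_pow, Real.log_pow, Real.log_pow,
    Real.log_prod (fun w _ => (pow_pos (hW0 w) _).ne')] at h9
  have h11 : ∑ w : InfinitePlace L, Real.log (W w ^ w.mult) =
      ∑ w : InfinitePlace L, (w.mult : ℝ) * Real.log (W w) :=
    Finset.sum_congr rfl fun w _ => by rw [Real.log_pow]
  rw [h11] at h9
  have h12 : (finrank ℚ E : ℝ) * (finrank E L * Real.log (finrank E L)) =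
      finrank ℚ L * Real.log (finrank E L) := by
    rw [← mul_assoc, ← Nat.cast_mul, finrank_mul_finrank]
  push_cast at h9
  linarith

/-- the set `V₀` is in the span of a set with values in an ideal and bounded at the infinite
places, with total size `T` -/
def Good (E : Type) [Field E] {L : Type} [Field L] [NumberField L] [Algebra E L] (V₀ : Set L)
    (T : ℝ) : Prop :=
  ∃ (V : Set L) (I : Ideal (𝓞 L)) (W : InfinitePlace L → ℝ),
    V₀ ⊆ Submodule.span E V ∧ I ≠ ⊥ ∧ (∀ x ∈ V, ∃ t : 𝓞 L, t ∈ I ∧ (t : L) = x) ∧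
    (∀ w, 0 < W w) ∧ (∀ x ∈ V, ∀ w : InfinitePlace L, w x ≤ W w) ∧
    ∑ w : InfinitePlace L, (w.mult : ℝ) * Real.log (W w) - Real.log (Ideal.absNorm I) ≤ T

lemma Good.one : Good E ({1} : Set L) 0 := by
  refine ⟨{1}, ⊤, fun _ => 1, Submodule.subset_span, bot_ne_top.symm, ?_, fun _ => one_pos, ?_, ?_⟩
  · rintro x rfl
    exact ⟨1, trivial, by simp⟩
  · rintro x rfl w
    rw [map_one]
  · simp

lemma Good.mul {V₁ V₂ : Set L} {T₁ T₂ : ℝ} (h₁ : Good E V₁ T₁) (h₂ : Good E V₂ T₂) :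
    Good E (V₁ * V₂) (T₁ + T₂) := by
  obtain ⟨U₁, I₁, W₁, a₁, b₁, c₁, d₁, e₁, f₁⟩ := h₁
  obtain ⟨U₂, I₂, W₂, a₂, b₂, c₂, d₂, e₂, f₂⟩ := h₂
  refine ⟨U₁ * U₂, I₁ * I₂, fun w => W₁ w * W₂ w, ?_, mul_ne_zero b₁ b₂, ?_,
    fun w => mul_pos (d₁ w) (d₂ w), ?_, ?_⟩
  · rintro x hx
    obtain ⟨a, ha, b, hb, rfl⟩ := Set.mem_mul.mp hx
    rw [SetLike.mem_coe, ← Submodule.span_mul_span]
    exact Submodule.mul_mem_mul (a₁ ha) (a₂ hb)
  · rintro x hx
    obtain ⟨a, ha, b, hb, rfl⟩ := Set.mem_mul.mp hx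
    obtain ⟨s, hs, hsa⟩ := c₁ a ha
    obtain ⟨t, ht, htb⟩ := c₂ b hb
    exact ⟨s * t, Ideal.mul_mem_mul hs ht, by rw [← hsa, ← htb]; push_cast; rfl⟩
  · rintro x hx w
    obtain ⟨a, ha, b, hb, rfl⟩ := Set.mem_mul.mp hx
    rw [map_mul]
    exact mul_le_mul (e₁ a ha w) (e₂ b hb w) (by positivity) (d₁ w).le
  · have n₁ : (Ideal.absNorm I₁ : ℝ) ≠ 0 := by
      rw [Nat.cast_ne_zero, Ne, Ideal.absNorm_eq_zero_iff]
      exact b₁
    have n₂ : (Ideal.absNorm I₂ : ℝ) ≠ 0 := by
      rw [Nat.cast_ne_zero, Ne, Ideal.absNorm_eq_zero_iff]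
      exact b₂
    have h1 : ∑ w : InfinitePlace L, (w.mult : ℝ) * Real.log (W₁ w * W₂ w) =
        ∑ w : InfinitePlace L, (w.mult : ℝ) * Real.log (W₁ w) +
          ∑ w : InfinitePlace L, (w.mult : ℝ) * Real.log (W₂ w) := by
      rw [← Finset.sum_add_distrib]
      refine Finset.sum_congr rfl fun w _ => ?_
      rw [Real.log_mul (d₁ w).ne' (d₂ w).ne']
      ring
    rw [h1, map_mul]
    push_cast
    rw [Real.log_mul n₁ n₂]
    linarith

lemma Good.prod {ι : Type} (s : Finset ι) {V : ι → Set L} {T : ι → ℝ}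
    (h : ∀ i ∈ s, Good E (V i) (T i)) : Good E (∏ i ∈ s, V i) (∑ i ∈ s, T i) := by
  classical
  induction s using Finset.induction_on with
  | empty =>
    rw [Finset.prod_empty, Finset.sum_empty, ← Set.singleton_one]
    exact Good.one
  | insert i s hi ih =>
    rw [Finset.prod_insert hi, Finset.sum_insert hi]
    exact (h i (Finset.mem_insert_self _ _)).mul
      (ih fun j hj => h j (Finset.mem_insert_of_mem hj))

lemma Good.final {V₀ : Set L} {T : ℝ} (h : Good E V₀ T) (hV : Submodule.span E V₀ = ⊤) :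
    Real.log (Ideal.absNorm (differentIdeal (𝓞 E) (𝓞 L))) ≤
      finrank ℚ L * Real.log (finrank E L) + 2 * T := by
  obtain ⟨U, I, W, a, b, c, d, e, f⟩ := h
  have h1 : Submodule.span E U = ⊤ := by
    rw [eq_top_iff, ← hV]
    exact Submodule.span_le.mpr a
  have h2 := abs_key h1 b c d e
  linarith

/-- the values of the forms of degree `m` -/
def Vals (E : Type) [Field E] {L : Type} [Field L] [Algebra E L] (m : ℕ)
    (z : Fin (N + 1) → L) : Set L :=
  {x | ∃ p : MvPolynomial (Fin (N + 1)) E, p.IsHomogeneous m ∧ x = aeval z p}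

lemma vals_le_span (hF : ∀ i, (F i).IsHomogeneous d)
    (hc : ∀ m, c + d ≤ m → ∀ p : MvPolynomial (Fin (N + 1)) K, p.IsHomogeneous m →
      p ∈ Ideal.span (Set.range F)) (l : List ℕ) (hl : LOK c l) (z : Fin (N + 1) → L) :
    Vals E (ldeg d l) z ⊆ Submodule.span E {x : L | ∃ φ ∈ GG F l, x = aeval z φ} := by
  rintro y ⟨p, hp, rfl⟩
  rw [SetLike.mem_coe, p.as_sum, map_sum]
  refine Submodule.sum_mem _ fun s hs => ?_
  have h1 : s.degree = ldeg d l := by
    have := hp (mem_support_iff.mp hs)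
    rw [← this, Finsupp.degree_eq_weight_one]
    rfl
  have h2 : aeval z (monomial s (coeff s p) : MvPolynomial (Fin (N + 1)) E) =
      coeff s p • aeval z (monomial s 1 : MvPolynomial (Fin (N + 1)) K) := by
    rw [aeval_monomial, aeval_monomial, map_one, one_mul, Algebra.smul_def]
  rw [h2]
  refine Submodule.smul_mem _ _ ?_
  have h3 : (monomial s 1 : MvPolynomial (Fin (N + 1)) K).IsHomogeneous (ldeg d l) :=
    isHomogeneous_monomial _ h1
  have h4 := homSub_le_span hF hc l hl h3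
  refine Submodule.span_induction (p := fun q _ => aeval z q ∈
    Submodule.span E {x : L | ∃ φ ∈ GG F l, x = aeval z φ}) ?_ ?_ ?_ ?_ h4
  · intro φ hφ
    exact Submodule.subset_span ⟨φ, hφ, rfl⟩
  · rw [map_zero]
    exact Submodule.zero_mem _
  · intro x y _ _ hx hy
    rw [map_add]
    exact Submodule.add_mem _ hx hy
  · intro r x _ hx
    rw [map_smul, ← algebraMap_smul E r]
    exact Submodule.smul_mem _ _ hx

/-- one point -/
lemma Good_point (h : HB F d H) (hd : 2 ≤ d) (hF : ∀ i, (F i).IsHomogeneous d)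
    (hint : ∀ i s, IsIntegral ℤ ((F i).coeff s))
    (hc : ∀ m, c + d ≤ m → ∀ p : MvPolynomial (Fin (N + 1)) K, p.IsHomogeneous m →
      p ∈ Ideal.span (Set.range F)) (m : ℕ) (z : Fin (N + 1) → L) (hz : z ≠ 0) :
    Good E (Vals E m z) (finrank ℚ L * (m * canH F d z +
        H * ((c + d : ℕ) * (1 + Nat.log 2 m : ℕ)))) := by
  classical
  obtain ⟨l, hl1, hl2, hl3, hl4⟩ := exists_list (c := c) hd m
  obtain ⟨b, hb, hbz⟩ := exists_denom (K := L) (Finset.univ.image z)
  have hb0 : b ≠ 0 := by omega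
  have hbL : (b : L) ≠ 0 := by exact_mod_cast hb0
  have hbE : (b : E) ≠ 0 := by exact_mod_cast hb0
  have hy : ∀ i, IsIntegral ℤ ((b : L) * z i) := fun i =>
    hbz _ (Finset.mem_image_of_mem _ (Finset.mem_univ i))
  let y : Fin (N + 1) → 𝓞 L := fun i => ⟨(b : L) * z i, hy i⟩
  have hyz : (fun i => (y i : L)) = (b : L) • z := rfl
  have hbz0 : (b : L) • z ≠ 0 := smul_ne_zero hbL hz
  have hit : ∀ j, (act F)^[j] ((b : L) • z) ≠ 0 := h.iter_ne_zero hbz0
  obtain ⟨hI, hlog⟩ := log_IL hint l y (by rw [hyz]; exact hit)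
  rw [hyz] at hI hlog
  refine ⟨{x : L | ∃ φ ∈ GG F l, x = aeval ((b : L) • z) φ}, IL F l ((b : L) • z),
    fun w => wt (nmi w) (act F) l ((b : L) • z), ?_, hI, ?_, ?_, ?_, ?_⟩
  · rintro x ⟨p, hp, rfl⟩
    have h1 : aeval z p = ((b : E) ^ m)⁻¹ • aeval ((b : L) • z) p := by
      rw [aeval_smul_hom hp, Algebra.smul_def, map_inv₀, map_pow, map_natCast,
        inv_mul_cancel_left₀ (pow_ne_zero _ hbL)]
    rw [SetLike.mem_coe, h1]
    refine Submodule.smul_mem _ _ ?_
    refine vals_le_span hF hc l hl2 ((b : L) • z) ?_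
    rw [hl1]
    exact ⟨p, hp, rfl⟩
  · rintro x ⟨φ, hφ, rfl⟩
    obtain ⟨t, ht, hte⟩ := mem_IL (L := L) hint l hφ y
    exact ⟨t, ht, hte⟩
  · exact fun w => wt_pos l fun j => nmi_pos w (hit j)
  · rintro x ⟨φ, hφ, rfl⟩ w
    exact abs_le_wt (w.1.toMonoidWithZeroHom) (fun x => w.1.nonneg x)
      (fun x j => le_nmi w x j) (fun x => nmi_nonneg w x) l hφ _
  · have h2 := h.HL_le hd l hbz0
    rw [canH_smul hF hbL, hl1] at h2
    have h10 := (HasGS.wt (F := F) l hit).2
    rw [hlog]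
    have h3 : (l.sum : ℝ) ≤ ((c + d : ℕ) : ℝ) * ((1 + Nat.log 2 m : ℕ) : ℝ) := by
      exact_mod_cast sum_list_le hl3 hl4
    have h4 := mul_le_mul_of_nonneg_left h3 h.nonneg
    have h5 := mul_le_mul_of_nonneg_left h4 (Nat.cast_nonneg (α := ℝ) (finrank ℚ L))
    nlinarith

end

end Pool.Agent.D0H75.RD
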