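import Mathlib
import Pool.Agent.D0H75.RD.Mul
import Pool.Agent.D0H75.RD.FinalU

/-!
Several points of several maps.
-/

set_option autoImplicit false
set_option linter.unusedSectionVars false

namespace Pool.Agent.D0H75.RD

open NumberField Module MvPolynomial Filter Topology
open Pool.Agent.W238.Leh
open scoped Pointwise

noncomputable section

/-- what is needed of a map -/
structure Pk {K : Type} [Field K] [NumberField K] {N : ℕ}
    (F : Fin (N + 1) → MvPolynomial (Fin (N + 1)) K) (d : ℕ) (C : ℝ) : Prop where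
  pos : 4 ≤ C
  nonneg : ∀ (L : Type) [Field L] [NumberField L] [Algebra K L] (z : Fin (N + 1) → L), z ≠ 0 →
    0 ≤ canH F d z
  lim : ∀ (L : Type) [Field L] [NumberField L] [Algebra K L] (z : Fin (N + 1) → L), z ≠ 0 →
    Tendsto (fun n : ℕ => Height.logHeight ((act F)^[n] z) /
      ((finrank ℚ L : ℝ) * (d : ℝ) ^ n)) atTop (𝓝 (canH F d z))
  preper : ∀ (L : Type) [Field L] [NumberField L] [Algebra K L] (z : Fin (N + 1) → L), z ≠ 0 →
    (∃ m n : ℕ, m ≠ n ∧ ∃ c : L, c ≠ 0 ∧ (act F)^[n] z = c • (act F)^[m] z) → canH F d z = 0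
  good : ∀ (E L : Type) [Field E] [NumberField E] [Field L] [NumberField L]
    [Algebra K E] [Algebra K L] [Algebra E L] [IsScalarTower K E L] (m : ℕ)
    (z : Fin (N + 1) → L), z ≠ 0 →
    Good E (Vals E m z) (finrank ℚ L * (m * canH F d z + C * (1 + Real.log m)))
  step : ∀ (E L : Type) [Field E] [NumberField E] [Field L] [NumberField L]
    [Algebra K E] [Algebra K L] [Algebra E L] [IsScalarTower K E L] (M : IntermediateField E L)
    (z : Fin (N + 1) → L), z ≠ 0 → M ⊔ ptf E z ≠ M →
    2 ≤ (finrank E (M ⊔ ptf E z : IntermediateField E L) : ℝ) / finrank E M ∧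
    rd (M ⊔ ptf E z : IntermediateField E L) ≤ rd M +
      2 * ((finrank E (M ⊔ ptf E z : IntermediateField E L) : ℝ) / finrank E M * canH F d z +
        C * Real.log ((finrank E (M ⊔ ptf E z : IntermediateField E L) : ℝ) / finrank E M))

lemma Good.mono {E L : Type} [Field E] [Field L] [NumberField L] [Algebra E L] {V : Set L}
    {T T' : ℝ} (h : Good E V T) (hT : T ≤ T') : Good E V T' := by
  obtain ⟨U, I, W, a, b, c, d, e, f⟩ := h
  exact ⟨U, I, W, a, b, c, d, e, f.trans hT⟩

/-- every map has the properties -/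
theorem exists_Pk (N d : ℕ) (hd : 2 ≤ d) : ∃ c : ℝ, 4 ≤ c ∧
    ∀ (K : Type) [Field K] [NumberField K]
    (F : Fin (N + 1) → MvPolynomial (Fin (N + 1)) K), (∀ i, (F i).IsHomogeneous d) →
    (∀ z : Fin (N + 1) → AlgebraicClosure K, (∀ i, aeval z (F i) = 0) → z = 0) →
    Pk F d (c * (1 + hF0 d F)) := by
  classical
  obtain ⟨c', hc', hgen⟩ := generalU N d hd
  obtain ⟨e₀, he₀, huni⟩ := exists_uniform N d
  set A : ℝ := Real.log (Fintype.card (Mn N d)) +
    Real.log (Fintype.card (Mn N e₀) * (Fintype.card (Mn N e₀)).factorial) +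
      Fintype.card (Mn N e₀) with hA
  have hr1 : (1 : ℝ) ≤ Fintype.card (Mn N e₀) := by
    exact_mod_cast (Fintype.card_pos : 0 < Fintype.card (Mn N e₀))
  have hμ1 : (1 : ℝ) ≤ Fintype.card (Mn N d) := by
    exact_mod_cast (Fintype.card_pos : 0 < Fintype.card (Mn N d))
  have hf1 : (1 : ℝ) ≤ (Fintype.card (Mn N e₀)).factorial := by
    exact_mod_cast Nat.factorial_pos _
  have hl1 : 0 ≤ Real.log (Fintype.card (Mn N d)) := Real.log_nonneg hμ1
  have hl2 : 0 ≤ Real.log (Fintype.card (Mn N e₀) * (Fintype.card (Mn N e₀)).factorial) :=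
    Real.log_nonneg (by nlinarith)
  have hA0 : 0 ≤ A := by
    rw [hA]
    linarith
  have hAd : 0 ≤ A * (e₀ + d : ℕ) := mul_nonneg hA0 (Nat.cast_nonneg _)
  refine ⟨5 + 3 * (A * (e₀ + d : ℕ)), by linarith, fun K _ _ F hF hmor => ?_⟩
  -- integral forms
  set T : Finset K := Finset.univ.biUnion fun i => (F i).support.image (F i).coeff with hT
  obtain ⟨a, ha, haT⟩ := exists_denom T
  have haK : (a : K) ≠ 0 := by
    have : a ≠ 0 := by omega
    exact_mod_cast this
  set F' : Fin (N + 1) → MvPolynomial (Fin (N + 1)) K := fun i => C (a : K) * F i with hF'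
  have hhom : ∀ i, (F' i).IsHomogeneous d := by
    intro i
    have h7 := (isHomogeneous_C (Fin (N + 1)) (a : K)).mul (hF i)
    rwa [zero_add] at h7
  have hint : ∀ i s, IsIntegral ℤ ((F' i).coeff s) := by
    intro i s
    simp only [hF', coeff_C_mul]
    by_cases hs : s ∈ (F i).support
    · apply haT
      rw [hT]
      simp only [Finset.mem_biUnion, Finset.mem_image]
      exact ⟨i, Finset.mem_univ _, s, hs, rfl⟩
    · rw [notMem_support_iff.mp hs, mul_zero]
      exact isIntegral_zero
  have hmor' : ∀ z : Fin (N + 1) → AlgebraicClosure K, (∀ i, aeval z (F' i) = 0) → z = 0 := by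
    intro z hz
    apply hmor
    intro i
    have h1 := hz i
    simp only [hF', map_mul, aeval_C] at h1
    refine (mul_eq_zero.mp h1).resolve_left ?_
    rw [map_natCast]
    have : a ≠ 0 := by omega
    exact_mod_cast this
  have hPM := huni K F' hhom hmor'
  have hc : ∀ m, e₀ + d ≤ m → ∀ p : MvPolynomial (Fin (N + 1)) K, p.IsHomogeneous m →
      p ∈ Ideal.span (Set.range F') := fun m hm p hp =>
    mem_of_PM hhom he₀ hPM m (by omega) p hp
  have hB := HB_of_PM hhom he₀ hPM
  have hh : hF0 d F' = hF0 d F := by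
    have h1 : cf d F' = (a : K) • cf d F := by
      funext p
      simp only [cf, hF', coeff_C_mul, Pi.smul_apply, smul_eq_mul]
    rw [hF0, hF0, h1, Height.logHeight_smul_eq_logHeight _ haK]
  rw [hh] at hB
  have hh0 : 0 ≤ hF0 d F := hF0_nonneg
  have hC : 4 + cstU (HH N d e₀ (hF0 d F)) e₀ d ≤
      (5 + 3 * (A * (e₀ + d : ℕ))) * (1 + hF0 d F) := by
    have h1 : HH N d e₀ (hF0 d F) ≤ A * (1 + hF0 d F) := by
      rw [HH, hA]
      have h2 := mul_nonneg hl1 hh0
      have h3 := mul_nonneg hl2 hh0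
      nlinarith
    have h2 := mul_le_mul_of_nonneg_right h1 (Nat.cast_nonneg (α := ℝ) (e₀ + d))
    rw [cstU]
    nlinarith
  set CC := (5 + 3 * (A * (e₀ + d : ℕ))) * (1 + hF0 d F) with hCC
  have hact : ∀ (L : Type) [Field L] [NumberField L] [Algebra K L] (z : Fin (N + 1) → L),
      act F' z = (a : L) • act F z := by
    intro L _ _ _ z
    funext i
    simp only [act, hF', map_mul, map_natCast, Pi.smul_apply, smul_eq_mul]
  have hiter : ∀ (L : Type) [Field L] [NumberField L] [Algebra K L] (n : ℕ)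
      (z : Fin (N + 1) → L), ∃ c : L, c ≠ 0 ∧ (act F')^[n] z = c • (act F)^[n] z := by
    intro L _ _ _ n z
    have haL : (a : L) ≠ 0 := by
      have : a ≠ 0 := by omega
      exact_mod_cast this
    induction n with
    | zero => exact ⟨1, one_ne_zero, by simp⟩
    | succ n ih =>
      obtain ⟨c, hc, h⟩ := ih
      refine ⟨a * c ^ d, mul_ne_zero haL (pow_ne_zero _ hc), ?_⟩
      rw [Function.iterate_succ_apply', Function.iterate_succ_apply', h, hact,
        act_smul hF, smul_smul]
  have hseq : ∀ (L : Type) [Field L] [NumberField L] [Algebra K L] (z : Fin (N + 1) → L),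
      (fun n : ℕ => Height.logHeight ((act F')^[n] z) /
      ((finrank ℚ L : ℝ) * (d : ℝ) ^ n)) = fun n : ℕ => Height.logHeight ((act F)^[n] z) /
      ((finrank ℚ L : ℝ) * (d : ℝ) ^ n) := by
    intro L _ _ _ z
    funext n
    obtain ⟨c, hc, h⟩ := hiter L n z
    rw [h, Height.logHeight_smul_eq_logHeight _ hc]
  have hcan : ∀ (L : Type) [Field L] [NumberField L] [Algebra K L] (z : Fin (N + 1) → L),
      canH F' d z = canH F d z := by
    intro L _ _ _ z
    unfold canH
    rw [hseq]
  have hcst : 0 ≤ HH N d e₀ (hF0 d F) * (e₀ + d : ℕ) := mul_nonneg hB.nonneg (Nat.cast_nonneg _)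
  refine ⟨?_, ?_, ?_, ?_, ?_, ?_⟩
  · unfold cstU at hC
    linarith
  · intro L _ _ _ z hz
    rw [← hcan]
    exact hB.canH_nonneg hd hz
  · intro L _ _ _ z hz
    rw [← hcan, ← hseq]
    exact hB.canH_tendsto hd hz
  · intro L _ _ _ z hz hp
    exact (hgen K F hF hmor K L).2.2.2.2 z hz hp
  · intro E L _ _ _ _ _ _ _ _ m z hz
    have h1 := Good_point (E := E) hB hd hhom hint hc m z hz
    rw [hcan] at h1
    refine h1.mono (mul_le_mul_of_nonneg_left ?_ (Nat.cast_nonneg _))
    have h2 : ((1 + Nat.log 2 m : ℕ) : ℝ) ≤ 3 * (1 + Real.log m) := by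
      rcases Nat.eq_zero_or_pos m with rfl | hm
      · simp
      · have h3 : ((Nat.log 2 m : ℕ) : ℝ) ≤ Real.logb 2 m := Real.natLog_le_logb _ _
        rw [Real.logb] at h3
        have h4 := Real.log_two_gt_d9
        have h5 : Real.log m / Real.log 2 * Real.log 2 = Real.log m :=
          div_mul_cancel₀ _ (by positivity)
        have h6 : 0 ≤ Real.log m := Real.log_nonneg (by exact_mod_cast hm)
        have h7 : 0 ≤ Real.log m / Real.log 2 := by positivity
        push_cast
        nlinarith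
    have h3 := mul_le_mul_of_nonneg_left h2 hcst
    have h4 : 0 ≤ 1 + Real.log (m : ℝ) := by
      have := Real.log_natCast_nonneg m
      linarith
    have h5 := mul_le_mul_of_nonneg_right hC h4
    unfold cstU at h5
    nlinarith
  · intro E L _ _ _ _ _ _ _ _ M z hz hM
    have h1 := stepU (E := E) hB hd hhom hint hc M z hz hM
    rw [hcan] at h1
    refine ⟨h1.1, h1.2.trans ?_⟩
    have h2 : 0 ≤ Real.log ((finrank E (M ⊔ ptf E z : IntermediateField E L) : ℝ) /
        finrank E M) := Real.log_nonneg (by linarith [h1.1])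
    have h3 := mul_le_mul_of_nonneg_right hC h2
    linarith

end

end Pool.Agent.D0H75.RD
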