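import Mathlib
import Pool.Agent.D0H75.RD.Pack

/-!
Several points of several maps: products of forms, and fields generated by points.
-/

set_option autoImplicit false
set_option linter.unusedSectionVars false

namespace Pool.Agent.D0H75.RD

open NumberField Module MvPolynomial Filter Topology
open Pool.Agent.W238.Leh
open scoped Pointwise

noncomputable section

variable {K : Type} [Field K] [NumberField K]
variable {E : Type} [Field E] [NumberField E] [Algebra K E]
variable {L : Type} [Field L] [NumberField L] [Algebra K L] [Algebra E L] [IsScalarTower K E L]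

/-- several points, products of forms -/
theorem multi {ι : Type} [Fintype ι] {N d : ι → ℕ}
    {F : ∀ i, Fin (N i + 1) → MvPolynomial (Fin (N i + 1)) K} {C : ι → ℝ}
    (hP : ∀ i, Pk (F i) (d i) (C i)) (m : ι → ℕ) (z : ∀ i, Fin (N i + 1) → L)
    (hz : ∀ i, z i ≠ 0)
    (hspan : Submodule.span E {x : L | ∃ p : ∀ i, MvPolynomial (Fin (N i + 1)) E,
      (∀ i, (p i).IsHomogeneous (m i)) ∧ x = ∏ i, aeval (z i) (p i)} = ⊤) :
    Real.log (Ideal.absNorm (differentIdeal (𝓞 E) (𝓞 L))) ≤
      2 * finrank ℚ L * (Real.log (finrank E L) / 2 +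
        ∑ i, (m i * canH (F i) (d i) (z i) + C i * (1 + Real.log (m i)))) := by
  classical
  have h1 : Good E (∏ i, Vals E (m i) (z i)) (∑ i, (finrank ℚ L * (m i * canH (F i) (d i) (z i) +
      C i * (1 + Real.log (m i))))) :=
    Good.prod Finset.univ fun i _ => (hP i).good E L (m i) (z i) (hz i)
  have h2 : {x : L | ∃ p : ∀ i, MvPolynomial (Fin (N i + 1)) E,
      (∀ i, (p i).IsHomogeneous (m i)) ∧ x = ∏ i, aeval (z i) (p i)} ⊆
      ∏ i, Vals E (m i) (z i) := by
    rintro x ⟨p, hp, rfl⟩
    rw [Set.mem_fintype_prod]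
    exact ⟨fun i => aeval (z i) (p i), fun {i} => ⟨p i, hp i, rfl⟩, rfl⟩
  have h3 := h1.final (by
    rw [eq_top_iff, ← hspan]
    exact Submodule.span_mono h2)
  rw [← Finset.mul_sum] at h3
  linarith

section tower

variable {N d : ℕ → ℕ} {F : ∀ s, Fin (N s + 1) → MvPolynomial (Fin (N s + 1)) K} {C : ℕ → ℝ}

/-- the field generated by the first `t` points -/
def genD (E : Type) [Field E] {L : Type} [Field L] [Algebra E L] {N : ℕ → ℕ}
    (z : ∀ s, Fin (N s + 1) → L) (t : ℕ) : IntermediateField E L :=
  IntermediateField.adjoin E {x : L | ∃ s < t, ∃ i j, x = z s i / z s j}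

lemma genD_succ (z : ∀ s, Fin (N s + 1) → L) (t : ℕ) :
    genD E z (t + 1) = genD E z t ⊔ ptf E (z t) := by
  unfold genD ptf
  rw [← IntermediateField.adjoin_union]
  congr 1
  ext x
  constructor
  · rintro ⟨s, hs, i, j, rfl⟩
    rcases Nat.lt_succ_iff_lt_or_eq.mp hs with h1 | rfl
    · exact Or.inl ⟨s, h1, i, j, rfl⟩
    · exact Or.inr ⟨i, j, rfl⟩
  · rintro (⟨s, hs, i, j, rfl⟩ | ⟨i, j, rfl⟩)
    · exact ⟨s, by omega, i, j, rfl⟩
    · exact ⟨t, by omega, i, j, rfl⟩

lemma genD_zero (z : ∀ s, Fin (N s + 1) → L) : genD E z 0 = ⊥ := by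
  unfold genD
  rw [eq_bot_iff, IntermediateField.adjoin_le_iff]
  rintro x ⟨s, hs, _⟩
  omega

open Classical in
/-- the cost of a step -/
def costD (F : ∀ s, Fin (N s + 1) → MvPolynomial (Fin (N s + 1)) K) (d : ℕ → ℕ) (E : Type)
    [Field E] [Algebra E L] (z : ∀ s, Fin (N s + 1) → L) (t : ℕ) : ℝ :=
  if genD E z (t + 1) = genD E z t then 0
  else (finrank E (genD E z (t + 1)) : ℝ) / finrank E (genD E z t) * canH (F t) (d t) (z t)

lemma towerD (z : ∀ s, Fin (N s + 1) → L) (k : ℕ) (hP : ∀ s < k, Pk (F s) (d s) (C s)) {C₀ : ℝ}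
    (hC : ∀ s < k, C s ≤ C₀) (hz : ∀ s < k, z s ≠ 0) :
    rd (genD E z k) ≤ rd E + 2 * (∑ s ∈ Finset.range k, costD F d E z s +
      C₀ * Real.log (finrank E (genD E z k))) := by
  induction k with
  | zero =>
    have h1 : rd (genD E z 0) = rd E := by
      rw [genD_zero]
      exact rd_congr (IntermediateField.botEquiv E L).toRingEquiv
    rw [h1, genD_zero]
    simp
  | succ k ih =>
    have ih' := ih (fun s hs => hP s (by omega)) (fun s hs => hC s (by omega))
      fun s hs => hz s (by omega)
    rw [Finset.sum_range_succ]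
    by_cases hk : genD E z (k + 1) = genD E z k
    · have h2 : costD F d E z k = 0 := by
        unfold costD
        rw [if_pos hk]
      rw [h2, hk, add_zero]
      exact ih'
    · have h2 : costD F d E z k = (finrank E (genD E z (k + 1)) : ℝ) / finrank E (genD E z k) *
          canH (F k) (d k) (z k) := by
        unfold costD
        rw [if_neg hk]
      have h3 := (hP k (by omega)).step E L (genD E z k) (z k) (hz k (by omega))
        (by rw [← genD_succ]; exact hk)
      rw [← genD_succ] at h3
      rw [h2]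
      have h4 : (0 : ℝ) < finrank E (genD E z (k + 1)) := by
        exact_mod_cast (finrank_pos : 0 < finrank E (genD E z (k + 1)))
      have h5 : (0 : ℝ) < finrank E (genD E z k) := by
        exact_mod_cast (finrank_pos : 0 < finrank E (genD E z k))
      have h6 := h3.2
      have h7 : 0 ≤ Real.log ((finrank E (genD E z (k + 1)) : ℝ) / finrank E (genD E z k)) :=
        Real.log_nonneg (by linarith [h3.1])
      have h8 := mul_le_mul_of_nonneg_right (hC k (by omega)) h7
      rw [Real.log_div h4.ne' h5.ne'] at h6 h8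
      linarith

lemma costD_le (z : ∀ s, Fin (N s + 1) → L) (t : ℕ) (hP : Pk (F t) (d t) (C t)) (hz : z t ≠ 0)
    {B : ℝ} (hB : 0 ≤ B)
    (hzB : (finrank E (ptf E (z t)) : ℝ) * canH (F t) (d t) (z t) ≤ B) :
    costD F d E z t ≤ 2 * B * (Real.log (finrank E (genD E z (t + 1))) -
      Real.log (finrank E (genD E z t))) := by
  unfold costD
  split_ifs with ht
  · rw [ht]
    simp
  · have h4 : (0 : ℝ) < finrank E (genD E z (t + 1)) := by
      exact_mod_cast (finrank_pos : 0 < finrank E (genD E z (t + 1)))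
    have h5 : (0 : ℝ) < finrank E (genD E z t) := by
      exact_mod_cast (finrank_pos : 0 < finrank E (genD E z t))
    have h6 : finrank E (genD E z (t + 1)) ≤ finrank E (genD E z t) * finrank E (ptf E (z t)) := by
      rw [genD_succ]
      exact IntermediateField.finrank_sup_le _ _
    have h7 : (finrank E (genD E z (t + 1)) : ℝ) / finrank E (genD E z t) ≤
        finrank E (ptf E (z t)) := by
      rw [div_le_iff₀' h5]
      exact_mod_cast h6
    have h8 := (hP.step E L (genD E z t) (z t) hz (by rw [← genD_succ]; exact ht)).1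
    rw [← genD_succ] at h8
    have h9 := hP.nonneg L (z t) hz
    have h10 : (finrank E (genD E z (t + 1)) : ℝ) / finrank E (genD E z t) *
        canH (F t) (d t) (z t) ≤ B :=
      (mul_le_mul_of_nonneg_right h7 h9).trans hzB
    refine h10.trans ?_
    rw [← Real.log_div h4.ne' h5.ne']
    have h11 : Real.log 2 ≤ Real.log ((finrank E (genD E z (t + 1)) : ℝ) /
        finrank E (genD E z t)) := Real.log_le_log (by norm_num) h8
    have h12 := Real.log_two_gt_d9
    nlinarith

lemma sum_costD_le (z : ∀ s, Fin (N s + 1) → L) (k : ℕ) (hP : ∀ s < k, Pk (F s) (d s) (C s))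
    (hz : ∀ s < k, z s ≠ 0) {B : ℝ} (hB : 0 ≤ B)
    (hzB : ∀ s < k, (finrank E (ptf E (z s)) : ℝ) * canH (F s) (d s) (z s) ≤ B) :
    ∑ s ∈ Finset.range k, costD F d E z s ≤ 2 * B * Real.log (finrank E (genD E z k)) := by
  induction k with
  | zero =>
    rw [genD_zero]
    simp
  | succ k ih =>
    rw [Finset.sum_range_succ]
    have h1 := ih (fun s hs => hP s (by omega)) (fun s hs => hz s (by omega))
      fun s hs => hzB s (by omega)
    have h2 := costD_le (E := E) z k (hP k (by omega)) (hz k (by omega)) hB (hzB k (by omega))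
    linarith

/-- fields generated by points -/
theorem smallD (z : ∀ s, Fin (N s + 1) → L) (k : ℕ) (hP : ∀ s < k, Pk (F s) (d s) (C s)) {C₀ : ℝ}
    (hC : ∀ s < k, C s ≤ C₀) (hz : ∀ s < k, z s ≠ 0) (hgen : genD E z k = ⊤) :
    Real.log (Ideal.absNorm (differentIdeal (𝓞 E) (𝓞 L))) ≤
      2 * finrank ℚ L * (∑ s ∈ Finset.range k, costD F d E z s +
        C₀ * Real.log (finrank E L)) := by
  have h1 := towerD (E := E) z k hP hC hz
  have h2 : rd (genD E z k) = rd L := by
    rw [hgen]
    exact rd_congr (IntermediateField.topEquiv (F := E) (E := L)).toRingEquiv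
  have h3 : finrank E (genD E z k) = finrank E L := by
    rw [hgen]
    exact IntermediateField.finrank_top'
  rw [h2, h3] at h1
  rw [rd_tower]
  have hn := finrank_pos' (L := L)
  have h4 : rd L - rd E ≤ 2 * (∑ s ∈ Finset.range k, costD F d E z s +
      C₀ * Real.log (finrank E L)) := by linarith
  refine (mul_le_mul_of_nonneg_left h4 hn.le).trans (le_of_eq ?_)
  ring

end tower

end

end Pool.Agent.D0H75.RD
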