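import Mathlib
import Pool.Agent.D0H75.RD.Tow
import Pool.Agent.W238.Leh.General

/-!
The general form, for forms with arbitrary coefficients.
-/

set_option autoImplicit false
set_option linter.unusedSectionVars false

namespace Pool.Agent.D0H75.RD

open NumberField Module MvPolynomial Filter Topology
open Pool.Agent.W238.Leh

noncomputable section

/-- everything, for forms with integral coefficients -/
lemma all_int {K : Type} [Field K] [NumberField K] {N d : ℕ} (hd : 2 ≤ d)
    {F : Fin (N + 1) → MvPolynomial (Fin (N + 1)) K} (hF : ∀ i, (F i).IsHomogeneous d)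
    (hint : ∀ i s, IsIntegral ℤ ((F i).coeff s))
    (hmor : ∀ z : Fin (N + 1) → AlgebraicClosure K, (∀ i, aeval z (F i) = 0) → z = 0) :
    ∃ C : ℝ, 4 ≤ C ∧ ∀ (E L : Type) [Field E] [NumberField E] [Field L] [NumberField L]
      [Algebra K E] [Algebra K L] [Algebra E L] [IsScalarTower K E L],
      (∀ z : Fin (N + 1) → L, z ≠ 0 →
        0 ≤ canH F d z ∧
        Tendsto (fun n : ℕ => Height.logHeight ((act F)^[n] z) /
          ((finrank ℚ L : ℝ) * (d : ℝ) ^ n)) atTop (𝓝 (canH F d z))) ∧
      (∀ (m : ℕ) (z : Fin (N + 1) → L), z ≠ 0 →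
        (∀ y : L, ∃ p : MvPolynomial (Fin (N + 1)) E, p.IsHomogeneous m ∧ aeval z p = y) →
        Real.log (Ideal.absNorm (differentIdeal (𝓞 E) (𝓞 L))) ≤
          2 * finrank ℚ L * (m * canH F d z + Real.log (finrank E L) +
            C * (1 + Real.log m))) ∧
      (∀ (k : ℕ) (z : ℕ → Fin (N + 1) → L), (∀ s < k, z s ≠ 0) → gen E z k = ⊤ →
        Real.log (Ideal.absNorm (differentIdeal (𝓞 E) (𝓞 L))) ≤
          2 * finrank ℚ L * (∑ s ∈ Finset.range k, cost F d E z s +
            C * Real.log (finrank E L))) ∧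
      (∀ (k : ℕ) (z : ℕ → Fin (N + 1) → L), (∀ s < k, z s ≠ 0) → gen E z k = ⊤ →
        ∀ B : ℝ, 0 ≤ B → (∀ s < k, (finrank E (ptf E (z s)) : ℝ) * canH F d (z s) ≤ B) →
        Real.log (Ideal.absNorm (differentIdeal (𝓞 E) (𝓞 L))) ≤
          2 * finrank ℚ L * (C * (1 + B) * Real.log (finrank E L))) := by
  classical
  obtain ⟨e, he⟩ := exists_mem_span hmor
  have hc : ∀ m, e + d ≤ m → ∀ p : MvPolynomial (Fin (N + 1)) K, p.IsHomogeneous m →
      p ∈ Ideal.span (Set.range F) := fun m hm => he m (by omega)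
  obtain ⟨A, a, hB⟩ := exists_bds (show 1 ≤ d by omega) hF hint hc
  have hcst : 0 ≤ hC A a * (e + d : ℕ) := mul_nonneg hB.hC_nonneg (Nat.cast_nonneg _)
  refine ⟨4 + cst A a e d, by unfold cst; linarith, fun E L _ _ _ _ _ _ _ _ => ⟨?_, ?_, ?_, ?_⟩⟩
  · intro z hz
    exact ⟨hB.canH_nonneg hd hz, hB.canH_tendsto hd hz⟩
  · intro m z hz hspan
    have h1 := key (E := E) hB hd hF hint hc m z hz hspan
    have hn := finrank_pos' (L := L)
    refine h1.trans (mul_le_mul_of_nonneg_left ?_ (by positivity))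
    have h2 : ((1 + Nat.log 2 m : ℕ) : ℝ) ≤ 3 * (1 + Real.log m) := by
      rcases Nat.eq_zero_or_pos m with rfl | hm
      · simp
      · have h3 : ((Nat.log 2 m : ℕ) : ℝ) ≤ Real.logb 2 m := Real.natLog_le_logb _ _
        rw [Real.logb] at h3
        have h4 := Real.log_two_gt_d9
        have h5 : Real.log m / Real.log 2 * Real.log 2 = Real.log m :=
          div_mul_cancel₀ _ (by positivity)
        have h6 : 0 ≤ Real.log m := Real.log_nonneg (by exact_mod_cast hm)
        have h7 : 0 ≤ Real.log m / Real.log 2 := by positivity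
        push_cast
        nlinarith
    have h3 := mul_le_mul_of_nonneg_left h2 hcst
    have h4 : 0 ≤ 1 + Real.log (m : ℝ) := by
      have := Real.log_natCast_nonneg m
      linarith
    unfold cst
    nlinarith
  · intro k z hz hgen
    have h1 := small (E := E) hB hd hF hint hc z k hz hgen
    have hn := finrank_pos' (L := L)
    refine h1.trans (mul_le_mul_of_nonneg_left ?_ (by positivity))
    have h2 := Real.log_natCast_nonneg (finrank E L)
    linarith
  · intro k z hz hgen B hB0 hzB
    have h1 := small (E := E) hB hd hF hint hc z k hz hgen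
    have h2 := sum_cost_le (E := E) hB hd z k hz hB0 hzB
    rw [hgen, IntermediateField.finrank_top'] at h2
    have hn := finrank_pos' (L := L)
    refine h1.trans (mul_le_mul_of_nonneg_left ?_ (by positivity))
    have h3 := Real.log_natCast_nonneg (finrank E L)
    have h4 : 0 ≤ cst A a e d := by unfold cst; linarith
    have h5 : 0 ≤ B * Real.log (finrank E L) := mul_nonneg hB0 h3
    have h6 : 0 ≤ cst A a e d * (B * Real.log (finrank E L)) := mul_nonneg h4 h5
    nlinarith

/-- everything -/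
theorem general (K : Type) [Field K] [NumberField K] (N d : ℕ) (hd : 2 ≤ d)
    (F : Fin (N + 1) → MvPolynomial (Fin (N + 1)) K) (hF : ∀ i, (F i).IsHomogeneous d)
    (hmor : ∀ z : Fin (N + 1) → AlgebraicClosure K, (∀ i, aeval z (F i) = 0) → z = 0) :
    ∃ C : ℝ, 4 ≤ C ∧ ∀ (E L : Type) [Field E] [NumberField E] [Field L] [NumberField L]
      [Algebra K E] [Algebra K L] [Algebra E L] [IsScalarTower K E L],
      (∀ z : Fin (N + 1) → L, z ≠ 0 →
        0 ≤ canH F d z ∧
        Tendsto (fun n : ℕ => Height.logHeight ((act F)^[n] z) /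
          ((finrank ℚ L : ℝ) * (d : ℝ) ^ n)) atTop (𝓝 (canH F d z))) ∧
      (∀ (m : ℕ) (z : Fin (N + 1) → L), z ≠ 0 →
        (∀ y : L, ∃ p : MvPolynomial (Fin (N + 1)) E, p.IsHomogeneous m ∧ aeval z p = y) →
        Real.log (Ideal.absNorm (differentIdeal (𝓞 E) (𝓞 L))) ≤
          2 * finrank ℚ L * (m * canH F d z + Real.log (finrank E L) +
            C * (1 + Real.log m))) ∧
      (∀ (k : ℕ) (z : ℕ → Fin (N + 1) → L), (∀ s < k, z s ≠ 0) → gen E z k = ⊤ →
        Real.log (Ideal.absNorm (differentIdeal (𝓞 E) (𝓞 L))) ≤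
          2 * finrank ℚ L * (∑ s ∈ Finset.range k, cost F d E z s +
            C * Real.log (finrank E L))) ∧
      (∀ (k : ℕ) (z : ℕ → Fin (N + 1) → L), (∀ s < k, z s ≠ 0) → gen E z k = ⊤ →
        ∀ B : ℝ, 0 ≤ B → (∀ s < k, (finrank E (ptf E (z s)) : ℝ) * canH F d (z s) ≤ B) →
        Real.log (Ideal.absNorm (differentIdeal (𝓞 E) (𝓞 L))) ≤
          2 * finrank ℚ L * (C * (1 + B) * Real.log (finrank E L))) ∧
      (∀ z : Fin (N + 1) → L, z ≠ 0 → (∃ m n : ℕ, m ≠ n ∧ ∃ c : L, c ≠ 0 ∧
        (act F)^[n] z = c • (act F)^[m] z) → canH F d z = 0) := by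
  classical
  -- integral forms
  set T : Finset K := Finset.univ.biUnion fun i => (F i).support.image (F i).coeff with hT
  obtain ⟨a, ha, haT⟩ := exists_denom T
  have haK : (a : K) ≠ 0 := by
    have : a ≠ 0 := by omega
    exact_mod_cast this
  set F' : Fin (N + 1) → MvPolynomial (Fin (N + 1)) K := fun i => C (a : K) * F i with hF'
  have hhom : ∀ i, (F' i).IsHomogeneous d := by
    intro i
    have h7 := (isHomogeneous_C (Fin (N + 1)) (a : K)).mul (hF i)
    rwa [zero_add] at h7
  have hint : ∀ i s, IsIntegral ℤ ((F' i).coeff s) := by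
    intro i s
    simp only [hF', coeff_C_mul]
    by_cases hs : s ∈ (F i).support
    · apply haT
      rw [hT]
      simp only [Finset.mem_biUnion, Finset.mem_image]
      exact ⟨i, Finset.mem_univ _, s, hs, rfl⟩
    · rw [notMem_support_iff.mp hs, mul_zero]
      exact isIntegral_zero
  have hmor' : ∀ z : Fin (N + 1) → AlgebraicClosure K, (∀ i, aeval z (F' i) = 0) → z = 0 := by
    intro z hz
    apply hmor
    intro i
    have h1 := hz i
    simp only [hF', map_mul, aeval_C] at h1
    refine (mul_eq_zero.mp h1).resolve_left ?_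
    rw [map_natCast]
    have : a ≠ 0 := by omega
    exact_mod_cast this
  obtain ⟨C, hC, hconcl⟩ := all_int hd hhom hint hmor'
  refine ⟨C, hC, fun E L _ _ _ _ _ _ _ _ => ?_⟩
  have haL : (a : L) ≠ 0 := by
    have : a ≠ 0 := by omega
    exact_mod_cast this
  have hact : ∀ z : Fin (N + 1) → L, act F' z = (a : L) • act F z := by
    intro z
    funext i
    simp only [act, hF', map_mul, map_natCast, Pi.smul_apply, smul_eq_mul]
  have hiter : ∀ (n : ℕ) (z : Fin (N + 1) → L), ∃ c : L, c ≠ 0 ∧
      (act F')^[n] z = c • (act F)^[n] z := by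
    intro n z
    induction n with
    | zero => exact ⟨1, one_ne_zero, by simp⟩
    | succ n ih =>
      obtain ⟨c, hc, h⟩ := ih
      refine ⟨a * c ^ d, mul_ne_zero haL (pow_ne_zero _ hc), ?_⟩
      rw [Function.iterate_succ_apply', Function.iterate_succ_apply', h, hact,
        act_smul hF, smul_smul]
  have hseq : ∀ z : Fin (N + 1) → L, (fun n : ℕ => Height.logHeight ((act F')^[n] z) /
      ((finrank ℚ L : ℝ) * (d : ℝ) ^ n)) = fun n : ℕ => Height.logHeight ((act F)^[n] z) /
      ((finrank ℚ L : ℝ) * (d : ℝ) ^ n) := by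
    intro z
    funext n
    obtain ⟨c, hc, h⟩ := hiter n z
    rw [h, Height.logHeight_smul_eq_logHeight _ hc]
  have hcan : ∀ z : Fin (N + 1) → L, canH F' d z = canH F d z := by
    intro z
    unfold canH
    rw [hseq]
  have hcost : ∀ (z : ℕ → Fin (N + 1) → L) (s : ℕ), cost F' d E z s = cost F d E z s := by
    intro z s
    unfold cost
    rw [hcan]
  obtain ⟨h1, h2, h3, h4⟩ := hconcl E L
  simp only [hcan, hcost, hseq] at h1 h2 h3 h4
  refine ⟨h1, h2, h3, h4, ?_⟩
  rintro z hz ⟨m, n, hmn, c, hc, h⟩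
  obtain ⟨c₁, hc₁, e₁⟩ := hiter n z
  obtain ⟨c₂, hc₂, e₂⟩ := hiter m z
  -- heights along the orbit
  have hH : ∀ (u v : ℕ) (e : L), e ≠ 0 → (act F)^[u] z = e • (act F)^[v] z → ∀ j : ℕ,
      Height.logHeight ((act F)^[j + u] z) = Height.logHeight ((act F)^[j + v] z) := by
    intro u v e he huv j
    obtain ⟨e', he', h5⟩ := iter_smul hF he ((act F)^[v] z) j
    rw [Function.iterate_add_apply, Function.iterate_add_apply, huv, h5,
      Height.logHeight_smul_eq_logHeight _ he']
  obtain ⟨h5, h6⟩ := h1 z hz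
  have key2 : ∀ u v : ℕ, u < v → (∀ j : ℕ, Height.logHeight ((act F)^[j + u] z) =
      Height.logHeight ((act F)^[j + v] z)) → canH F d z = 0 := by
    intro u v huv hj
    have hlim1 := (h6.comp (tendsto_add_atTop_nat u)).const_mul ((d : ℝ) ^ u)
    have hlim2 := (h6.comp (tendsto_add_atTop_nat v)).const_mul ((d : ℝ) ^ v)
    have hd0 : (0 : ℝ) < d := by
      have : 0 < d := by omega
      exact_mod_cast this
    have hn := finrank_pos' (L := L)
    have h7 := tendsto_nhds_unique hlim1 (hlim2.congr fun j => by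
      simp only [Function.comp_apply]
      rw [← hj j, pow_add, pow_add]
      field_simp)
    by_contra h0
    have h8 := mul_right_cancel₀ h0 h7
    have h9 : (d ^ u : ℕ) = d ^ v := by exact_mod_cast h8
    exact (ne_of_lt huv) (Nat.pow_right_injective hd h9)
  rcases lt_or_gt_of_ne hmn with h7 | h7
  · exact key2 m n h7 fun j => (hH n m c hc h j).symm
  · exact key2 n m h7 fun j => hH n m c hc h j

end

end Pool.Agent.D0H75.RD
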